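import Pool.Agent.Lib.MP_8f49b0_lc.MM.E.QD

/-!
# Names of closed unbounded sets in the extension (module E-CLUBB)

`clubB K E C` is the name of the set of the pairs `(E h, δ)` with the truth value `C h δ`. `fo_App_clubB`: `down` and `QD.of_beq`. `fo_Forces`: if `c ∈ C h δ` then for every `q ≤ E h` in `Q` take `r = s = q`; conversely use `dens`, `down`.
`fo_ForcesClub`: the two clauses of `Kb.ForcesClub` from `unb` and `cls`: replace elements of `Q` by some `E h` and elements of `ordB w1` by some `ordB δ` after extending the condition (`fo_reg`, `fo_ext`).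
-/

namespace Pool.Agent.Lib.MP_8f49b0_lc.MM

open Pool.Agent.Lib.MP_4d8715_gt.KR

namespace Code

/-- the name of the set of the pairs `(E h, δ)` with the truth value `C h δ` -/
noncomputable def clubB (K : Code) (E : O → BSet (RO (PT K))) (C : O → O → Set Pre) : BSet (RO (PT K)) :=
  K.relB (ι := {ξ : O // ξ < w1} × {ξ : O // ξ < w1}) (fun i => E i.1.1) (fun i => K.ordB i.2.1) (fun i => K.ro (C i.1.1 i.2.1))

/-- `C` is closed downwards and determined densely -/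
structure NC (K : Code) (c1 : Pre) (q C : O → O → Set Pre) : Prop where
  reg : ∀ h δ, K.Reg (C h δ)
  down : ∀ h' < w1, ∀ h < w1, ∀ δ < w1, ∀ c, K.ex c c1 → c ∈ q h' h → c ∈ C h δ → c ∈ C h' δ
  dens : ∀ h < w1, ∀ δ < w1, ∀ c, K.ex c c1 →
    (∀ c', K.ex c' c → ∀ r < w1, c' ∈ q r h → ∃ c'', K.ex c'' c' ∧ ∃ r' < w1, c'' ∈ q r' r ∧ c'' ∈ C r' δ) → c ∈ C h δ

variable {K : Code} {c1 : Pre} {Q R : BSet (RO (PT K))} {E : O → BSet (RO (PT K))} {C : O → O → Set Pre}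

theorem fo_App_clubB (hQ : QD K c1 Q R E) (hC : NC K c1 (qn K R E) C) {c : Pre} (hc : K.ex c c1) {h δ : O} (hh : h < w1)
    (hδ : δ < w1) : Fo c (Kb.App (clubB K E C) (E h) (K.ordB δ)) ↔ c ∈ C h δ := by
  unfold clubB
  rw [fo_App_relB]
  constructor
  · rintro ⟨hok, H⟩
    refine (hC.reg h δ).reg c hc.1 fun c' hc' => ?_
    obtain ⟨c'', hc'', ⟨⟨i, hi⟩, ⟨j, hj⟩⟩, h1, h2, h3⟩ := H c' hc'
    have hex1 : K.ex c'' c1 := ex_trans hQ.ok (ex_trans hc.1 hc'' hc') hc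
    refine ⟨c'', hc'', ?_⟩
    have h4 : c'' ∈ C i j := (fo_ro (hC.reg i j)).1 h1
    have h5 : δ = j := (fo_beq_ordB.1 h3).2
    rw [← h5] at h4
    exact hC.down h hh i hi δ hδ c'' hex1 (hQ.of_beq hex1 hh hi h2).1 h4
  · intro H
    refine ⟨hc.1, fun c' hc' => ⟨c', ex_refl hc'.1, (⟨h, hh⟩, ⟨δ, hδ⟩), ?_, ?_, ?_⟩⟩
    · exact (fo_ro (hC.reg h δ)).2 ((hC.reg h δ).opn c H c' hc')
    · exact fo_beq_refl hc'.1 _
    · exact fo_beq_refl hc'.1 _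

theorem fo_Forces (hQ : QD K c1 Q R E) (hC : NC K c1 (qn K R E) C) {c : Pre} (hc : K.ex c c1) {h δ : O} (hh : h < w1)
    (hδ : δ < w1) : Fo c (Kb.Forces Q R (clubB K E C) (E h) (K.ordB δ)) ↔ c ∈ C h δ := by
  unfold Kb.Forces
  constructor
  · intro H
    refine hC.dens h hh δ hδ c hc fun c' hc' r hr hcr => ?_
    have hex' : K.ex c' c1 := ex_trans hQ.ok hc' hc
    have H1 := fo_iInf.1 H (E r)
    have H2 := (fo_himp.1 H1).2 c' hc' ((hQ.enu.mem ⟨r, hr⟩).mono hex')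
    have H3 := (fo_himp.1 H2).2 c' (ex_refl hc'.1) hcr
    obtain ⟨c2, hc2, r1, H4⟩ := (fo_iSup.1 H3).2 c' (ex_refl hc'.1)
    obtain ⟨c3, hc3, s1, H5⟩ := (fo_iSup.1 H4).2 c2 (ex_refl hc2.1)
    rw [fo_inf, fo_inf, fo_inf, fo_inf] at H5
    obtain ⟨g1, g2, g3, g4, g5⟩ := H5
    have e3 : K.ex c3 c' := ex_trans hc'.1 hc3 hc2
    obtain ⟨c4, hc4, ⟨i, hi⟩, b1⟩ := hQ.enu.cov c3 (ex_trans hQ.ok e3 hex') r1 g1
    have e4 : K.ex c4 c' := ex_trans hc'.1 hc4 e3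
    obtain ⟨c5, hc5, ⟨j, hj⟩, b2⟩ := hQ.enu.cov c4 (ex_trans hQ.ok e4 hex') s1 (g2.mono hc4)
    have e5 : K.ex c5 c' := ex_trans hc'.1 hc5 e4
    have e51 : K.ex c5 c1 := ex_trans hQ.ok e5 hex'
    have b1' := b1.mono hc5
    have e53 : K.ex c5 c3 := ex_trans hc3.1 hc5 hc4
    have d1 : Fo c5 (Kb.App R (E i) (E r)) := fo_ext (Kb.ext_App_a R (E r)) b1' (g3.mono e53)
    have d2 : Fo c5 (Kb.App R (E i) s1) := fo_ext (Kb.ext_App_a R s1) b1' (g4.mono e53)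
    have d3 : Fo c5 (Kb.App R (E i) (E j)) := fo_ext (Kb.ext_App_b R (E i)) b2 d2
    have d4 : Fo c5 (Kb.App (clubB K E C) (E j) (K.ordB δ)) :=
      fo_ext (Kb.ext_App_a (clubB K E C) (K.ordB δ)) b2 (g5.mono e53)
    have d5 : c5 ∈ C j δ := (fo_App_clubB hQ hC e51 hj hδ).1 d4
    exact ⟨c5, e5, i, hi, d1, hC.down i hi j hj δ hδ c5 e51 d3 d5⟩
  · intro H
    rw [fo_iInf]
    intro q
    rw [fo_himp]
    refine ⟨hc.1, fun c' hc' hq => ?_⟩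
    rw [fo_himp]
    refine ⟨hc'.1, fun c2 hc2 hqR => ?_⟩
    refine fo_reg hc2.1 fun c3 hc3 => ?_
    have e3 : K.ex c3 c' := ex_trans hc'.1 hc3 hc2
    have e31 : K.ex c3 c1 := ex_trans hQ.ok e3 (ex_trans hQ.ok hc' hc)
    obtain ⟨c4, hc4, ⟨i, hi⟩, b1⟩ := hQ.enu.cov c3 e31 q (hq.mono e3)
    have e41 : K.ex c4 c1 := ex_trans hQ.ok hc4 e31
    have e42 : K.ex c4 c2 := ex_trans hc2.1 hc4 hc3
    have e4' : K.ex c4 c' := ex_trans hc'.1 hc4 e3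
    have e4c : K.ex c4 c := ex_trans hc.1 e4' hc'
    have d1 : Fo c4 (Kb.App R (E i) (E h)) := fo_ext (Kb.ext_App_a R (E h)) b1 (hqR.mono e42)
    have d2 : c4 ∈ C i δ := hC.down i hi h hh δ hδ c4 e41 d1 ((hC.reg h δ).opn c H c4 e4c)
    have d3 : Fo c4 (Kb.App (clubB K E C) q (K.ordB δ)) :=
      fo_ext (Kb.ext_App_a (clubB K E C) (K.ordB δ)) (fo_beq_symm b1)
        ((fo_App_clubB hQ hC e41 hi hδ).2 d2)
    have hq4 : Fo c4 (BSet.bmem q Q) := hq.mono e4'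
    have hrefl : Fo c4 (Kb.App R q q) := by
      have h1 := (fo_inf.1 (hQ.pre.mono e41)).1
      exact (fo_himp.1 (fo_iInf.1 h1 q)).2 c4 (ex_refl hc4.1) hq4
    refine ⟨c4, hc4, ?_⟩
    have hfin : Fo c4 (BSet.bmem q Q ⊓ (BSet.bmem q Q ⊓ (Kb.App R q q ⊓ (Kb.App R q q ⊓
        Kb.App (clubB K E C) q (K.ordB δ))))) := by
      rw [fo_inf, fo_inf, fo_inf, fo_inf]
      exact ⟨hq4, hq4, hrefl, hrefl, d3⟩
    exact hfin.of_le (le_iSup_of_le q (le_iSup_of_le q le_rfl))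

end Code

end Pool.Agent.Lib.MP_8f49b0_lc.MM
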