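import Pool.Agent.Lib.MP_8f49b0_lc.MM.E.ClubB

/-!
# Names of closed unbounded sets in the extension, 2 (module E-CLUBC)

`fo_ForcesClub`: the two clauses of `Kb.ForcesClub` from `unb` and `cls`: replace elements of `Q` by some `E h` and elements of `ordB w1` by some `ordB δ` after extending the condition (`fo_reg`, `fo_ext`), and use `fo_Forces`.
-/

namespace Pool.Agent.Lib.MP_8f49b0_lc.MM

open Pool.Agent.Lib.MP_4d8715_gt.KR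

namespace Code

variable {K : Code} {c1 : Pre} {Q R : BSet (RO (PT K))} {E : O → BSet (RO (PT K))} {C : O → O → Set Pre}

theorem fo_ForcesClub (hQ : QD K c1 Q R E) (hC : NC K c1 (qn K R E) C) {h0 : O} (hh0 : h0 < w1)
    (unb : ∀ γ < w1, ∀ c, K.ex c c1 → ∀ h < w1, c ∈ qn K R E h h0 →
      ∃ c', K.ex c' c ∧ ∃ h' < w1, c' ∈ qn K R E h' h ∧ ∃ δ < w1, γ < δ ∧ c' ∈ C h' δ)
    (cls : ∀ δ < w1, δ ≠ 0 → ∀ c, K.ex c c1 → ∀ h < w1, c ∈ qn K R E h h0 →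
      (∀ γ < δ, ∀ c', K.ex c' c → ∀ r < w1, c' ∈ qn K R E r h →
        ∃ c'', K.ex c'' c' ∧ ∃ r' < w1, c'' ∈ qn K R E r' r ∧ ∃ ε < δ, γ < ε ∧ c'' ∈ C r' ε) → c ∈ C h δ) :
    Fo c1 (Kb.ForcesClub (K.ordB w1) Q R (clubB K E C) (E h0)) := by
  unfold Kb.ForcesClub
  rw [fo_inf]
  constructor
  · -- unbounded
    rw [fo_iInf]
    intro q
    rw [fo_iInf]
    intro g
    rw [fo_himp]
    refine ⟨hQ.ok, fun a1 ha1 hq => ?_⟩
    rw [fo_himp]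
    refine ⟨ha1.1, fun a2 ha2 hqR => ?_⟩
    rw [fo_himp]
    refine ⟨ha2.1, fun a3 ha3 hg => ?_⟩
    refine fo_reg ha3.1 fun a4 ha4 => ?_
    have e42 : K.ex a4 a2 := ex_trans ha2.1 ha4 ha3
    have e41 : K.ex a4 a1 := ex_trans ha1.1 e42 ha2
    have e4 : K.ex a4 c1 := ex_trans hQ.ok e41 ha1
    obtain ⟨a5, ha5, ⟨h, hh⟩, b1⟩ := hQ.enu.cov a4 e4 q (hq.mono e41)
    have e5 : K.ex a5 c1 := ex_trans hQ.ok ha5 e4
    have e53 : K.ex a5 a3 := ex_trans ha3.1 ha5 ha4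
    have e52 : K.ex a5 a2 := ex_trans ha2.1 ha5 e42
    obtain ⟨a6, ha6, ⟨γ, hγ⟩, b2⟩ := (enu_ordB hQ.ok w1).cov a5 e5 g (hg.mono e53)
    have e6 : K.ex a6 c1 := ex_trans hQ.ok ha6 e5
    have e62 : K.ex a6 a2 := ex_trans ha2.1 ha6 e52
    have d1 : Fo a6 (Kb.App R (E h) (E h0)) :=
      fo_ext (Kb.ext_App_a R (E h0)) (b1.mono ha6) (hqR.mono e62)
    obtain ⟨a7, ha7, h', hh', d2, δ, hδ, hγδ, d3⟩ := unb γ hγ a6 e6 h hh d1
    have e7 : K.ex a7 c1 := ex_trans hQ.ok ha7 e6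
    have e75 : K.ex a7 a5 := ex_trans ha5.1 ha7 ha6
    have e74 : K.ex a7 a4 := ex_trans ha4.1 e75 ha5
    refine ⟨a7, e74, ?_⟩
    have f1 : Fo a7 (BSet.bmem (E h') Q) := (hQ.enu.mem ⟨h', hh'⟩).mono e7
    have f2 : Fo a7 (Kb.App R (E h') q) :=
      fo_ext (Kb.ext_App_b R (E h')) (fo_beq_symm (b1.mono e75)) d2
    have f3 : Fo a7 (BSet.bmem (K.ordB δ) (K.ordB w1)) := fo_mem_ordB.2 ⟨ha7.1, hδ⟩
    have f4 : Fo a7 (BSet.bmem g (K.ordB δ)) :=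
      fo_ext (BSet.ext_bmem_left (K.ordB δ)) (fo_beq_symm (b2.mono ha7))
        (fo_mem_ordB.2 ⟨ha7.1, hγδ⟩)
    have f5 := (fo_Forces hQ hC e7 hh' hδ).2 d3
    have hfin : Fo a7 (BSet.bmem (E h') Q ⊓ (Kb.App R (E h') q ⊓ (BSet.bmem (K.ordB δ) (K.ordB w1) ⊓
        (BSet.bmem g (K.ordB δ) ⊓ Kb.Forces Q R (clubB K E C) (E h') (K.ordB δ))))) := by
      rw [fo_inf, fo_inf, fo_inf, fo_inf]
      exact ⟨f1, f2, f3, f4, f5⟩
    exact hfin.of_le (le_iSup_of_le (E h') (le_iSup_of_le (K.ordB δ) le_rfl))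
  · -- closed
    rw [fo_iInf]
    intro q
    rw [fo_iInf]
    intro d
    rw [fo_himp]
    refine ⟨hQ.ok, fun a1 ha1 hq => ?_⟩
    rw [fo_himp]
    refine ⟨ha1.1, fun a2 ha2 hqR => ?_⟩
    rw [fo_himp]
    refine ⟨ha2.1, fun a3 ha3 hd => ?_⟩
    rw [fo_himp]
    refine ⟨ha3.1, fun a4 ha4 hne => ?_⟩
    rw [fo_himp]
    refine ⟨ha4.1, fun a5 ha5 hcl => ?_⟩
    refine fo_reg ha5.1 fun a6 ha6 => ?_
    have e64 : K.ex a6 a4 := ex_trans ha4.1 ha6 ha5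
    have e63 : K.ex a6 a3 := ex_trans ha3.1 e64 ha4
    have e62 : K.ex a6 a2 := ex_trans ha2.1 e63 ha3
    have e61 : K.ex a6 a1 := ex_trans ha1.1 e62 ha2
    have e6 : K.ex a6 c1 := ex_trans hQ.ok e61 ha1
    obtain ⟨a7, ha7, ⟨h, hh⟩, b1⟩ := hQ.enu.cov a6 e6 q (hq.mono e61)
    have e7 : K.ex a7 c1 := ex_trans hQ.ok ha7 e6
    obtain ⟨a8, ha8, ⟨δ, hδ⟩, b2⟩ := (enu_ordB hQ.ok w1).cov a7 e7 d (hd.mono
      (ex_trans ha3.1 ha7 e63))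
    have e8 : K.ex a8 c1 := ex_trans hQ.ok ha8 e7
    have e86 : K.ex a8 a6 := ex_trans ha6.1 ha8 ha7
    have b1' := b1.mono ha8
    have d1 : Fo a8 (Kb.App R (E h) (E h0)) :=
      fo_ext (Kb.ext_App_a R (E h0)) b1' (hqR.mono (ex_trans ha2.1 e86 e62))
    have hδ0 : δ ≠ 0 := by
      intro h0'
      have h1 : Fo a8 (Kb.Emp (K.ordB δ)) := fo_Emp_ordB.2 ⟨ha8.1, h0'⟩
      have h2 : Fo a8 (Kb.Emp d) := fo_ext Kb.ext_Emp_x (fo_beq_symm b2) h1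
      have h3 := hne.mono (ex_trans ha4.1 e86 e64)
      exact (fo_compl.1 h3).2 a8 (ex_refl ha8.1) h2
    have key : a8 ∈ C h δ := by
      refine cls δ hδ hδ0 a8 e8 h hh d1 ?_
      intro γ hγ a9 ha9 r hr hrh
      have e9 : K.ex a9 c1 := ex_trans hQ.ok ha9 e8
      have e95 : K.ex a9 a5 := ex_trans ha5.1 (ex_trans ha6.1 ha9 e86) ha6
      have g1 : Fo a9 (BSet.bmem (E r) Q) := (hQ.enu.mem ⟨r, hr⟩).mono e9
      have g2 : Fo a9 (Kb.App R (E r) q) :=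
        fo_ext (Kb.ext_App_b R (E r)) (fo_beq_symm (b1'.mono ha9)) hrh
      have g3 : Fo a9 (BSet.bmem (K.ordB γ) d) :=
        fo_ext (BSet.ext_bmem_right (K.ordB γ)) (fo_beq_symm (b2.mono ha9))
          (fo_mem_ordB.2 ⟨ha9.1, hγ⟩)
      have H1 := fo_iInf.1 (fo_iInf.1 (hcl.mono e95) (E r)) (K.ordB γ)
      have H2 := (fo_himp.1 H1).2 a9 (ex_refl ha9.1) g1
      have H3 := (fo_himp.1 H2).2 a9 (ex_refl ha9.1) g2
      have H4 := (fo_himp.1 H3).2 a9 (ex_refl ha9.1) g3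
      obtain ⟨x1, hx1, s, H5⟩ := (fo_iSup.1 H4).2 a9 (ex_refl ha9.1)
      obtain ⟨x2, hx2, e, H6⟩ := (fo_iSup.1 H5).2 x1 (ex_refl hx1.1)
      rw [fo_inf, fo_inf, fo_inf, fo_inf] at H6
      obtain ⟨k1, k2, k3, k4, k5⟩ := H6
      have x29 : K.ex x2 a9 := ex_trans ha9.1 hx2 hx1
      have x2c : K.ex x2 c1 := ex_trans hQ.ok x29 e9
      obtain ⟨x3, hx3, ⟨r', hr'⟩, m1⟩ := hQ.enu.cov x2 x2c s k1
      have x39 : K.ex x3 a9 := ex_trans ha9.1 hx3 x29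
      have x3c : K.ex x3 c1 := ex_trans hQ.ok hx3 x2c
      have x38 : K.ex x3 a8 := ex_trans ha8.1 x39 ha9
      have k3' : Fo x3 (BSet.bmem e (K.ordB δ)) :=
        fo_ext (BSet.ext_bmem_right e) (b2.mono x38) (k3.mono hx3)
      obtain ⟨x4, hx4, ⟨ε, hε⟩, m2⟩ := (enu_ordB hQ.ok δ).cov x3 x3c e k3'
      have x4c : K.ex x4 c1 := ex_trans hQ.ok hx4 x3c
      have x42 : K.ex x4 x2 := ex_trans hx2.1 hx4 hx3
      have m1' := m1.mono hx4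
      have hγε : γ < ε := by
        have : Fo x4 (BSet.bmem (K.ordB γ) (K.ordB ε)) :=
          fo_ext (BSet.ext_bmem_right (K.ordB γ)) m2 (k4.mono x42)
        exact (fo_mem_ordB.1 this).2
      have k5a : Fo x4 (Kb.Forces Q R (clubB K E C) (E r') e) :=
        fo_ext (Kb.ext_Forces_p Q R (clubB K E C) e) m1' (k5.mono x42)
      have k5b : Fo x4 (Kb.Forces Q R (clubB K E C) (E r') (K.ordB ε)) :=
        fo_ext (Kb.ext_Forces_d Q R (clubB K E C) (E r')) m2 k5a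
      have k2a : Fo x4 (Kb.App R (E r') (E r)) :=
        fo_ext (Kb.ext_App_a R (E r)) m1' (k2.mono x42)
      exact ⟨x4, ex_trans ha9.1 hx4 x39, r', hr', k2a, ε, hε, hγε,
        (fo_Forces hQ hC x4c hr' (lt_trans hε hδ)).1 k5b⟩
    have f1 := (fo_Forces hQ hC e8 hh hδ).2 key
    have f2 : Fo a8 (Kb.Forces Q R (clubB K E C) q (K.ordB δ)) :=
      fo_ext (Kb.ext_Forces_p Q R (clubB K E C) (K.ordB δ)) (fo_beq_symm b1') f1
    have f3 : Fo a8 (Kb.Forces Q R (clubB K E C) q d) :=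
      fo_ext (Kb.ext_Forces_d Q R (clubB K E C) q) (fo_beq_symm b2) f2
    exact ⟨a8, e86, f3⟩

end Code

end Pool.Agent.Lib.MP_8f49b0_lc.MM
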