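import Pool.Agent.Lib.MP_8f49b0_lc.MM.E.Stmt
import Pool.Agent.Lib.MP_4d8715_gt.KR.E.Deep
import Pool.Agent.Lib.MP_4d8715_gt.KR.E.ExtK

/-!
# The formula of the statement, its truth in a structure and its Boolean value

For every definition `P` of `E/Stmt.lean` there are the formula `fP` and its Boolean reading `Kb.P`
(those of the basic notions are in the namespace `Pool.Agent.Lib.MP_4d8715_gt.KR` and were
made for another problem; the new ones are added to the same namespace).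
-/

universe u

namespace Pool.Agent.Lib.MP_4d8715_gt.KR

open Pool.Agent.Lib.MP_8f49b0_lc.MM

/-! ### Boolean readings -/

namespace Kb

open BSet

variable {B : Type u} [CompleteBooleanAlgebra B]

/-- ordinal -/
def Ordl (x : BSet B) : B :=
  (⨅ y, bmem y x ⇨ Sub y x) ⊓ (⨅ y, bmem y x ⇨ (⨅ z, bmem z y ⇨ Sub z y))

/-- the least uncountable ordinal -/
def Omega1 (w o : BSet B) : B :=
  Ordl o ⊓ (Uncountable w o ⊓ (⨅ x, bmem x o ⇨ (Uncountable w x)ᶜ))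

/-- preorder -/
def Preord (Q R : BSet B) : B :=
  (⨅ p, bmem p Q ⇨ App R p p) ⊓ (⨅ p, ⨅ q, ⨅ r, bmem p Q ⇨ bmem q Q ⇨ bmem r Q ⇨ App R p q ⇨
    App R q r ⇨ App R p r)

/-- at most `ℵ₁` elements -/
def Size1 (o Q : BSet B) : B :=
  ⨆ e, FunTo e o Q ⊓ (⨅ p, bmem p Q ⇨ (⨆ x, bmem x o ⊓ App e x p))

/-- closed unbounded -/
def Club (o C : BSet B) : B :=
  Sub C o ⊓ ((⨅ c, bmem c o ⇨ (⨆ d, bmem d C ⊓ bmem c d)) ⊓ (⨅ d, bmem d o ⇨ (Emp d)ᶜ ⇨ (⨅ c,
    bmem c d ⇨ (⨆ e, bmem e C ⊓ (bmem e d ⊓ bmem c e))) ⇨ bmem d C))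

/-- stationary -/
def Stat (o S : BSet B) : B :=
  Sub S o ⊓ (⨅ C, Club o C ⇨ (⨆ d, bmem d S ⊓ bmem d C))

/-- `p` forces `d` into the set named by `C` -/
def Forces (Q R C p d : BSet B) : B :=
  ⨅ q, bmem q Q ⇨ App R q p ⇨ (⨆ r, ⨆ s, bmem r Q ⊓ (bmem s Q ⊓ (App R r q ⊓ (App R r s ⊓ App C
    s d))))

/-- `p` forces that the set named by `C` is closed unbounded -/
def ForcesClub (o Q R C p : BSet B) : B :=
  (⨅ q, ⨅ c, bmem q Q ⇨ App R q p ⇨ bmem c o ⇨ (⨆ r, ⨆ d, bmem r Q ⊓ (App R r q ⊓ (bmem d o ⊓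
    (bmem c d ⊓ Forces Q R C r d))))) ⊓ (⨅ q, ⨅ d, bmem q Q ⇨ App R q p ⇨ bmem d o ⇨ (Emp d)ᶜ ⇨
    (⨅ r, ⨅ c, bmem r Q ⇨ App R r q ⇨ bmem c d ⇨ (⨆ s, ⨆ e, bmem s Q ⊓ (App R s r ⊓ (bmem e d ⊓
    (bmem c e ⊓ Forces Q R C s e))))) ⇨ Forces Q R C q d)

/-- preserves stationary sets -/
def PresStat (o Q R : BSet B) : B :=
  ⨅ S, ⨅ C, ⨅ p, Stat o S ⇨ bmem p Q ⇨ ForcesClub o Q R C p ⇨ (⨆ q, ⨆ d, bmem q Q ⊓ (App R q p
    ⊓ (bmem d S ⊓ Forces Q R C q d)))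

/-- dense subset -/
def DenseIn (Q R D : BSet B) : B :=
  Sub D Q ⊓ (⨅ p, bmem p Q ⇨ (⨆ q, bmem q D ⊓ App R q p))

/-- filter -/
def Filt (Q R G : BSet B) : B :=
  Sub G Q ⊓ ((⨆ p, bmem p G) ⊓ ((⨅ p, ⨅ q, bmem p G ⇨ bmem q Q ⇨ App R p q ⇨ bmem q G) ⊓ (⨅ p,
    ⨅ q, bmem p G ⇨ bmem q G ⇨ (⨆ r, bmem r G ⊓ (App R r p ⊓ App R r q)))))

/-- the forcing axiom -/
def MMax (o : BSet B) : B :=
  ⨅ Q, ⨅ R, Preord Q R ⇨ Size1 o Q ⇨ PresStat o Q R ⇨ (⨅ D, FunOn D o ⇨ (⨅ a, ⨅ X, bmem a o ⇨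
    App D a X ⇨ DenseIn Q R X) ⇨ (⨆ G, Filt Q R G ⊓ (⨅ a, ⨅ X, bmem a o ⇨ App D a X ⇨ (⨆ p,
    bmem p G ⊓ bmem p X))))

/-- `x < y` -/
def LtR (x y : BSet B) : B :=
  Sub x y ⊓ (beq x y)ᶜ

/-- cardinality `ℵ₁` -/
def Card1 (w o X : BSet B) : B :=
  Uncountable w X ⊓ (⨆ e, FunOn e o ⊓ (⨅ x, bmem x X ⇨ (⨆ c, bmem c o ⊓ App e c x)))

/-- `ℵ₁`-dense -/
def Dense1 (w Q lt o A : BSet B) : B :=
  SetOfReals Q lt A ⊓ (⨅ a, ⨅ b, Real Q lt a ⇨ Real Q lt b ⇨ LtR a b ⇨ (⨅ X, (⨅ x, iffB (bmem x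
    X) (bmem x A ⊓ (LtR a x ⊓ LtR x b))) ⇨ Card1 w o X))

/-- isomorphism -/
def OrdIso (X Y f : BSet B) : B :=
  FunTo f X Y ⊓ ((⨅ y, bmem y Y ⇨ (⨆ x, bmem x X ⊓ App f x y)) ⊓ (⨅ x, ⨅ x', ⨅ y, ⨅ y', App f x
    y ⇨ App f x' y' ⇨ LtR x x' ⇨ LtR y y'))

/-- Baumgartners Axiom -/
def BAx (w Q lt o : BSet B) : B :=
  ⨅ X, ⨅ Y, Dense1 w Q lt o X ⇨ Dense1 w Q lt o Y ⇨ (⨆ f, OrdIso X Y f)

/-- the statement -/
def MMnotBA (B : Type u) [CompleteBooleanAlgebra B] : B :=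
  ⨆ w : BSet B, ⨆ Q, ⨆ add, ⨆ mul, ⨆ lt, ⨆ z, ⨆ i, ⨆ o, Omega w ⊓ (Rationals Q add mul lt z i ⊓
    (Omega1 w o ⊓ (MMax o ⊓ (BAx w Q lt o)ᶜ)))

end Kb

/-! ### The formulas -/

namespace Fml

/-- ordinal -/
def fOrdl {n : ℕ} (x : Fin n) : Fml n :=
  and (all (imp (mem 0 x.succ) (fSub 0 x.succ))) (all (imp (mem 0 x.succ) (all (imp (mem 0 (0 :
    Fin _).succ) (fSub 0 (0 : Fin _).succ)))))

/-- the least uncountable ordinal -/
def fOmega1 {n : ℕ} (w o : Fin n) : Fml n :=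
  and (fOrdl o) (and (fUncountable w o) (all (imp (mem 0 o.succ) (neg (fUncountable w.succ
    0)))))

/-- preorder -/
def fPreord {n : ℕ} (Q R : Fin n) : Fml n :=
  and (all (imp (mem 0 Q.succ) (fApp R.succ 0 0))) (all (all (all (imp (mem (0 : Fin
    _).succ.succ Q.succ.succ.succ) (imp (mem (0 : Fin _).succ Q.succ.succ.succ) (imp (mem 0
    Q.succ.succ.succ) (imp (fApp R.succ.succ.succ (0 : Fin _).succ.succ (0 : Fin _).succ) (imp
    (fApp R.succ.succ.succ (0 : Fin _).succ 0) (fApp R.succ.succ.succ (0 : Fin _).succ.succ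
    0)))))))))

/-- at most `ℵ₁` elements -/
def fSize1 {n : ℕ} (o Q : Fin n) : Fml n :=
  ex (and (fFunTo 0 o.succ Q.succ) (all (imp (mem 0 Q.succ.succ) (ex (and (mem 0
    o.succ.succ.succ) (fApp (0 : Fin _).succ.succ 0 (0 : Fin _).succ))))))

/-- closed unbounded -/
def fClub {n : ℕ} (o C : Fin n) : Fml n :=
  and (fSub C o) (and (all (imp (mem 0 o.succ) (ex (and (mem 0 C.succ.succ) (mem (0 : Fin
    _).succ 0))))) (all (imp (mem 0 o.succ) (imp (neg (fEmp 0)) (imp (all (imp (mem 0 (0 : Fin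
    _).succ) (ex (and (mem 0 C.succ.succ.succ) (and (mem 0 (0 : Fin _).succ.succ) (mem (0 : Fin
    _).succ 0)))))) (mem 0 C.succ))))))

/-- stationary -/
def fStat {n : ℕ} (o S : Fin n) : Fml n :=
  and (fSub S o) (all (imp (fClub o.succ 0) (ex (and (mem 0 S.succ.succ) (mem 0 (0 : Fin
    _).succ)))))

/-- `p` forces `d` into the set named by `C` -/
def fForces {n : ℕ} (Q R C p d : Fin n) : Fml n :=
  all (imp (mem 0 Q.succ) (imp (fApp R.succ 0 p.succ) (ex (ex (and (mem (0 : Fin _).succ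
    Q.succ.succ.succ) (and (mem 0 Q.succ.succ.succ) (and (fApp R.succ.succ.succ (0 : Fin
    _).succ (0 : Fin _).succ.succ) (and (fApp R.succ.succ.succ (0 : Fin _).succ 0) (fApp
    C.succ.succ.succ 0 d.succ.succ.succ)))))))))

/-- `p` forces that the set named by `C` is closed unbounded -/
def fForcesClub {n : ℕ} (o Q R C p : Fin n) : Fml n :=
  and (all (all (imp (mem (0 : Fin _).succ Q.succ.succ) (imp (fApp R.succ.succ (0 : Fin _).succ
    p.succ.succ) (imp (mem 0 o.succ.succ) (ex (ex (and (mem (0 : Fin _).succ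
    Q.succ.succ.succ.succ) (and (fApp R.succ.succ.succ.succ (0 : Fin _).succ (0 : Fin
    _).succ.succ.succ) (and (mem 0 o.succ.succ.succ.succ) (and (mem (0 : Fin _).succ.succ 0)
    (fForces Q.succ.succ.succ.succ R.succ.succ.succ.succ C.succ.succ.succ.succ (0 : Fin _).succ
    0)))))))))))) (all (all (imp (mem (0 : Fin _).succ Q.succ.succ) (imp (fApp R.succ.succ (0 :
    Fin _).succ p.succ.succ) (imp (mem 0 o.succ.succ) (imp (neg (fEmp 0)) (imp (all (all (imp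
    (mem (0 : Fin _).succ Q.succ.succ.succ.succ) (imp (fApp R.succ.succ.succ.succ (0 : Fin
    _).succ (0 : Fin _).succ.succ.succ) (imp (mem 0 (0 : Fin _).succ.succ) (ex (ex (and (mem (0
    : Fin _).succ Q.succ.succ.succ.succ.succ.succ) (and (fApp R.succ.succ.succ.succ.succ.succ
    (0 : Fin _).succ (0 : Fin _).succ.succ.succ) (and (mem 0 (0 : Fin _).succ.succ.succ.succ)
    (and (mem (0 : Fin _).succ.succ 0) (fForces Q.succ.succ.succ.succ.succ.succ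
    R.succ.succ.succ.succ.succ.succ C.succ.succ.succ.succ.succ.succ (0 : Fin _).succ
    0)))))))))))) (fForces Q.succ.succ R.succ.succ C.succ.succ (0 : Fin _).succ 0))))))))

/-- preserves stationary sets -/
def fPresStat {n : ℕ} (o Q R : Fin n) : Fml n :=
  all (all (all (imp (fStat o.succ.succ.succ (0 : Fin _).succ.succ) (imp (mem 0
    Q.succ.succ.succ) (imp (fForcesClub o.succ.succ.succ Q.succ.succ.succ R.succ.succ.succ (0 :
    Fin _).succ 0) (ex (ex (and (mem (0 : Fin _).succ Q.succ.succ.succ.succ.succ) (and (fApp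
    R.succ.succ.succ.succ.succ (0 : Fin _).succ (0 : Fin _).succ.succ) (and (mem 0 (0 : Fin
    _).succ.succ.succ.succ) (fForces Q.succ.succ.succ.succ.succ R.succ.succ.succ.succ.succ (0 :
    Fin _).succ.succ.succ (0 : Fin _).succ 0)))))))))))

/-- dense subset -/
def fDenseIn {n : ℕ} (Q R D : Fin n) : Fml n :=
  and (fSub D Q) (all (imp (mem 0 Q.succ) (ex (and (mem 0 D.succ.succ) (fApp R.succ.succ 0 (0 :
    Fin _).succ)))))

/-- filter -/
def fFilt {n : ℕ} (Q R G : Fin n) : Fml n :=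
  and (fSub G Q) (and (ex (mem 0 G.succ)) (and (all (all (imp (mem (0 : Fin _).succ
    G.succ.succ) (imp (mem 0 Q.succ.succ) (imp (fApp R.succ.succ (0 : Fin _).succ 0) (mem 0
    G.succ.succ)))))) (all (all (imp (mem (0 : Fin _).succ G.succ.succ) (imp (mem 0
    G.succ.succ) (ex (and (mem 0 G.succ.succ.succ) (and (fApp R.succ.succ.succ 0 (0 : Fin
    _).succ.succ) (fApp R.succ.succ.succ 0 (0 : Fin _).succ))))))))))

/-- the forcing axiom -/
def fMMax {n : ℕ} (o : Fin n) : Fml n :=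
  all (all (imp (fPreord (0 : Fin _).succ 0) (imp (fSize1 o.succ.succ (0 : Fin _).succ) (imp
    (fPresStat o.succ.succ (0 : Fin _).succ 0) (all (imp (fFunOn 0 o.succ.succ.succ) (imp (all
    (all (imp (mem (0 : Fin _).succ o.succ.succ.succ.succ.succ) (imp (fApp (0 : Fin
    _).succ.succ (0 : Fin _).succ 0) (fDenseIn (0 : Fin _).succ.succ.succ.succ (0 : Fin
    _).succ.succ.succ 0))))) (ex (and (fFilt (0 : Fin _).succ.succ.succ (0 : Fin _).succ.succ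
    0) (all (all (imp (mem (0 : Fin _).succ o.succ.succ.succ.succ.succ.succ) (imp (fApp (0 :
    Fin _).succ.succ.succ (0 : Fin _).succ 0) (ex (and (mem 0 (0 : Fin _).succ.succ.succ) (mem
    0 (0 : Fin _).succ))))))))))))))))

/-- `x < y` -/
def fLtR {n : ℕ} (x y : Fin n) : Fml n :=
  and (fSub x y) (neg (eq x y))

/-- cardinality `ℵ₁` -/
def fCard1 {n : ℕ} (w o X : Fin n) : Fml n :=
  and (fUncountable w X) (ex (and (fFunOn 0 o.succ) (all (imp (mem 0 X.succ.succ) (ex (and (mem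
    0 o.succ.succ.succ) (fApp (0 : Fin _).succ.succ 0 (0 : Fin _).succ)))))))

/-- `ℵ₁`-dense -/
def fDense1 {n : ℕ} (w Q lt o A : Fin n) : Fml n :=
  and (fSetOfReals Q lt A) (all (all (imp (fReal Q.succ.succ lt.succ.succ (0 : Fin _).succ)
    (imp (fReal Q.succ.succ lt.succ.succ 0) (imp (fLtR (0 : Fin _).succ 0) (all (imp (all (iff
    (mem 0 (0 : Fin _).succ) (and (mem 0 A.succ.succ.succ.succ) (and (fLtR (0 : Fin
    _).succ.succ.succ 0) (fLtR 0 (0 : Fin _).succ.succ))))) (fCard1 w.succ.succ.succ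
    o.succ.succ.succ 0))))))))

/-- isomorphism -/
def fOrdIso {n : ℕ} (X Y f : Fin n) : Fml n :=
  and (fFunTo f X Y) (and (all (imp (mem 0 Y.succ) (ex (and (mem 0 X.succ.succ) (fApp
    f.succ.succ 0 (0 : Fin _).succ))))) (all (all (all (all (imp (fApp f.succ.succ.succ.succ (0
    : Fin _).succ.succ.succ (0 : Fin _).succ) (imp (fApp f.succ.succ.succ.succ (0 : Fin
    _).succ.succ 0) (imp (fLtR (0 : Fin _).succ.succ.succ (0 : Fin _).succ.succ) (fLtR (0 : Fin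
    _).succ 0)))))))))

/-- Baumgartners Axiom -/
def fBAx {n : ℕ} (w Q lt o : Fin n) : Fml n :=
  all (all (imp (fDense1 w.succ.succ Q.succ.succ lt.succ.succ o.succ.succ (0 : Fin _).succ)
    (imp (fDense1 w.succ.succ Q.succ.succ lt.succ.succ o.succ.succ 0) (ex (fOrdIso (0 : Fin
    _).succ.succ (0 : Fin _).succ 0)))))

/-- the statement -/
def fMMnotBA : Fml 0 :=
  ex (ex (ex (ex (ex (ex (ex (ex (and (fOmega (0 : Fin _).succ.succ.succ.succ.succ.succ.succ)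
    (and (fRationals (0 : Fin _).succ.succ.succ.succ.succ.succ (0 : Fin
    _).succ.succ.succ.succ.succ (0 : Fin _).succ.succ.succ.succ (0 : Fin _).succ.succ.succ (0 :
    Fin _).succ.succ (0 : Fin _).succ) (and (fOmega1 (0 : Fin
    _).succ.succ.succ.succ.succ.succ.succ 0) (and (fMMax 0) (neg (fBAx (0 : Fin
    _).succ.succ.succ.succ.succ.succ.succ (0 : Fin _).succ.succ.succ.succ.succ.succ (0 : Fin
    _).succ.succ.succ 0)))))))))))))

section Sat2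

variable {M : Type*} (E : M → M → Prop)

theorem sat2_fSub {n : ℕ} (x y : Fin n) (v : Fin n → M) :
    Sat E (fSub x y) v ↔ Ms.Sub E (v x) (v y) :=
  sat_fSub E x y v

theorem sat2_fUPair {n : ℕ} (p a b : Fin n) (v : Fin n → M) :
    Sat E (fUPair p a b) v ↔ Ms.UPair E (v p) (v a) (v b) :=
  sat_fUPair E p a b v

theorem sat2_fPair {n : ℕ} (p a b : Fin n) (v : Fin n → M) :
    Sat E (fPair p a b) v ↔ Ms.Pair E (v p) (v a) (v b) :=
  sat_fPair E p a b v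

theorem sat2_fApp {n : ℕ} (f a b : Fin n) (v : Fin n → M) :
    Sat E (fApp f a b) v ↔ Ms.App E (v f) (v a) (v b) :=
  sat_fApp E f a b v

theorem sat2_fFunOn {n : ℕ} (f d : Fin n) (v : Fin n → M) :
    Sat E (fFunOn f d) v ↔ Ms.FunOn E (v f) (v d) :=
  sat_fFunOn E f d v

theorem sat2_fFunTo {n : ℕ} (f d r : Fin n) (v : Fin n → M) :
    Sat E (fFunTo f d r) v ↔ Ms.FunTo E (v f) (v d) (v r) :=
  sat_fFunTo E f d r v

theorem sat2_fEmp {n : ℕ} (x : Fin n) (v : Fin n → M) :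
    Sat E (fEmp x) v ↔ Ms.Emp E (v x) :=
  sat_fEmp E x v

theorem sat2_fSuc {n : ℕ} (y x : Fin n) (v : Fin n → M) :
    Sat E (fSuc y x) v ↔ Ms.Suc E (v y) (v x) :=
  sat_fSuc E y x v

theorem sat2_fInd {n : ℕ} (w : Fin n) (v : Fin n → M) :
    Sat E (fInd w) v ↔ Ms.Ind E (v w) :=
  sat_fInd E w v

theorem sat2_fOmega {n : ℕ} (w : Fin n) (v : Fin n → M) :
    Sat E (fOmega w) v ↔ Ms.Omega E (v w) :=
  sat_fOmega E w v

theorem sat2_fUncountable {n : ℕ} (w X : Fin n) (v : Fin n → M) :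
    Sat E (fUncountable w X) v ↔ Ms.Uncountable E (v w) (v X) :=
  sat_fUncountable E w X v

theorem sat2_fApp2 {n : ℕ} (f a b c : Fin n) (v : Fin n → M) :
    Sat E (fApp2 f a b c) v ↔ Ms.App2 E (v f) (v a) (v b) (v c) :=
  sat_fApp2 E f a b c v

theorem sat2_fBinOp {n : ℕ} (Q f : Fin n) (v : Fin n → M) :
    Sat E (fBinOp Q f) v ↔ Ms.BinOp E (v Q) (v f) :=
  sat_fBinOp E Q f v

theorem sat2_fNeutral {n : ℕ} (Q f o : Fin n) (v : Fin n → M) :
    Sat E (fNeutral Q f o) v ↔ Ms.Neutral E (v Q) (v f) (v o) :=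
  sat_fNeutral E Q f o v

theorem sat2_fAssocComm {n : ℕ} (Q f : Fin n) (v : Fin n → M) :
    Sat E (fAssocComm Q f) v ↔ Ms.AssocComm E (v Q) (v f) :=
  sat_fAssocComm E Q f v

theorem sat2_fOrdField {n : ℕ} (Q add mul lt o i : Fin n) (v : Fin n → M) :
    Sat E (fOrdField Q add mul lt o i) v ↔ Ms.OrdField E (v Q) (v add) (v mul) (v lt) (v o) (v i) :=
  sat_fOrdField E Q add mul lt o i v

theorem sat2_fSubfield {n : ℕ} (Q add mul o i K : Fin n) (v : Fin n → M) :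
    Sat E (fSubfield Q add mul o i K) v ↔ Ms.Subfield E (v Q) (v add) (v mul) (v o) (v i) (v K) :=
  sat_fSubfield E Q add mul o i K v

theorem sat2_fRationals {n : ℕ} (Q add mul lt o i : Fin n) (v : Fin n → M) :
    Sat E (fRationals Q add mul lt o i) v ↔ Ms.Rationals E (v Q) (v add) (v mul) (v lt) (v o) (v i) :=
  sat_fRationals E Q add mul lt o i v

theorem sat2_fReal {n : ℕ} (Q lt x : Fin n) (v : Fin n → M) :
    Sat E (fReal Q lt x) v ↔ Ms.Real E (v Q) (v lt) (v x) :=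
  sat_fReal E Q lt x v

theorem sat2_fSetOfReals {n : ℕ} (Q lt X : Fin n) (v : Fin n → M) :
    Sat E (fSetOfReals Q lt X) v ↔ Ms.SetOfReals E (v Q) (v lt) (v X) :=
  sat_fSetOfReals E Q lt X v

theorem sat2_fOrdl {n : ℕ} (x : Fin n) (v : Fin n → M) :
    Sat E (fOrdl x) v ↔ Ms.Ordl E (v x) := by
  simp only [fOrdl, Ms.Ordl, sat_all, sat_ex, sat_imp, sat_and, sat_or, sat_neg, sat_iff, sat_mem, sat_eq, Fin.cons_zero, Fin.cons_succ, ne_eq, sat2_fSub]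

theorem sat2_fOmega1 {n : ℕ} (w o : Fin n) (v : Fin n → M) :
    Sat E (fOmega1 w o) v ↔ Ms.Omega1 E (v w) (v o) := by
  simp only [fOmega1, Ms.Omega1, sat_all, sat_ex, sat_imp, sat_and, sat_or, sat_neg, sat_iff, sat_mem, sat_eq, Fin.cons_zero, Fin.cons_succ, ne_eq, sat2_fUncountable, sat2_fOrdl]

theorem sat2_fPreord {n : ℕ} (Q R : Fin n) (v : Fin n → M) :
    Sat E (fPreord Q R) v ↔ Ms.Preord E (v Q) (v R) := by
  simp only [fPreord, Ms.Preord, sat_all, sat_ex, sat_imp, sat_and, sat_or, sat_neg, sat_iff, sat_mem, sat_eq, Fin.cons_zero, Fin.cons_succ, ne_eq, sat2_fApp]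

theorem sat2_fSize1 {n : ℕ} (o Q : Fin n) (v : Fin n → M) :
    Sat E (fSize1 o Q) v ↔ Ms.Size1 E (v o) (v Q) := by
  simp only [fSize1, Ms.Size1, sat_all, sat_ex, sat_imp, sat_and, sat_or, sat_neg, sat_iff, sat_mem, sat_eq, Fin.cons_zero, Fin.cons_succ, ne_eq, sat2_fApp, sat2_fFunTo]

theorem sat2_fClub {n : ℕ} (o C : Fin n) (v : Fin n → M) :
    Sat E (fClub o C) v ↔ Ms.Club E (v o) (v C) := by
  simp only [fClub, Ms.Club, sat_all, sat_ex, sat_imp, sat_and, sat_or, sat_neg, sat_iff, sat_mem, sat_eq, Fin.cons_zero, Fin.cons_succ, ne_eq, sat2_fSub, sat2_fEmp]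

theorem sat2_fStat {n : ℕ} (o S : Fin n) (v : Fin n → M) :
    Sat E (fStat o S) v ↔ Ms.Stat E (v o) (v S) := by
  simp only [fStat, Ms.Stat, sat_all, sat_ex, sat_imp, sat_and, sat_or, sat_neg, sat_iff, sat_mem, sat_eq, Fin.cons_zero, Fin.cons_succ, ne_eq, sat2_fSub, sat2_fClub]

theorem sat2_fForces {n : ℕ} (Q R C p d : Fin n) (v : Fin n → M) :
    Sat E (fForces Q R C p d) v ↔ Ms.Forces E (v Q) (v R) (v C) (v p) (v d) := by
  simp only [fForces, Ms.Forces, sat_all, sat_ex, sat_imp, sat_and, sat_or, sat_neg, sat_iff, sat_mem, sat_eq, Fin.cons_zero, Fin.cons_succ, ne_eq, sat2_fApp]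

theorem sat2_fForcesClub {n : ℕ} (o Q R C p : Fin n) (v : Fin n → M) :
    Sat E (fForcesClub o Q R C p) v ↔ Ms.ForcesClub E (v o) (v Q) (v R) (v C) (v p) := by
  simp only [fForcesClub, Ms.ForcesClub, sat_all, sat_ex, sat_imp, sat_and, sat_or, sat_neg, sat_iff, sat_mem, sat_eq, Fin.cons_zero, Fin.cons_succ, ne_eq, sat2_fApp, sat2_fEmp, sat2_fForces]

theorem sat2_fPresStat {n : ℕ} (o Q R : Fin n) (v : Fin n → M) :
    Sat E (fPresStat o Q R) v ↔ Ms.PresStat E (v o) (v Q) (v R) := by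
  simp only [fPresStat, Ms.PresStat, sat_all, sat_ex, sat_imp, sat_and, sat_or, sat_neg, sat_iff, sat_mem, sat_eq, Fin.cons_zero, Fin.cons_succ, ne_eq, sat2_fApp, sat2_fStat, sat2_fForces, sat2_fForcesClub]

theorem sat2_fDenseIn {n : ℕ} (Q R D : Fin n) (v : Fin n → M) :
    Sat E (fDenseIn Q R D) v ↔ Ms.DenseIn E (v Q) (v R) (v D) := by
  simp only [fDenseIn, Ms.DenseIn, sat_all, sat_ex, sat_imp, sat_and, sat_or, sat_neg, sat_iff, sat_mem, sat_eq, Fin.cons_zero, Fin.cons_succ, ne_eq, sat2_fSub, sat2_fApp]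

theorem sat2_fFilt {n : ℕ} (Q R G : Fin n) (v : Fin n → M) :
    Sat E (fFilt Q R G) v ↔ Ms.Filt E (v Q) (v R) (v G) := by
  simp only [fFilt, Ms.Filt, sat_all, sat_ex, sat_imp, sat_and, sat_or, sat_neg, sat_iff, sat_mem, sat_eq, Fin.cons_zero, Fin.cons_succ, ne_eq, sat2_fSub, sat2_fApp]

theorem sat2_fMMax {n : ℕ} (o : Fin n) (v : Fin n → M) :
    Sat E (fMMax o) v ↔ Ms.MMax E (v o) := by
  simp only [fMMax, Ms.MMax, sat_all, sat_ex, sat_imp, sat_and, sat_or, sat_neg, sat_iff, sat_mem, sat_eq, Fin.cons_zero, Fin.cons_succ, ne_eq, sat2_fApp, sat2_fFunOn, sat2_fPreord, sat2_fSize1, sat2_fPresStat, sat2_fDenseIn, sat2_fFilt]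

theorem sat2_fLtR {n : ℕ} (x y : Fin n) (v : Fin n → M) :
    Sat E (fLtR x y) v ↔ Ms.LtR E (v x) (v y) := by
  simp only [fLtR, Ms.LtR, sat_all, sat_ex, sat_imp, sat_and, sat_or, sat_neg, sat_iff, sat_mem, sat_eq, Fin.cons_zero, Fin.cons_succ, ne_eq, sat2_fSub]

theorem sat2_fCard1 {n : ℕ} (w o X : Fin n) (v : Fin n → M) :
    Sat E (fCard1 w o X) v ↔ Ms.Card1 E (v w) (v o) (v X) := by
  simp only [fCard1, Ms.Card1, sat_all, sat_ex, sat_imp, sat_and, sat_or, sat_neg, sat_iff, sat_mem, sat_eq, Fin.cons_zero, Fin.cons_succ, ne_eq, sat2_fApp, sat2_fFunOn, sat2_fUncountable]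

theorem sat2_fDense1 {n : ℕ} (w Q lt o A : Fin n) (v : Fin n → M) :
    Sat E (fDense1 w Q lt o A) v ↔ Ms.Dense1 E (v w) (v Q) (v lt) (v o) (v A) := by
  simp only [fDense1, Ms.Dense1, sat_all, sat_ex, sat_imp, sat_and, sat_or, sat_neg, sat_iff, sat_mem, sat_eq, Fin.cons_zero, Fin.cons_succ, ne_eq, sat2_fReal, sat2_fSetOfReals, sat2_fLtR, sat2_fCard1]

theorem sat2_fOrdIso {n : ℕ} (X Y f : Fin n) (v : Fin n → M) :
    Sat E (fOrdIso X Y f) v ↔ Ms.OrdIso E (v X) (v Y) (v f) := by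
  simp only [fOrdIso, Ms.OrdIso, sat_all, sat_ex, sat_imp, sat_and, sat_or, sat_neg, sat_iff, sat_mem, sat_eq, Fin.cons_zero, Fin.cons_succ, ne_eq, sat2_fApp, sat2_fFunTo, sat2_fLtR]

theorem sat2_fBAx {n : ℕ} (w Q lt o : Fin n) (v : Fin n → M) :
    Sat E (fBAx w Q lt o) v ↔ Ms.BAx E (v w) (v Q) (v lt) (v o) := by
  simp only [fBAx, Ms.BAx, sat_all, sat_ex, sat_imp, sat_and, sat_or, sat_neg, sat_iff, sat_mem, sat_eq, Fin.cons_zero, Fin.cons_succ, ne_eq, sat2_fDense1, sat2_fOrdIso]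

theorem sat2_fMMnotBA :
    Sat E fMMnotBA ![] ↔ Ms.MMnotBA E := by
  simp only [fMMnotBA, Ms.MMnotBA, sat_all, sat_ex, sat_imp, sat_and, sat_or, sat_neg, sat_iff, sat_mem, sat_eq, Fin.cons_zero, Fin.cons_succ, ne_eq, sat2_fOmega, sat2_fRationals, sat2_fOmega1, sat2_fMMax, sat2_fBAx]

end Sat2

section bv2

variable {B : Type u} [CompleteBooleanAlgebra B]

theorem bv_fOrdl {n : ℕ} (x : Fin n) (v : Fin n → BSet B) :
    bv (fOrdl x) v = Kb.Ordl (v x) := by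
  simp only [fOrdl, Kb.Ordl, bv_all, bv_ex, bv_imp, bv_and, bv_or, bv_neg, bv_iffB, bv_mem, bv_eq, Fin.cons_zero, Fin.cons_succ, bv_fSub]

theorem bv_fOmega1 {n : ℕ} (w o : Fin n) (v : Fin n → BSet B) :
    bv (fOmega1 w o) v = Kb.Omega1 (v w) (v o) := by
  simp only [fOmega1, Kb.Omega1, bv_all, bv_ex, bv_imp, bv_and, bv_or, bv_neg, bv_iffB, bv_mem, bv_eq, Fin.cons_zero, Fin.cons_succ, bv_fUncountable, bv_fOrdl]

theorem bv_fPreord {n : ℕ} (Q R : Fin n) (v : Fin n → BSet B) :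
    bv (fPreord Q R) v = Kb.Preord (v Q) (v R) := by
  simp only [fPreord, Kb.Preord, bv_all, bv_ex, bv_imp, bv_and, bv_or, bv_neg, bv_iffB, bv_mem, bv_eq, Fin.cons_zero, Fin.cons_succ, bv_fApp]

theorem bv_fSize1 {n : ℕ} (o Q : Fin n) (v : Fin n → BSet B) :
    bv (fSize1 o Q) v = Kb.Size1 (v o) (v Q) := by
  simp only [fSize1, Kb.Size1, bv_all, bv_ex, bv_imp, bv_and, bv_or, bv_neg, bv_iffB, bv_mem, bv_eq, Fin.cons_zero, Fin.cons_succ, bv_fApp, bv_fFunTo]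

theorem bv_fClub {n : ℕ} (o C : Fin n) (v : Fin n → BSet B) :
    bv (fClub o C) v = Kb.Club (v o) (v C) := by
  simp only [fClub, Kb.Club, bv_all, bv_ex, bv_imp, bv_and, bv_or, bv_neg, bv_iffB, bv_mem, bv_eq, Fin.cons_zero, Fin.cons_succ, bv_fSub, bv_fEmp]

theorem bv_fStat {n : ℕ} (o S : Fin n) (v : Fin n → BSet B) :
    bv (fStat o S) v = Kb.Stat (v o) (v S) := by
  simp only [fStat, Kb.Stat, bv_all, bv_ex, bv_imp, bv_and, bv_or, bv_neg, bv_iffB, bv_mem, bv_eq, Fin.cons_zero, Fin.cons_succ, bv_fSub, bv_fClub]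

theorem bv_fForces {n : ℕ} (Q R C p d : Fin n) (v : Fin n → BSet B) :
    bv (fForces Q R C p d) v = Kb.Forces (v Q) (v R) (v C) (v p) (v d) := by
  simp only [fForces, Kb.Forces, bv_all, bv_ex, bv_imp, bv_and, bv_or, bv_neg, bv_iffB, bv_mem, bv_eq, Fin.cons_zero, Fin.cons_succ, bv_fApp]

theorem bv_fForcesClub {n : ℕ} (o Q R C p : Fin n) (v : Fin n → BSet B) :
    bv (fForcesClub o Q R C p) v = Kb.ForcesClub (v o) (v Q) (v R) (v C) (v p) := by
  simp only [fForcesClub, Kb.ForcesClub, bv_all, bv_ex, bv_imp, bv_and, bv_or, bv_neg, bv_iffB, bv_mem, bv_eq, Fin.cons_zero, Fin.cons_succ, bv_fApp, bv_fEmp, bv_fForces]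

theorem bv_fPresStat {n : ℕ} (o Q R : Fin n) (v : Fin n → BSet B) :
    bv (fPresStat o Q R) v = Kb.PresStat (v o) (v Q) (v R) := by
  simp only [fPresStat, Kb.PresStat, bv_all, bv_ex, bv_imp, bv_and, bv_or, bv_neg, bv_iffB, bv_mem, bv_eq, Fin.cons_zero, Fin.cons_succ, bv_fApp, bv_fStat, bv_fForces, bv_fForcesClub]

theorem bv_fDenseIn {n : ℕ} (Q R D : Fin n) (v : Fin n → BSet B) :
    bv (fDenseIn Q R D) v = Kb.DenseIn (v Q) (v R) (v D) := by
  simp only [fDenseIn, Kb.DenseIn, bv_all, bv_ex, bv_imp, bv_and, bv_or, bv_neg, bv_iffB, bv_mem, bv_eq, Fin.cons_zero, Fin.cons_succ, bv_fSub, bv_fApp]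

theorem bv_fFilt {n : ℕ} (Q R G : Fin n) (v : Fin n → BSet B) :
    bv (fFilt Q R G) v = Kb.Filt (v Q) (v R) (v G) := by
  simp only [fFilt, Kb.Filt, bv_all, bv_ex, bv_imp, bv_and, bv_or, bv_neg, bv_iffB, bv_mem, bv_eq, Fin.cons_zero, Fin.cons_succ, bv_fSub, bv_fApp]

theorem bv_fMMax {n : ℕ} (o : Fin n) (v : Fin n → BSet B) :
    bv (fMMax o) v = Kb.MMax (v o) := by
  simp only [fMMax, Kb.MMax, bv_all, bv_ex, bv_imp, bv_and, bv_or, bv_neg, bv_iffB, bv_mem, bv_eq, Fin.cons_zero, Fin.cons_succ, bv_fApp, bv_fFunOn, bv_fPreord, bv_fSize1, bv_fPresStat, bv_fDenseIn, bv_fFilt]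

theorem bv_fLtR {n : ℕ} (x y : Fin n) (v : Fin n → BSet B) :
    bv (fLtR x y) v = Kb.LtR (v x) (v y) := by
  simp only [fLtR, Kb.LtR, bv_all, bv_ex, bv_imp, bv_and, bv_or, bv_neg, bv_iffB, bv_mem, bv_eq, Fin.cons_zero, Fin.cons_succ, bv_fSub]

theorem bv_fCard1 {n : ℕ} (w o X : Fin n) (v : Fin n → BSet B) :
    bv (fCard1 w o X) v = Kb.Card1 (v w) (v o) (v X) := by
  simp only [fCard1, Kb.Card1, bv_all, bv_ex, bv_imp, bv_and, bv_or, bv_neg, bv_iffB, bv_mem, bv_eq, Fin.cons_zero, Fin.cons_succ, bv_fApp, bv_fFunOn, bv_fUncountable]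

theorem bv_fDense1 {n : ℕ} (w Q lt o A : Fin n) (v : Fin n → BSet B) :
    bv (fDense1 w Q lt o A) v = Kb.Dense1 (v w) (v Q) (v lt) (v o) (v A) := by
  simp only [fDense1, Kb.Dense1, bv_all, bv_ex, bv_imp, bv_and, bv_or, bv_neg, bv_iffB, bv_mem, bv_eq, Fin.cons_zero, Fin.cons_succ, bv_fReal, bv_fSetOfReals, bv_fLtR, bv_fCard1]

theorem bv_fOrdIso {n : ℕ} (X Y f : Fin n) (v : Fin n → BSet B) :
    bv (fOrdIso X Y f) v = Kb.OrdIso (v X) (v Y) (v f) := by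
  simp only [fOrdIso, Kb.OrdIso, bv_all, bv_ex, bv_imp, bv_and, bv_or, bv_neg, bv_iffB, bv_mem, bv_eq, Fin.cons_zero, Fin.cons_succ, bv_fApp, bv_fFunTo, bv_fLtR]

theorem bv_fBAx {n : ℕ} (w Q lt o : Fin n) (v : Fin n → BSet B) :
    bv (fBAx w Q lt o) v = Kb.BAx (v w) (v Q) (v lt) (v o) := by
  simp only [fBAx, Kb.BAx, bv_all, bv_ex, bv_imp, bv_and, bv_or, bv_neg, bv_iffB, bv_mem, bv_eq, Fin.cons_zero, Fin.cons_succ, bv_fDense1, bv_fOrdIso]

theorem bv_fMMnotBA :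
    bv fMMnotBA (![] : Fin 0 → BSet B) = Kb.MMnotBA B := by
  simp only [fMMnotBA, Kb.MMnotBA, bv_all, bv_ex, bv_imp, bv_and, bv_or, bv_neg, bv_iffB, bv_mem, bv_eq, Fin.cons_zero, Fin.cons_succ, bv_fOmega, bv_fRationals, bv_fOmega1, bv_fMMax, bv_fBAx]

end bv2

end Fml

/-! ### The Boolean readings respect equality -/

namespace Kb

open BSet

variable {B : Type u} [CompleteBooleanAlgebra B]

theorem ext_Ordl_x :
    Ext (fun x : BSet B => Ordl x) := by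
  have h := Fml.ext_bv (B := B) (Fml.fOrdl (0 : Fin 1)) ![]
  simp only [Fml.bv_fOrdl] at h
  exact h

theorem ext_Omega1_w (o : BSet B) :
    Ext (fun w : BSet B => Omega1 w o) := by
  have h := Fml.ext_bv (B := B) (Fml.fOmega1 (0 : Fin 2) (1 : Fin 2)) ![o]
  simp only [Fml.bv_fOmega1] at h
  exact h

theorem ext_Omega1_o (w : BSet B) :
    Ext (fun o : BSet B => Omega1 w o) := by
  have h := Fml.ext_bv (B := B) (Fml.fOmega1 (1 : Fin 2) (0 : Fin 2)) ![w]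
  simp only [Fml.bv_fOmega1] at h
  exact h

theorem ext_Preord_Q (R : BSet B) :
    Ext (fun Q : BSet B => Preord Q R) := by
  have h := Fml.ext_bv (B := B) (Fml.fPreord (0 : Fin 2) (1 : Fin 2)) ![R]
  simp only [Fml.bv_fPreord] at h
  exact h

theorem ext_Preord_R (Q : BSet B) :
    Ext (fun R : BSet B => Preord Q R) := by
  have h := Fml.ext_bv (B := B) (Fml.fPreord (1 : Fin 2) (0 : Fin 2)) ![Q]
  simp only [Fml.bv_fPreord] at h
  exact h

theorem ext_Size1_o (Q : BSet B) :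
    Ext (fun o : BSet B => Size1 o Q) := by
  have h := Fml.ext_bv (B := B) (Fml.fSize1 (0 : Fin 2) (1 : Fin 2)) ![Q]
  simp only [Fml.bv_fSize1] at h
  exact h

theorem ext_Size1_Q (o : BSet B) :
    Ext (fun Q : BSet B => Size1 o Q) := by
  have h := Fml.ext_bv (B := B) (Fml.fSize1 (1 : Fin 2) (0 : Fin 2)) ![o]
  simp only [Fml.bv_fSize1] at h
  exact h

theorem ext_Club_o (C : BSet B) :
    Ext (fun o : BSet B => Club o C) := by
  have h := Fml.ext_bv (B := B) (Fml.fClub (0 : Fin 2) (1 : Fin 2)) ![C]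
  simp only [Fml.bv_fClub] at h
  exact h

theorem ext_Club_C (o : BSet B) :
    Ext (fun C : BSet B => Club o C) := by
  have h := Fml.ext_bv (B := B) (Fml.fClub (1 : Fin 2) (0 : Fin 2)) ![o]
  simp only [Fml.bv_fClub] at h
  exact h

theorem ext_Stat_o (S : BSet B) :
    Ext (fun o : BSet B => Stat o S) := by
  have h := Fml.ext_bv (B := B) (Fml.fStat (0 : Fin 2) (1 : Fin 2)) ![S]
  simp only [Fml.bv_fStat] at h
  exact h

theorem ext_Stat_S (o : BSet B) :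
    Ext (fun S : BSet B => Stat o S) := by
  have h := Fml.ext_bv (B := B) (Fml.fStat (1 : Fin 2) (0 : Fin 2)) ![o]
  simp only [Fml.bv_fStat] at h
  exact h

theorem ext_Forces_Q (R C p d : BSet B) :
    Ext (fun Q : BSet B => Forces Q R C p d) := by
  have h := Fml.ext_bv (B := B) (Fml.fForces (0 : Fin 5) (1 : Fin 5) (2 : Fin 5) (3 : Fin 5) (4 : Fin 5)) ![R, C, p, d]
  simp only [Fml.bv_fForces] at h
  exact h

theorem ext_Forces_R (Q C p d : BSet B) :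
    Ext (fun R : BSet B => Forces Q R C p d) := by
  have h := Fml.ext_bv (B := B) (Fml.fForces (1 : Fin 5) (0 : Fin 5) (2 : Fin 5) (3 : Fin 5) (4 : Fin 5)) ![Q, C, p, d]
  simp only [Fml.bv_fForces] at h
  exact h

theorem ext_Forces_C (Q R p d : BSet B) :
    Ext (fun C : BSet B => Forces Q R C p d) := by
  have h := Fml.ext_bv (B := B) (Fml.fForces (1 : Fin 5) (2 : Fin 5) (0 : Fin 5) (3 : Fin 5) (4 : Fin 5)) ![Q, R, p, d]
  simp only [Fml.bv_fForces] at h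
  exact h

theorem ext_Forces_p (Q R C d : BSet B) :
    Ext (fun p : BSet B => Forces Q R C p d) := by
  have h := Fml.ext_bv (B := B) (Fml.fForces (1 : Fin 5) (2 : Fin 5) (3 : Fin 5) (0 : Fin 5) (4 : Fin 5)) ![Q, R, C, d]
  simp only [Fml.bv_fForces] at h
  exact h

theorem ext_Forces_d (Q R C p : BSet B) :
    Ext (fun d : BSet B => Forces Q R C p d) := by
  have h := Fml.ext_bv (B := B) (Fml.fForces (1 : Fin 5) (2 : Fin 5) (3 : Fin 5) (4 : Fin 5) (0 : Fin 5)) ![Q, R, C, p]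
  simp only [Fml.bv_fForces] at h
  exact h

theorem ext_ForcesClub_o (Q R C p : BSet B) :
    Ext (fun o : BSet B => ForcesClub o Q R C p) := by
  have h := Fml.ext_bv (B := B) (Fml.fForcesClub (0 : Fin 5) (1 : Fin 5) (2 : Fin 5) (3 : Fin 5) (4 : Fin 5)) ![Q, R, C, p]
  simp only [Fml.bv_fForcesClub] at h
  exact h

theorem ext_ForcesClub_Q (o R C p : BSet B) :
    Ext (fun Q : BSet B => ForcesClub o Q R C p) := by
  have h := Fml.ext_bv (B := B) (Fml.fForcesClub (1 : Fin 5) (0 : Fin 5) (2 : Fin 5) (3 : Fin 5) (4 : Fin 5)) ![o, R, C, p]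
  simp only [Fml.bv_fForcesClub] at h
  exact h

theorem ext_ForcesClub_R (o Q C p : BSet B) :
    Ext (fun R : BSet B => ForcesClub o Q R C p) := by
  have h := Fml.ext_bv (B := B) (Fml.fForcesClub (1 : Fin 5) (2 : Fin 5) (0 : Fin 5) (3 : Fin 5) (4 : Fin 5)) ![o, Q, C, p]
  simp only [Fml.bv_fForcesClub] at h
  exact h

theorem ext_ForcesClub_C (o Q R p : BSet B) :
    Ext (fun C : BSet B => ForcesClub o Q R C p) := by
  have h := Fml.ext_bv (B := B) (Fml.fForcesClub (1 : Fin 5) (2 : Fin 5) (3 : Fin 5) (0 : Fin 5) (4 : Fin 5)) ![o, Q, R, p]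
  simp only [Fml.bv_fForcesClub] at h
  exact h

theorem ext_ForcesClub_p (o Q R C : BSet B) :
    Ext (fun p : BSet B => ForcesClub o Q R C p) := by
  have h := Fml.ext_bv (B := B) (Fml.fForcesClub (1 : Fin 5) (2 : Fin 5) (3 : Fin 5) (4 : Fin 5) (0 : Fin 5)) ![o, Q, R, C]
  simp only [Fml.bv_fForcesClub] at h
  exact h

theorem ext_PresStat_o (Q R : BSet B) :
    Ext (fun o : BSet B => PresStat o Q R) := by
  have h := Fml.ext_bv (B := B) (Fml.fPresStat (0 : Fin 3) (1 : Fin 3) (2 : Fin 3)) ![Q, R]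
  simp only [Fml.bv_fPresStat] at h
  exact h

theorem ext_PresStat_Q (o R : BSet B) :
    Ext (fun Q : BSet B => PresStat o Q R) := by
  have h := Fml.ext_bv (B := B) (Fml.fPresStat (1 : Fin 3) (0 : Fin 3) (2 : Fin 3)) ![o, R]
  simp only [Fml.bv_fPresStat] at h
  exact h

theorem ext_PresStat_R (o Q : BSet B) :
    Ext (fun R : BSet B => PresStat o Q R) := by
  have h := Fml.ext_bv (B := B) (Fml.fPresStat (1 : Fin 3) (2 : Fin 3) (0 : Fin 3)) ![o, Q]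
  simp only [Fml.bv_fPresStat] at h
  exact h

theorem ext_DenseIn_Q (R D : BSet B) :
    Ext (fun Q : BSet B => DenseIn Q R D) := by
  have h := Fml.ext_bv (B := B) (Fml.fDenseIn (0 : Fin 3) (1 : Fin 3) (2 : Fin 3)) ![R, D]
  simp only [Fml.bv_fDenseIn] at h
  exact h

theorem ext_DenseIn_R (Q D : BSet B) :
    Ext (fun R : BSet B => DenseIn Q R D) := by
  have h := Fml.ext_bv (B := B) (Fml.fDenseIn (1 : Fin 3) (0 : Fin 3) (2 : Fin 3)) ![Q, D]
  simp only [Fml.bv_fDenseIn] at h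
  exact h

theorem ext_DenseIn_D (Q R : BSet B) :
    Ext (fun D : BSet B => DenseIn Q R D) := by
  have h := Fml.ext_bv (B := B) (Fml.fDenseIn (1 : Fin 3) (2 : Fin 3) (0 : Fin 3)) ![Q, R]
  simp only [Fml.bv_fDenseIn] at h
  exact h

theorem ext_Filt_Q (R G : BSet B) :
    Ext (fun Q : BSet B => Filt Q R G) := by
  have h := Fml.ext_bv (B := B) (Fml.fFilt (0 : Fin 3) (1 : Fin 3) (2 : Fin 3)) ![R, G]
  simp only [Fml.bv_fFilt] at h
  exact h

theorem ext_Filt_R (Q G : BSet B) :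
    Ext (fun R : BSet B => Filt Q R G) := by
  have h := Fml.ext_bv (B := B) (Fml.fFilt (1 : Fin 3) (0 : Fin 3) (2 : Fin 3)) ![Q, G]
  simp only [Fml.bv_fFilt] at h
  exact h

theorem ext_Filt_G (Q R : BSet B) :
    Ext (fun G : BSet B => Filt Q R G) := by
  have h := Fml.ext_bv (B := B) (Fml.fFilt (1 : Fin 3) (2 : Fin 3) (0 : Fin 3)) ![Q, R]
  simp only [Fml.bv_fFilt] at h
  exact h

theorem ext_MMax_o :
    Ext (fun o : BSet B => MMax o) := by
  have h := Fml.ext_bv (B := B) (Fml.fMMax (0 : Fin 1)) ![]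
  simp only [Fml.bv_fMMax] at h
  exact h

theorem ext_LtR_x (y : BSet B) :
    Ext (fun x : BSet B => LtR x y) := by
  have h := Fml.ext_bv (B := B) (Fml.fLtR (0 : Fin 2) (1 : Fin 2)) ![y]
  simp only [Fml.bv_fLtR] at h
  exact h

theorem ext_LtR_y (x : BSet B) :
    Ext (fun y : BSet B => LtR x y) := by
  have h := Fml.ext_bv (B := B) (Fml.fLtR (1 : Fin 2) (0 : Fin 2)) ![x]
  simp only [Fml.bv_fLtR] at h
  exact h

theorem ext_Card1_w (o X : BSet B) :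
    Ext (fun w : BSet B => Card1 w o X) := by
  have h := Fml.ext_bv (B := B) (Fml.fCard1 (0 : Fin 3) (1 : Fin 3) (2 : Fin 3)) ![o, X]
  simp only [Fml.bv_fCard1] at h
  exact h

theorem ext_Card1_o (w X : BSet B) :
    Ext (fun o : BSet B => Card1 w o X) := by
  have h := Fml.ext_bv (B := B) (Fml.fCard1 (1 : Fin 3) (0 : Fin 3) (2 : Fin 3)) ![w, X]
  simp only [Fml.bv_fCard1] at h
  exact h

theorem ext_Card1_X (w o : BSet B) :
    Ext (fun X : BSet B => Card1 w o X) := by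
  have h := Fml.ext_bv (B := B) (Fml.fCard1 (1 : Fin 3) (2 : Fin 3) (0 : Fin 3)) ![w, o]
  simp only [Fml.bv_fCard1] at h
  exact h

theorem ext_Dense1_w (Q lt o A : BSet B) :
    Ext (fun w : BSet B => Dense1 w Q lt o A) := by
  have h := Fml.ext_bv (B := B) (Fml.fDense1 (0 : Fin 5) (1 : Fin 5) (2 : Fin 5) (3 : Fin 5) (4 : Fin 5)) ![Q, lt, o, A]
  simp only [Fml.bv_fDense1] at h
  exact h

theorem ext_Dense1_Q (w lt o A : BSet B) :
    Ext (fun Q : BSet B => Dense1 w Q lt o A) := by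
  have h := Fml.ext_bv (B := B) (Fml.fDense1 (1 : Fin 5) (0 : Fin 5) (2 : Fin 5) (3 : Fin 5) (4 : Fin 5)) ![w, lt, o, A]
  simp only [Fml.bv_fDense1] at h
  exact h

theorem ext_Dense1_lt (w Q o A : BSet B) :
    Ext (fun lt : BSet B => Dense1 w Q lt o A) := by
  have h := Fml.ext_bv (B := B) (Fml.fDense1 (1 : Fin 5) (2 : Fin 5) (0 : Fin 5) (3 : Fin 5) (4 : Fin 5)) ![w, Q, o, A]
  simp only [Fml.bv_fDense1] at h
  exact h

theorem ext_Dense1_o (w Q lt A : BSet B) :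
    Ext (fun o : BSet B => Dense1 w Q lt o A) := by
  have h := Fml.ext_bv (B := B) (Fml.fDense1 (1 : Fin 5) (2 : Fin 5) (3 : Fin 5) (0 : Fin 5) (4 : Fin 5)) ![w, Q, lt, A]
  simp only [Fml.bv_fDense1] at h
  exact h

theorem ext_Dense1_A (w Q lt o : BSet B) :
    Ext (fun A : BSet B => Dense1 w Q lt o A) := by
  have h := Fml.ext_bv (B := B) (Fml.fDense1 (1 : Fin 5) (2 : Fin 5) (3 : Fin 5) (4 : Fin 5) (0 : Fin 5)) ![w, Q, lt, o]
  simp only [Fml.bv_fDense1] at h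
  exact h

theorem ext_OrdIso_X (Y f : BSet B) :
    Ext (fun X : BSet B => OrdIso X Y f) := by
  have h := Fml.ext_bv (B := B) (Fml.fOrdIso (0 : Fin 3) (1 : Fin 3) (2 : Fin 3)) ![Y, f]
  simp only [Fml.bv_fOrdIso] at h
  exact h

theorem ext_OrdIso_Y (X f : BSet B) :
    Ext (fun Y : BSet B => OrdIso X Y f) := by
  have h := Fml.ext_bv (B := B) (Fml.fOrdIso (1 : Fin 3) (0 : Fin 3) (2 : Fin 3)) ![X, f]
  simp only [Fml.bv_fOrdIso] at h
  exact h

theorem ext_OrdIso_f (X Y : BSet B) :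
    Ext (fun f : BSet B => OrdIso X Y f) := by
  have h := Fml.ext_bv (B := B) (Fml.fOrdIso (1 : Fin 3) (2 : Fin 3) (0 : Fin 3)) ![X, Y]
  simp only [Fml.bv_fOrdIso] at h
  exact h

theorem ext_BAx_w (Q lt o : BSet B) :
    Ext (fun w : BSet B => BAx w Q lt o) := by
  have h := Fml.ext_bv (B := B) (Fml.fBAx (0 : Fin 4) (1 : Fin 4) (2 : Fin 4) (3 : Fin 4)) ![Q, lt, o]
  simp only [Fml.bv_fBAx] at h
  exact h

theorem ext_BAx_Q (w lt o : BSet B) :
    Ext (fun Q : BSet B => BAx w Q lt o) := by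
  have h := Fml.ext_bv (B := B) (Fml.fBAx (1 : Fin 4) (0 : Fin 4) (2 : Fin 4) (3 : Fin 4)) ![w, lt, o]
  simp only [Fml.bv_fBAx] at h
  exact h

theorem ext_BAx_lt (w Q o : BSet B) :
    Ext (fun lt : BSet B => BAx w Q lt o) := by
  have h := Fml.ext_bv (B := B) (Fml.fBAx (1 : Fin 4) (2 : Fin 4) (0 : Fin 4) (3 : Fin 4)) ![w, Q, o]
  simp only [Fml.bv_fBAx] at h
  exact h

theorem ext_BAx_o (w Q lt : BSet B) :
    Ext (fun o : BSet B => BAx w Q lt o) := by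
  have h := Fml.ext_bv (B := B) (Fml.fBAx (1 : Fin 4) (2 : Fin 4) (3 : Fin 4) (0 : Fin 4)) ![w, Q, lt]
  simp only [Fml.bv_fBAx] at h
  exact h

end Kb

end Pool.Agent.Lib.MP_4d8715_gt.KR
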