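import Pool.Agent.Lib.MP_8f49b0_lc.MM.E.RealC

/-!
# The sets of reals are `ℵ₁`-dense (module E-DENSEB)

`fo_interval`: real numbers `a < b` (names): there is a rational `q0 ∈ b`, `q0 ∉ a` and a rational `q1 > q0` in `b` (after extending the condition); `cut_interval` gives `ξ > γ` with `q0 ∈ rA ξ`, `q1 ∉ rA ξ`, so `a < rA ξ < b`.
`fo_Dense1`: uncountable: let `Fo c' (FunOn g omega)`, `Y n` the values (`exists_seq`), `exists_bdd_name` for `e n ξ = {d | Fo d (beq (Y n) (rA f ξ))}` (`fo_beq_rA`) gives `γ`; `rA f ξ` for the `ξ` of `fo_interval` is in `X` and different from all `Y n`.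
The function on `ordB w1`: `relB` of `ordB ξ`, `rA f ξ`.
-/

namespace Pool.Agent.Lib.MP_8f49b0_lc.MM

open Pool.Agent.Lib.MP_4d8715_gt.KR

namespace Code

variable {K : Code}

private theorem denseB_sub {c : Pre} {x y : BSet (RO (PT K))} :
    Fo c (Kb.Sub x y) ↔ K.Ok c ∧ ∀ z c', K.ex c' c → Fo c' (BSet.bmem z x) → Fo c' (BSet.bmem z y) := by
  unfold Kb.Sub
  rw [fo_iInf]
  constructor
  · intro h
    have hc : K.Ok c := (h x).1
    exact ⟨hc, fun z => (fo_himp.1 (h z)).2⟩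
  · rintro ⟨hc, h⟩ z
    exact fo_himp.2 ⟨hc, h z⟩

private theorem denseB_ext {c : Pre} {x y : BSet (RO (PT K))} (h : Fo c (Kb.Sub x y))
    (h' : Fo c (Kb.Sub y x)) : Fo c (BSet.beq x y) := by
  rw [BSet.beq_ext, fo_iInf]
  intro z
  refine fo_inf.2 ⟨fo_himp.2 ⟨h.ok, fun c' hc' h1 => (denseB_sub.1 h).2 z c' hc' h1⟩,
    fo_himp.2 ⟨h.ok, fun c' hc' h1 => (denseB_sub.1 h').2 z c' hc' h1⟩⟩

/-- `z ∈ a` can be decided negatively if it is not forced -/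
private theorem denseB_neg {c : Pre} {x : RO (PT K)} (hc : K.Ok c) (h : ¬ Fo c x) :
    ∃ c', K.ex c' c ∧ Fo c' xᶜ := by
  by_contra hcon
  push Not at hcon
  refine h (fo_reg hc fun c' hc' => ?_)
  obtain ⟨c'', hc'', h1 | h1⟩ := fo_decide x hc'.1
  · exact ⟨c'', hc'', h1⟩
  · exact absurd h1 (hcon c'' (ex_trans hc hc'' hc'))

/-- an element of a set of rational numbers -/
private theorem denseB_rat {c : Pre} {x z : BSet (RO (PT K))}
    (hx : Fo c (Kb.Sub x (BSet.ratSet (RO (PT K))))) (hz : Fo c (BSet.bmem z x)) :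
    ∃ c', K.ex c' c ∧ ∃ q : ℚ, Fo c' (BSet.beq z (BSet.rat q)) :=
  (enu_ratSet hx.ok).cov c (ex_refl hx.ok) z ((denseB_sub.1 hx).2 z c (ex_refl hx.ok) hz)

/-- a set of rational numbers is contained in another set -/
private theorem denseB_sub_of {c : Pre} {x y : BSet (RO (PT K))}
    (hx : Fo c (Kb.Sub x (BSet.ratSet (RO (PT K)))))
    (h : ∀ q : ℚ, ∀ c', K.ex c' c → Fo c' (BSet.bmem (BSet.rat q) x) → Fo c' (BSet.bmem (BSet.rat q) y)) :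
    Fo c (Kb.Sub x y) := by
  refine denseB_sub.2 ⟨hx.ok, fun z c' hc' hz => fo_reg hc'.1 fun c'' hc'' => ?_⟩
  have hc''c : K.ex c'' c := ex_trans hx.ok hc'' hc'
  obtain ⟨d, hd, q, hq⟩ := denseB_rat (hx.mono hc''c) (hz.mono hc'')
  refine ⟨d, hd, ?_⟩
  have h1 : Fo d (BSet.bmem (BSet.rat q) x) :=
    fo_ext (BSet.ext_bmem_left x) hq ((hz.mono hc'').mono hd)
  have h2 := h q d (ex_trans hx.ok hd hc''c) h1
  exact fo_ext (BSet.ext_bmem_left y) (fo_beq_symm hq) h2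

theorem fo_interval {c : Pre} (f : Bool) {a b : BSet (RO (PT K))}
    (ha : Fo c (Kb.Real (BSet.ratSet (RO (PT K))) (BSet.ltB (RO (PT K))) a))
    (hb : Fo c (Kb.Real (BSet.ratSet (RO (PT K))) (BSet.ltB (RO (PT K))) b)) (hab : Fo c (Kb.LtR a b)) {γ : O} (hγ : γ < w1) :
    ∃ ξ, γ < ξ ∧ ξ < w1 ∧ ∃ c', K.ex c' c ∧ Fo c' (Kb.LtR a (K.rA f ξ)) ∧ Fo c' (Kb.LtR (K.rA f ξ) b) := by
  have hc : K.Ok c := ha.ok
  unfold Kb.Real at ha hb
  obtain ⟨haQ, ha1⟩ := fo_inf.1 ha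
  obtain ⟨-, ha1⟩ := fo_inf.1 ha1
  obtain ⟨-, ha1⟩ := fo_inf.1 ha1
  obtain ⟨hadown, -⟩ := fo_inf.1 ha1
  obtain ⟨hbQ, hb1⟩ := fo_inf.1 hb
  obtain ⟨-, hb1⟩ := fo_inf.1 hb1
  obtain ⟨-, hb1⟩ := fo_inf.1 hb1
  obtain ⟨hbdown, hbopen⟩ := fo_inf.1 hb1
  -- closure downwards, for rational numbers
  have hdn : ∀ x : BSet (RO (PT K)), Fo c (⨅ q, ⨅ r, BSet.bmem q x ⇨ BSet.bmem r (BSet.ratSet (RO (PT K))) ⇨
      Kb.App (BSet.ltB (RO (PT K))) r q ⇨ BSet.bmem r x) → ∀ d, K.ex d c → ∀ q r : ℚ, r < q →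
      Fo d (BSet.bmem (BSet.rat q) x) → Fo d (BSet.bmem (BSet.rat r) x) := by
    intro x hx d hd q r hrq hq
    have h1 := (fo_himp.1 (fo_iInf.1 (fo_iInf.1 hx (BSet.rat q)) (BSet.rat r))).2 d hd hq
    have h2 := (fo_himp.1 h1).2 d (ex_refl hd.1) ((enu_ratSet hd.1).mem r)
    exact (fo_himp.1 h2).2 d (ex_refl hd.1) (fo_App_ltB.2 ⟨hd.1, hrq⟩)
  -- an element of `b` which is not in `a`
  obtain ⟨hab1, hab2⟩ := fo_inf.1 hab
  have hnot : ¬ Fo c (Kb.Sub b a) := fun h =>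
    (fo_compl.1 hab2).2 c (ex_refl hc) (denseB_ext hab1 h)
  have hz : ∃ z c', K.ex c' c ∧ Fo c' (BSet.bmem z b) ∧ ¬ Fo c' (BSet.bmem z a) := by
    by_contra hcon
    push Not at hcon
    exact hnot (denseB_sub.2 ⟨hc, fun z c' hc' h => hcon z c' hc' h⟩)
  obtain ⟨z, c1, hc1, hz1, hz2⟩ := hz
  obtain ⟨c2, hc2, hz3⟩ := denseB_neg hc1.1 hz2
  have hc2c : K.ex c2 c := ex_trans hc hc2 hc1
  obtain ⟨c3, hc3, q0, hq0⟩ := denseB_rat (hbQ.mono hc2c) (hz1.mono hc2)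
  have hc3c : K.ex c3 c := ex_trans hc hc3 hc2c
  have hq0b : Fo c3 (BSet.bmem (BSet.rat q0) b) :=
    fo_ext (BSet.ext_bmem_left b) hq0 ((hz1.mono hc2).mono hc3)
  have hq0a : Fo c3 (BSet.bmem (BSet.rat q0) a)ᶜ :=
    fo_ext (BSet.ext_bmem_left a).compl hq0 (hz3.mono hc3)
  -- a bigger element of `b`
  have h1 := (fo_himp.1 (fo_iInf.1 hbopen (BSet.rat q0))).2 c3 hc3c hq0b
  obtain ⟨c4, hc4, r, hr⟩ := (fo_iSup.1 h1).2 c3 (ex_refl hc3.1)
  obtain ⟨hr1, hr2⟩ := fo_inf.1 hr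
  have hc4c : K.ex c4 c := ex_trans hc hc4 hc3c
  obtain ⟨c5, hc5, q1, hq1⟩ := denseB_rat (hbQ.mono hc4c) hr1
  have hc5c : K.ex c5 c := ex_trans hc hc5 hc4c
  have hc53 : K.ex c5 c3 := ex_trans hc3.1 hc5 hc4
  have hq1b : Fo c5 (BSet.bmem (BSet.rat q1) b) :=
    fo_ext (BSet.ext_bmem_left b) hq1 (hr1.mono hc5)
  have hlt : q0 < q1 := (fo_App_ltB.1 (fo_ext (Kb.ext_App_b _ _) hq1 (hr2.mono hc5))).2
  obtain ⟨ξ, hγξ, hξ, c6, hc6, hcut0, hcut1⟩ := cut_interval hc5.1 f hγ hlt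
  have hc6c : K.ex c6 c := ex_trans hc hc6 hc5c
  have hc63 : K.ex c6 c3 := ex_trans hc3.1 hc6 hc53
  have hReal := fo_Real hc6.1 f hξ
  unfold Kb.Real at hReal
  obtain ⟨hrQ, -⟩ := fo_inf.1 hReal
  refine ⟨ξ, hγξ, hξ, c6, hc6c, ?_, ?_⟩
  · refine fo_inf.2 ⟨denseB_sub_of (haQ.mono hc6c) fun q d hd hqa => ?_, ?_⟩
    · have hdc : K.ex d c := ex_trans hc hd hc6c
      have hd3 : K.ex d c3 := ex_trans hc3.1 hd hc63
      have hqq : q < q0 := by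
        by_contra hge
        push Not at hge
        have h2 : Fo d (BSet.bmem (BSet.rat q0) a) := by
          rcases hge.eq_or_lt with h3 | h3
          · rw [h3]; exact hqa
          · exact hdn a hadown d hdc q q0 h3 hqa
        exact (fo_compl.1 (hq0a.mono hd3)).2 d (ex_refl hd.1) h2
      exact fo_mem_rA.2 (cut_down hqq.le ((reg_CutA f ξ q0).le hcut0 hd))
    · refine fo_compl.2 ⟨hc6.1, fun d hd h2 => ?_⟩
      have hd3 : K.ex d c3 := ex_trans hc3.1 hd hc63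
      have h3 : Fo d (BSet.bmem (BSet.rat q0) (K.rA f ξ)) :=
        fo_mem_rA.2 ((reg_CutA f ξ q0).le hcut0 hd)
      have h4 : Fo d (BSet.bmem (BSet.rat q0) a) :=
        fo_ext (BSet.ext_bmem_right (BSet.rat q0)) (fo_beq_symm h2) h3
      exact (fo_compl.1 (hq0a.mono hd3)).2 d (ex_refl hd.1) h4
  · refine fo_inf.2 ⟨denseB_sub_of hrQ fun q d hd hqr => ?_, ?_⟩
    · have hdc : K.ex d c := ex_trans hc hd hc6c
      have h2 := fo_mem_rA.1 hqr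
      have hqq : q < q1 := by
        by_contra hge
        push Not at hge
        exact hcut1 d hd (cut_down hge h2)
      exact hdn b hbdown d hdc q1 q hqq (hq1b.mono (ex_trans hc5.1 hd hc6))
    · refine fo_compl.2 ⟨hc6.1, fun d hd h2 => ?_⟩
      have h3 : Fo d (BSet.bmem (BSet.rat q1) b) := hq1b.mono (ex_trans hc5.1 hd hc6)
      have h4 : Fo d (BSet.bmem (BSet.rat q1) (K.rA f ξ)) :=
        fo_ext (BSet.ext_bmem_right (BSet.rat q1)) (fo_beq_symm h2) h3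
      exact hcut1 d hd (fo_mem_rA.1 h4)

end Code

end Pool.Agent.Lib.MP_8f49b0_lc.MM
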