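import Pool.Agent.Lib.MP_8f49b0_lc.MM.E.DenseB

/-!
# The sets of reals are `ℵ₁`-dense, 2 (module E-DENSEC)

`fo_Dense1`: uncountable: let `Fo c' (FunOn g omega)`, `Y n` the values (`exists_seq`), `exists_bdd_name` for `e n ξ = {d | Fo d (beq (Y n) (rA f ξ))}` (`fo_beq_rA`) gives `γ`; `rA f ξ` for the `ξ` of `fo_interval` is in `X` and different
from all `Y n`. The function on `ordB w1`: `relB` of `ordB ξ`, `rA f ξ` (`fo_FunOn_relB`).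
-/

namespace Pool.Agent.Lib.MP_8f49b0_lc.MM

open Pool.Agent.Lib.MP_4d8715_gt.KR

namespace Code

variable {K : Code}

/-- the conditions forcing `Y = rA f ξ` (none if `ξ` is not countable) -/
private theorem densec_reg (Y : BSet (RO (PT K))) (f : Bool) (ξ : O) :
    K.Reg {d | ξ < w1 ∧ Fo d (BSet.beq Y (K.rA f ξ))} := by
  by_cases h : ξ < w1
  · have := reg_fo (K := K) (BSet.beq Y (K.rA f ξ))
    simpa [h] using this
  · have := reg_fo (K := K) (⊥ : RO (PT K))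
    have e : {d : Pre | ξ < w1 ∧ Fo d (BSet.beq Y (K.rA f ξ))} = {d | Fo d (⊥ : RO (PT K))} := by
      ext d
      simp [h, fo_bot]
    rw [e]
    exact this

/-- the interval has a member of `A` different from the values of a sequence -/
private theorem densec_unc {c : Pre} (hc : K.Ok c) (f : Bool) {a b X : BSet (RO (PT K))}
    (ha : Fo c (Kb.Real (BSet.ratSet (RO (PT K))) (BSet.ltB (RO (PT K))) a))
    (hb : Fo c (Kb.Real (BSet.ratSet (RO (PT K))) (BSet.ltB (RO (PT K))) b)) (hab : Fo c (Kb.LtR a b))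
    (hX : Fo c (⨅ x, iffB (BSet.bmem x X) (BSet.bmem x (K.setA f) ⊓ (Kb.LtR a x ⊓ Kb.LtR x b)))) :
    Fo c (Kb.Uncountable BSet.omega X) := by
  unfold Kb.Uncountable
  rw [fo_iInf]
  intro g
  rw [fo_himp]
  refine ⟨hc, fun c5 hc5 hg => ?_⟩
  rw [fo_iSup]
  refine ⟨hc5.1, fun c6 hc6 => ?_⟩
  have h6c : K.ex c6 c := ex_trans hc hc6 hc5
  have hg6 : Fo c6 (Kb.FunOn g BSet.omega) := hg.mono hc6
  obtain ⟨Y, hY⟩ := exists_seq hg6 (fun n : ℕ => (BSet.nat n : BSet (RO (PT K)))) (fun n => (enu_omega hc6.1).mem n)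
  obtain ⟨c7, hc7, γ, hγ, hγb⟩ := exists_bdd_name hc6.1
    (fun n ξ => {d | ξ < w1 ∧ Fo d (BSet.beq (Y n) (K.rA f ξ))}) (fun n ξ => densec_reg (Y n) f ξ)
    (by
      intro n ξ ξ' d hd h1 h2
      exact ((fo_beq_rA h1.1 h2.1).1 (fo_beq_trans (fo_beq_symm h1.2) h2.2)).2)
  have h7c : K.ex c7 c := ex_trans hc hc7 h6c
  obtain ⟨ξ, hγξ, hξ, c8, hc8, h1, h2⟩ := fo_interval (c := c7) f (ha.mono h7c) (hb.mono h7c) (hab.mono h7c) hγ
  have h8c : K.ex c8 c := ex_trans hc hc8 h7c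
  refine ⟨c8, ex_trans hc6.1 hc8 hc7, K.rA f ξ, ?_⟩
  rw [fo_inf]
  constructor
  · have h3 := (fo_iInf.1 hX) (K.rA f ξ)
    rw [fo_iffB] at h3
    rw [h3.2 c8 h8c, fo_inf, fo_inf]
    exact ⟨(enu_setA hc8.1 f).mem ⟨ξ, hξ⟩, h1, h2⟩
  · have hext : BSet.Ext (fun n : BSet (RO (PT K)) => (Kb.App g n (K.rA f ξ))ᶜ) := (Kb.ext_App_a g (K.rA f ξ)).compl
    rw [fo_all_mem (enu_omega hc8.1) hext (ex_refl hc8.1) hc8.1]
    intro n
    rw [fo_compl]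
    refine ⟨hc8.1, fun c9 hc9 hA => ?_⟩
    have h96 : K.ex c9 c6 := ex_trans hc6.1 hc9 (ex_trans hc6.1 hc8 hc7)
    have h97 : K.ex c9 c7 := ex_trans hc7.1 hc9 hc8
    have h4 := (hY n (K.rA f ξ) c9 h96).1 hA
    have h5 := hγb n ξ hξ c9 h97 ⟨hξ, fo_beq_symm h4⟩
    exact absurd h5 (not_lt.2 hγξ.le)

/-- the set of the real numbers of the interval is the image of `ω₁` -/
private theorem densec_fun {c : Pre} (hc : K.Ok c) (f : Bool) {a b X : BSet (RO (PT K))}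
    (hX : Fo c (⨅ x, iffB (BSet.bmem x X) (BSet.bmem x (K.setA f) ⊓ (Kb.LtR a x ⊓ Kb.LtR x b)))) :
    Fo c (⨆ e, Kb.FunOn e (K.ordB w1) ⊓ (⨅ x, BSet.bmem x X ⇨ (⨆ y, BSet.bmem y (K.ordB w1) ⊓ Kb.App e y x))) := by
  rw [fo_iSup]
  refine ⟨hc, fun c1 hc1 => ⟨c1, ex_refl hc1.1,
    K.relB (fun ξ : {ξ : O // ξ < w1} => K.ordB ξ.1) (fun ξ => K.rA f ξ.1) (fun _ => ⊤), ?_⟩⟩
  rw [fo_inf]
  constructor
  · refine fo_FunOn_relB hc1.1 (enu_ordB hc1.1 w1) ?_ _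
    intro i j c' hc' h
    exact Subtype.ext (fo_beq_ordB.1 h).2
  · rw [fo_iInf]
    intro x
    rw [fo_himp]
    refine ⟨hc1.1, fun c2 hc2 hx => ?_⟩
    rw [fo_iSup]
    refine ⟨hc2.1, fun c3 hc3 => ?_⟩
    have h3c : K.ex c3 c := ex_trans hc hc3 (ex_trans hc hc2 hc1)
    have h3 := (fo_iInf.1 hX) x
    rw [fo_iffB] at h3
    have h4 := (h3.2 c3 h3c).1 (hx.mono hc3)
    rw [fo_inf] at h4
    obtain ⟨c4, hc4, ξ, hξ⟩ := (enu_setA hc3.1 f).cov c3 (ex_refl hc3.1) x h4.1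
    refine ⟨c4, hc4, K.ordB ξ.1, ?_⟩
    rw [fo_inf]
    refine ⟨fo_mem_ordB.2 ⟨hc4.1, ξ.2⟩, ?_⟩
    rw [fo_App_relB]
    refine ⟨hc4.1, fun c5 hc5 => ⟨c5, ex_refl hc5.1, ξ, fo_top.2 hc5.1, fo_beq_refl hc5.1 _, hξ.mono hc5⟩⟩

theorem fo_Dense1 {c : Pre} (hc : K.Ok c) (f : Bool) :
    Fo c (Kb.Dense1 BSet.omega (BSet.ratSet (RO (PT K))) (BSet.ltB (RO (PT K))) (K.ordB w1) (K.setA f)) := by
  unfold Kb.Dense1
  rw [fo_inf]
  constructor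
  · unfold Kb.SetOfReals
    have hext : BSet.Ext (fun x : BSet (RO (PT K)) => Kb.Real (BSet.ratSet (RO (PT K))) (BSet.ltB (RO (PT K))) x) :=
      Kb.ext_Real_x _ _
    rw [fo_all_mem (enu_setA hc f) hext (ex_refl hc) hc]
    intro ξ
    exact fo_Real hc f ξ.2
  · rw [fo_iInf]
    intro a
    rw [fo_iInf]
    intro b
    rw [fo_himp]
    refine ⟨hc, fun c1 hc1 ha => ?_⟩
    rw [fo_himp]
    refine ⟨hc1.1, fun c2 hc2 hb => ?_⟩
    rw [fo_himp]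
    refine ⟨hc2.1, fun c3 hc3 hab => ?_⟩
    rw [fo_iInf]
    intro X
    rw [fo_himp]
    refine ⟨hc3.1, fun c4 hc4 hX => ?_⟩
    unfold Kb.Card1
    rw [fo_inf]
    have h42 : K.ex c4 c2 := ex_trans hc2.1 hc4 hc3
    have h41 : K.ex c4 c1 := ex_trans hc1.1 h42 hc2
    exact ⟨densec_unc hc4.1 f (ha.mono h41) (hb.mono h42) (hab.mono hc4) hX, densec_fun hc4.1 f hX⟩

end Code

end Pool.Agent.Lib.MP_8f49b0_lc.MM
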