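import Pool.Agent.Lib.MP_8f49b0_lc.MM.E.Force

/-!
# Forced equality and enumerations (module E-ENUM)

`fo_ext`: `BSet.Ext`; `exists_fo`: the maximum principle `BSet.exists_max`. `Enu c0 X E`: `c0` forces that the `E i` are exactly the elements of `X`; `fo_all_mem`, `fo_ex_mem`: replace an element of `X` by some `E i` after
extending the condition (`fo_reg`, `fo_ext`).
-/

namespace Pool.Agent.Lib.MP_8f49b0_lc.MM

open Pool.Agent.Lib.MP_4d8715_gt.KR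

namespace Code

variable {K : Code}


instance : Nonempty (BSet (RO (PT K))) := ⟨BSet.mk PEmpty (fun i => i.elim) (fun i => i.elim)⟩

theorem fo_ext {ψ : BSet (RO (PT K)) → RO (PT K)} (hψ : BSet.Ext ψ) {c : Pre} {x y : BSet (RO (PT K))}
    (h : Fo c (BSet.beq x y)) (hx : Fo c (ψ x)) : Fo c (ψ y) :=
  (fo_inf.2 ⟨h, hx⟩).of_le (hψ x y)

theorem fo_beq_refl {c : Pre} (hc : K.Ok c) (x : BSet (RO (PT K))) : Fo c (BSet.beq x x) := by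
  rw [BSet.beq_refl]
  exact fo_top.2 hc

theorem fo_beq_symm {c : Pre} {x y : BSet (RO (PT K))} (h : Fo c (BSet.beq x y)) : Fo c (BSet.beq y x) := by
  rw [BSet.beq_symm]
  exact h

theorem fo_beq_trans {c : Pre} {x y z : BSet (RO (PT K))} (h : Fo c (BSet.beq x y)) (h' : Fo c (BSet.beq y z)) :
    Fo c (BSet.beq x z) :=
  (fo_inf.2 ⟨h, h'⟩).of_le (BSet.beq_trans x y z)

/-- the maximum principle (`BSet.exists_max`) -/
theorem exists_fo {ψ : BSet (RO (PT K)) → RO (PT K)} (hψ : BSet.Ext ψ) {c : Pre} (h : Fo c (⨆ x, ψ x)) : ∃ x, Fo c (ψ x) := by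
  obtain ⟨x, hx⟩ := BSet.exists_max ψ hψ
  exact ⟨x, by rw [hx]; exact h⟩

/-- `c0` forces that the elements of `X` are exactly the `E i` -/
structure Enu (c0 : Pre) (X : BSet (RO (PT K))) {ι : Type*} (E : ι → BSet (RO (PT K))) : Prop where
  mem : ∀ i, Fo c0 (BSet.bmem (E i) X)
  cov : ∀ c, K.ex c c0 → ∀ x, Fo c (BSet.bmem x X) → ∃ c', K.ex c' c ∧ ∃ i, Fo c' (BSet.beq x (E i))

theorem Enu.mono {c0 c1 : Pre} {X : BSet (RO (PT K))} {ι : Type*} {E : ι → BSet (RO (PT K))} (h : Enu c0 X E)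
    (h0 : K.Ok c0) (hc : K.ex c1 c0) : Enu c1 X E :=
  ⟨fun i => (h.mem i).mono hc, fun c h1 x hx => h.cov c (ex_trans h0 h1 hc) x hx⟩

theorem fo_all_mem {c0 : Pre} {X : BSet (RO (PT K))} {ι : Type*} {E : ι → BSet (RO (PT K))} (h : Enu c0 X E)
    {ψ : BSet (RO (PT K)) → RO (PT K)} (hψ : BSet.Ext ψ) {c : Pre} (hc : K.ex c c0) (h0 : K.Ok c0) :
    Fo c (⨅ x, BSet.bmem x X ⇨ ψ x) ↔ ∀ i, Fo c (ψ (E i)) := by
  rw [fo_iInf]
  constructor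
  · intro h1 i
    exact (fo_himp.1 (h1 (E i))).2 c (ex_refl hc.1) ((h.mem i).mono hc)
  · intro h1 x
    refine fo_himp.2 ⟨hc.1, fun c' hc' hx => ?_⟩
    refine fo_reg hc'.1 fun c'' hc'' => ?_
    obtain ⟨d, hd, i, hi⟩ := h.cov c'' (ex_trans h0 hc'' (ex_trans h0 hc' hc)) x (hx.mono hc'')
    exact ⟨d, hd, fo_ext hψ (fo_beq_symm hi) ((h1 i).mono (ex_trans hc.1 hd (ex_trans hc.1 hc'' hc')))⟩

theorem fo_ex_mem {c0 : Pre} {X : BSet (RO (PT K))} {ι : Type*} {E : ι → BSet (RO (PT K))} (h : Enu c0 X E)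
    {ψ : BSet (RO (PT K)) → RO (PT K)} (hψ : BSet.Ext ψ) {c : Pre} (hc : K.ex c c0) (h0 : K.Ok c0) :
    Fo c (⨆ x, BSet.bmem x X ⊓ ψ x) ↔ ∀ c', K.ex c' c → ∃ c'', K.ex c'' c' ∧ ∃ i, Fo c'' (ψ (E i)) := by
  rw [fo_iSup]
  constructor
  · rintro ⟨-, h1⟩ c' hc'
    obtain ⟨c'', hc'', x, hx⟩ := h1 c' hc'
    obtain ⟨h2, h3⟩ := fo_inf.1 hx
    obtain ⟨d, hd, i, hi⟩ := h.cov c'' (ex_trans h0 hc'' (ex_trans h0 hc' hc)) x h2
    exact ⟨d, ex_trans hc'.1 hd hc'', i, fo_ext hψ hi (h3.mono hd)⟩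
  · intro h1
    refine ⟨hc.1, fun c' hc' => ?_⟩
    obtain ⟨c'', hc'', i, hi⟩ := h1 c' hc'
    exact ⟨c'', hc'', E i, fo_inf.2 ⟨(h.mem i).mono (ex_trans h0 hc'' (ex_trans h0 hc' hc)), hi⟩⟩

end Code

end Pool.Agent.Lib.MP_8f49b0_lc.MM
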