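import Pool.Agent.Lib.MP_8f49b0_lc.MM.M.ClubDefs
import Pool.Agent.Lib.MP_8f49b0_lc.MM.E.Deep

/-!
# Forcing with conditions and Boolean values (module E-FORCE)

`PT K` is the preordered type of the conditions, `RO (PT K)` its complete Boolean algebra, and `Fo c x` says that the condition `c` forces (belongs to) the Boolean value `x`.
All lemmas follow from `RO.mem_inf`, `RO.mem_himp`, ... (`KR/R/RO.lean`); a condition below `⟨c, h⟩` is a `⟨c', h'⟩` with `K.ex c' c`.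
-/

namespace Pool.Agent.Lib.MP_8f49b0_lc.MM

open Pool.Agent.Lib.MP_4d8715_gt.KR

namespace Code

/-- the conditions -/
def PT (K : Code) : Type 1 := {c : Pre // K.Ok c}

variable {K : Code}

instance : Preorder (PT K) where
  le c' c := K.le c'.1 c.1
  le_refl c := le_refl_of_ok c.2
  le_trans a b c h1 h2 := le_trans_of_ok a.2 b.2 c.2 h1 h2

/-- the condition `c` forces `x` -/
def Fo (c : Pre) (x : RO (PT K)) : Prop := ∃ h : K.Ok c, (⟨c, h⟩ : PT K) ∈ x.carrier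

/-- the Boolean value of a truth value -/
def ro (K : Code) (A : Set Pre) : RO (PT K) := RO.gen {p | p.1 ∈ A}

theorem Fo.ok {c : Pre} {x : RO (PT K)} (h : Fo c x) : K.Ok c := h.1

theorem Fo.of_le {c : Pre} {x y : RO (PT K)} (h : Fo c x) (hxy : x ≤ y) : Fo c y := ⟨h.1, RO.le_def.1 hxy _ h.2⟩

theorem Fo.mono {c c' : Pre} {x : RO (PT K)} (h : Fo c x) (hc : K.ex c' c) : Fo c' x := by
  obtain ⟨h1, h2⟩ := h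
  exact ⟨hc.1, x.down _ h2 ⟨c', hc.1⟩ hc.2⟩

theorem fo_reg {c : Pre} {x : RO (PT K)} (hc : K.Ok c) (h : ∀ c', K.ex c' c → ∃ c'', K.ex c'' c' ∧ Fo c'' x) : Fo c x := by
  refine ⟨hc, x.reg _ ?_⟩
  rintro ⟨c', h'⟩ hle
  obtain ⟨c'', h1, h2, h3⟩ := h c' ⟨h', hle⟩
  exact ⟨⟨c'', h2⟩, h1.2, h3⟩

theorem reg_fo (x : RO (PT K)) : K.Reg {c | Fo c x} := by
  refine ⟨?_, ?_, ?_⟩
  · intro c hc
    exact Fo.ok hc
  · intro c hc c' hc'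
    exact Fo.mono hc hc'
  · intro c hc h
    exact fo_reg hc h

theorem fo_ro {A : Set Pre} (hA : K.Reg A) {c : Pre} : Fo c (K.ro A) ↔ c ∈ A := by
  constructor
  · rintro ⟨h1, h2⟩
    refine hA.reg c h1 fun c' hc' => ?_
    obtain ⟨⟨r, hr⟩, hr1, ⟨t, ht0⟩, ht, hrt⟩ := h2 ⟨c', hc'.1⟩ hc'.2
    exact ⟨r, ⟨hr, hr1⟩, hA.opn t ht r ⟨hr, hrt⟩⟩
  · intro h
    have h1 : K.Ok c := hA.ok c h
    refine ⟨h1, fun q hq => ?_⟩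
    exact ⟨q, le_rfl, ⟨c, h1⟩, h, hq⟩

theorem fo_top {c : Pre} : Fo c (⊤ : RO (PT K)) ↔ K.Ok c :=
  ⟨fun h => h.1, fun h => ⟨h, RO.mem_top (P := PT K) _⟩⟩

theorem fo_bot {c : Pre} : ¬ Fo c (⊥ : RO (PT K)) := fun h => RO.mem_bot (P := PT K) _ h.2

theorem fo_inf {c : Pre} {x y : RO (PT K)} : Fo c (x ⊓ y) ↔ Fo c x ∧ Fo c y := by
  constructor
  · rintro ⟨h1, h2⟩
    exact ⟨⟨h1, ((RO.mem_inf (P := PT K)).1 h2).1⟩, ⟨h1, ((RO.mem_inf (P := PT K)).1 h2).2⟩⟩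
  · rintro ⟨⟨h1, h2⟩, ⟨_, h3⟩⟩
    exact ⟨h1, (RO.mem_inf (P := PT K)).2 ⟨h2, h3⟩⟩

theorem fo_sup {c : Pre} {x y : RO (PT K)} : Fo c (x ⊔ y) ↔ K.Ok c ∧ ∀ c', K.ex c' c → ∃ c'', K.ex c'' c' ∧ (Fo c'' x ∨ Fo c'' y) := by
  constructor
  · rintro ⟨h1, h2⟩
    refine ⟨h1, fun c' hc' => ?_⟩
    obtain ⟨⟨r, hr⟩, hr1, hr2⟩ := (RO.mem_sup (P := PT K)).1 h2 ⟨c', hc'.1⟩ hc'.2
    refine ⟨r, ⟨hr, hr1⟩, ?_⟩
    rcases hr2 with hr2 | hr2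
    · exact Or.inl ⟨hr, hr2⟩
    · exact Or.inr ⟨hr, hr2⟩
  · rintro ⟨h1, h2⟩
    refine ⟨h1, (RO.mem_sup (P := PT K)).2 ?_⟩
    rintro ⟨c', hc'⟩ hle
    obtain ⟨c'', h3, h4⟩ := h2 c' ⟨hc', hle⟩
    refine ⟨⟨c'', h3.1⟩, h3.2, ?_⟩
    rcases h4 with h4 | h4
    · exact Or.inl h4.2
    · exact Or.inr h4.2

theorem fo_compl {c : Pre} {x : RO (PT K)} : Fo c xᶜ ↔ K.Ok c ∧ ∀ c', K.ex c' c → ¬ Fo c' x := by
  constructor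
  · rintro ⟨h1, h2⟩
    refine ⟨h1, fun c' hc' h3 => ?_⟩
    exact (RO.mem_compl (P := PT K)).1 h2 ⟨c', hc'.1⟩ hc'.2 h3.2
  · rintro ⟨h1, h2⟩
    refine ⟨h1, (RO.mem_compl (P := PT K)).2 ?_⟩
    rintro ⟨c', hc'⟩ hle h3
    exact h2 c' ⟨hc', hle⟩ ⟨hc', h3⟩

theorem fo_himp {c : Pre} {x y : RO (PT K)} : Fo c (x ⇨ y) ↔ K.Ok c ∧ ∀ c', K.ex c' c → Fo c' x → Fo c' y := by
  constructor
  · rintro ⟨h1, h2⟩
    refine ⟨h1, fun c' hc' h3 => ?_⟩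
    exact ⟨hc'.1, (RO.mem_himp (P := PT K)).1 h2 ⟨c', hc'.1⟩ hc'.2 h3.2⟩
  · rintro ⟨h1, h2⟩
    refine ⟨h1, (RO.mem_himp (P := PT K)).2 ?_⟩
    rintro ⟨c', hc'⟩ hle h3
    exact (h2 c' ⟨hc', hle⟩ ⟨hc', h3⟩).2

theorem fo_iffB {c : Pre} {x y : RO (PT K)} : Fo c (iffB x y) ↔ K.Ok c ∧ ∀ c', K.ex c' c → (Fo c' x ↔ Fo c' y) := by
  unfold iffB
  rw [fo_inf, fo_himp, fo_himp]
  constructor
  · rintro ⟨⟨h1, h2⟩, _, h3⟩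
    exact ⟨h1, fun c' hc' => ⟨h2 c' hc', h3 c' hc'⟩⟩
  · rintro ⟨h1, h2⟩
    exact ⟨⟨h1, fun c' hc' => (h2 c' hc').1⟩, h1, fun c' hc' => (h2 c' hc').2⟩

theorem fo_iInf' {ι : Sort*} {c : Pre} {f : ι → RO (PT K)} : Fo c (⨅ i, f i) ↔ K.Ok c ∧ ∀ i, Fo c (f i) := by
  constructor
  · rintro ⟨h1, h2⟩
    exact ⟨h1, fun i => ⟨h1, (RO.mem_iInf (P := PT K)).1 h2 i⟩⟩
  · rintro ⟨h1, h2⟩
    exact ⟨h1, (RO.mem_iInf (P := PT K)).2 fun i => (h2 i).2⟩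

theorem fo_iInf {ι : Sort*} [Nonempty ι] {c : Pre} {f : ι → RO (PT K)} : Fo c (⨅ i, f i) ↔ ∀ i, Fo c (f i) := by
  rw [fo_iInf']
  constructor
  · exact fun h => h.2
  · intro h
    obtain ⟨i⟩ := (inferInstance : Nonempty ι)
    exact ⟨(h i).ok, h⟩

theorem fo_iSup {ι : Sort*} {c : Pre} {f : ι → RO (PT K)} :
    Fo c (⨆ i, f i) ↔ K.Ok c ∧ ∀ c', K.ex c' c → ∃ c'', K.ex c'' c' ∧ ∃ i, Fo c'' (f i) := by
  constructor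
  · rintro ⟨h1, h2⟩
    refine ⟨h1, fun c' hc' => ?_⟩
    obtain ⟨⟨r, hr⟩, hr1, i, hr2⟩ := (RO.mem_iSup (P := PT K)).1 h2 ⟨c', hc'.1⟩ hc'.2
    exact ⟨r, ⟨hr, hr1⟩, i, hr, hr2⟩
  · rintro ⟨h1, h2⟩
    refine ⟨h1, (RO.mem_iSup (P := PT K)).2 ?_⟩
    rintro ⟨c', hc'⟩ hle
    obtain ⟨c'', h3, i, h4⟩ := h2 c' ⟨hc', hle⟩
    exact ⟨⟨c'', h3.1⟩, h3.2, i, h4.2⟩

theorem le_iff_fo {x y : RO (PT K)} : x ≤ y ↔ ∀ c, Fo c x → Fo c y := by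
  constructor
  · intro h c hc
    exact hc.of_le h
  · intro h
    refine (RO.le_def (P := PT K)).2 ?_
    rintro ⟨c, hc⟩ h1
    exact (h c ⟨hc, h1⟩).2

theorem eq_top_iff_fo {x : RO (PT K)} : x = ⊤ ↔ ∀ c, K.Ok c → Fo c x := by
  constructor
  · rintro rfl c hc
    exact fo_top.2 hc
  · intro h
    refine le_antisymm le_top (le_iff_fo.2 fun c hc => h c hc.ok)

theorem fo_decide (x : RO (PT K)) {c : Pre} (hc : K.Ok c) : ∃ c', K.ex c' c ∧ (Fo c' x ∨ Fo c' xᶜ) := by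
  by_cases h : ∃ c', K.ex c' c ∧ Fo c' x
  · obtain ⟨c', h1, h2⟩ := h
    exact ⟨c', h1, Or.inl h2⟩
  · refine ⟨c, ⟨hc, le_refl_of_ok hc⟩, Or.inr ?_⟩
    refine fo_compl.2 ⟨hc, fun c' hc' h1 => h ⟨c', hc', h1⟩⟩

end Code

end Pool.Agent.Lib.MP_8f49b0_lc.MM
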