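import Pool.Agent.Lib.MP_8f49b0_lc.MM.E.DenseC
import Pool.Agent.Lib.MP_8f49b0_lc.MM.A.NoIso

/-!
# The two sets of reals are not isomorphic (module E-ISOB)

`fo_not_OrdIso`: otherwise `IsoA K c (fun ξ η => {d | Fo d (App g (rA false ξ) (rA true η))})`, which contradicts `no_iso`. `total`: `Kb.FunTo`, `enu_setA`. `inj`: if `ξ ≠ ξ'`, `exists_sep` and strict monotonicity give `LtR y y` for `y = rA true η`
(`fo_LtR_asymm`). `rev`: `fo_LtR_false` for `ξ`, `ξ'`, monotonicity, and `fo_LtR_true` for `η`, `η'`.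
-/

namespace Pool.Agent.Lib.MP_8f49b0_lc.MM

open Pool.Agent.Lib.MP_4d8715_gt.KR

namespace Code

variable {K : Code}

theorem fo_not_OrdIso {c : Pre} (g : BSet (RO (PT K))) : ¬ Fo c (Kb.OrdIso (K.setA false) (K.setA true) g) := by
  intro h
  have hc : K.Ok c := h.ok
  unfold Kb.OrdIso at h
  rw [fo_inf, fo_inf] at h
  obtain ⟨hF, _, hm⟩ := h
  unfold Kb.FunTo at hF
  rw [fo_inf] at hF
  obtain ⟨hFon, hFto⟩ := hF
  have hmono : ∀ d, K.ex d c → ∀ x x' y y', Fo d (Kb.App g x y) → Fo d (Kb.App g x' y') →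
      Fo d (Kb.LtR x x') → Fo d (Kb.LtR y y') := by
    intro d hd x x' y y' h1 h2 h3
    have e1 := (fo_iInf'.1 ((fo_iInf'.1 ((fo_iInf'.1 ((fo_iInf'.1 hm).2 x)).2 x')).2 y)).2 y'
    have e2 := (fo_himp.1 e1).2 d hd h1
    have e3 := (fo_himp.1 e2).2 d (ex_refl hd.1) h2
    exact (fo_himp.1 e3).2 d (ex_refl hd.1) h3
  have hto : ∀ d, K.ex d c → ∀ a b, Fo d (Kb.App g a b) → Fo d (BSet.bmem b (K.setA true)) := by
    intro d hd a b h1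
    have e1 := (fo_iInf'.1 ((fo_iInf'.1 hFto).2 a)).2 b
    exact (fo_himp.1 e1).2 d hd h1
  obtain ⟨Y, hY⟩ := exists_seq hFon (fun ξ : {ξ : O // ξ < w1} => K.rA false ξ.1)
    (enu_setA hc false).mem
  have hsep : ∀ ξ < w1, ∀ ξ' < w1, ∀ y, ∀ d, K.ex d c → Fo d (Kb.App g (K.rA false ξ) y) →
      Fo d (Kb.App g (K.rA false ξ') y) → ξ = ξ' := by
    intro ξ hξ ξ' hξ' y d hd h1 h2
    by_contra hne
    obtain ⟨d', hd', h3⟩ := exists_sep hξ hξ' hne hd.1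
    have e1 : K.ex d' c := ex_trans hc hd' hd
    rcases h3 with h3 | h3
    · have h4 := hmono d' e1 _ _ _ _ (h1.mono hd') (h2.mono hd') (fo_LtR_false hd'.1 h3)
      exact fo_LtR_asymm h4 h4
    · have h4 := hmono d' e1 _ _ _ _ (h2.mono hd') (h1.mono hd') (fo_LtR_false hd'.1 h3)
      exact fo_LtR_asymm h4 h4
  refine no_iso hc (fun ξ η => {d | Fo d (Kb.App g (K.rA false ξ) (K.rA true η))}) ⟨?_, ?_, ?_, ?_⟩
  · intro ξ η
    exact reg_fo _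
  · intro ξ hξ d hd
    have h1 : Fo d (Kb.App g (K.rA false ξ) (Y ⟨ξ, hξ⟩)) :=
      (hY ⟨ξ, hξ⟩ _ d hd).2 (fo_beq_refl hd.1 _)
    have h2 := hto d hd _ _ h1
    obtain ⟨d', hd', η, h3⟩ := (enu_setA hc true).cov d hd _ h2
    refine ⟨d', hd', η.1, η.2, ?_⟩
    exact (hY ⟨ξ, hξ⟩ _ d' (ex_trans hc hd' hd)).2 (fo_beq_symm h3)
  · intro ξ hξ ξ' hξ' η _ d hd h1 h2
    exact hsep ξ hξ ξ' hξ' _ d hd h1 h2
  · intro ξ _ ξ' _ η _ η' _ d hd h1 h2 h3 h4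
    have h5 := hmono d hd _ _ _ _ h1 h2 (fo_LtR_false hd.1 h3)
    exact fo_LtR_asymm h5 (fo_LtR_true hd.1 h4)

theorem fo_not_BAx {c : Pre} : ¬ Fo c (Kb.BAx BSet.omega (BSet.ratSet (RO (PT K))) (BSet.ltB (RO (PT K))) (K.ordB w1)) := by
  intro h
  have hc : K.Ok c := h.ok
  unfold Kb.BAx at h
  have e1 := (fo_iInf'.1 ((fo_iInf'.1 h).2 (K.setA false))).2 (K.setA true)
  have e2 := (fo_himp.1 e1).2 c (ex_refl hc) (fo_Dense1 hc false)
  have e3 := (fo_himp.1 e2).2 c (ex_refl hc) (fo_Dense1 hc true)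
  obtain ⟨c', _, g, h1⟩ := (fo_iSup.1 e3).2 c (ex_refl hc)
  exact fo_not_OrdIso g h1

end Code

end Pool.Agent.Lib.MP_8f49b0_lc.MM
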