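import Pool.Agent.Lib.MP_8f49b0_lc.MM.E.SubE
import Pool.Agent.Lib.MP_8f49b0_lc.MM.M.ClubDefs

/-!
# Dense sets and filters in the extension (module E-MMB1)

`exists_DenQ`: `exists_seq` for the family, then `Kb.DenseIn`. `fo_Filt`: `QD.mem_subE`, `subE_cov`, `subE_sub`; nonempty: `hG.meet 0`.
-/

namespace Pool.Agent.Lib.MP_8f49b0_lc.MM

open Pool.Agent.Lib.MP_4d8715_gt.KR

namespace Code

variable {K : Code} {c0 : Pre} {Q R : BSet (RO (PT K))} {E : O → BSet (RO (PT K))}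

theorem exists_DenQ (hQ : QD K c0 Q R E) {D : BSet (RO (PT K))} (h1 : Fo c0 (Kb.FunOn D (K.ordB w1)))
    (h2 : Fo c0 (⨅ a, ⨅ X, BSet.bmem a (K.ordB w1) ⇨ Kb.App D a X ⇨ Kb.DenseIn Q R X)) :
    ∃ X : O → BSet (RO (PT K)), K.DenQ c0 (qn K R E) (fun i h => {c | Fo c (BSet.bmem (E h) (X i))}) ∧
      ∀ i < w1, ∀ y c, K.ex c c0 → (Fo c (Kb.App D (K.ordB i) y) ↔ Fo c (BSet.beq y (X i))) := by
  have ok0 := hQ.ok
  obtain ⟨Y, hY⟩ := exists_seq h1 (fun i : {i : O // i < w1} => K.ordB i.1) (fun i => fo_mem_ordB.2 ⟨ok0, i.2⟩)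
  classical
  refine ⟨fun i => if h : i < w1 then Y ⟨i, h⟩ else K.ordB 0, ⟨fun i h => reg_fo _, ?_⟩, ?_⟩
  · intro i hi h hh c hc
    simp only [dif_pos hi]
    -- `D` applied to `i` is `Y i`
    have hA : Fo c (Kb.App D (K.ordB i) (Y ⟨i, hi⟩)) := (hY ⟨i, hi⟩ _ c hc).2 (fo_beq_refl hc.1 _)
    have h3 := fo_iInf.1 (fo_iInf.1 h2 (K.ordB i)) (Y ⟨i, hi⟩)
    rw [fo_himp] at h3
    have h4 := h3.2 c hc (fo_mem_ordB.2 ⟨hc.1, hi⟩)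
    rw [fo_himp] at h4
    have h5 := h4.2 c (ex_refl hc.1) hA
    unfold Kb.DenseIn at h5
    rw [fo_inf] at h5
    have h6 := fo_iInf.1 h5.2 (E h)
    rw [fo_himp] at h6
    have h7 := h6.2 c (ex_refl hc.1) ((hQ.enu.mem ⟨h, hh⟩).mono hc)
    rw [fo_iSup] at h7
    obtain ⟨c2, hc2, q, hq⟩ := h7.2 c (ex_refl hc.1)
    rw [fo_inf] at hq
    have h8 := fo_iInf.1 h5.1 q
    rw [fo_himp] at h8
    have h9 := h8.2 c2 hc2 hq.1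
    obtain ⟨c3, hc3, ⟨h', hh'⟩, hqe⟩ := hQ.enu.cov c2 (ex_trans ok0 hc2 hc) q h9
    refine ⟨c3, ex_trans hc.1 hc3 hc2, h', hh', ?_, ?_⟩
    · exact fo_ext (Kb.ext_App_a R (E h)) hqe (hq.2.mono hc3)
    · exact fo_ext (BSet.ext_bmem_left _) hqe (hq.1.mono hc3)
  · intro i hi y c hc
    simp only [dif_pos hi]
    exact hY ⟨i, hi⟩ y c hc

theorem fo_Filt (hQ : QD K c0 Q R E) {D : O → O → Set Pre} {G : O → Set Pre} {c1 : Pre} (hc1 : K.ex c1 c0)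
    (hG : K.FilQ0 c1 (qn K R E) D G) : Fo c1 (Kb.Filt Q R (subE K E G)) := by
  have ok0 := hQ.ok
  have ok1 : K.Ok c1 := hc1.1
  have hmem := fun (c : Pre) (hc : K.ex c c1) (h : O) (hh : h < w1) =>
    hQ.mem_subE hG.reg hc1 hG.up hc hh
  unfold Kb.Filt
  refine fo_inf.2 ⟨(subE_sub hQ G).mono hc1, fo_inf.2 ⟨?_, fo_inf.2 ⟨?_, ?_⟩⟩⟩
  · rw [fo_iSup]
    refine ⟨ok1, fun c hc => ?_⟩
    have h0 : (0 : O) < w1 := by
      exact Ordinal.omega_pos 1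
    obtain ⟨c', hc', h, hh, hcG, -⟩ := hG.meet 0 h0 c hc
    exact ⟨c', hc', E h, (hmem c' (ex_trans ok1 hc' hc) h hh).2 hcG⟩
  · rw [fo_iInf]
    intro p
    rw [fo_iInf]
    intro q
    rw [fo_himp]
    refine ⟨ok1, fun c hc hp => ?_⟩
    rw [fo_himp]
    refine ⟨hc.1, fun c' hc' hq => ?_⟩
    rw [fo_himp]
    refine ⟨hc'.1, fun c2 hc2 hR => ?_⟩
    have e1 : K.ex c2 c1 := ex_trans ok1 hc2 (ex_trans ok1 hc' hc)
    refine fo_reg hc2.1 fun c3 hc3 => ?_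
    obtain ⟨c4, hc4, h, hh, hG4, hpe⟩ := subE_cov hG.reg (hp.mono (ex_trans hc.1 (ex_trans hc'.1 hc3 hc2) hc'))
    have e4 : K.ex c4 c1 := ex_trans ok1 hc4 (ex_trans ok1 hc3 e1)
    obtain ⟨c5, hc5, ⟨h', hh'⟩, hqe⟩ := hQ.enu.cov c4 (ex_trans ok0 e4 hc1) q
      (hq.mono (ex_trans hc'.1 hc4 (ex_trans hc'.1 hc3 hc2)))
    have e5 : K.ex c5 c1 := ex_trans ok1 hc5 e4
    refine ⟨c5, ex_trans hc3.1 hc5 hc4, ?_⟩
    have h8 : Fo c5 (Kb.App R (E h) (E h')) := by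
      have a1 : Fo c5 (Kb.App R p q) := hR.mono (ex_trans hc2.1 hc5 (ex_trans hc2.1 hc4 hc3))
      have a2 : Fo c5 (Kb.App R (E h) q) := fo_ext (Kb.ext_App_a R q) (hpe.mono hc5) a1
      exact fo_ext (Kb.ext_App_b R (E h)) hqe a2
    have h9 : c5 ∈ G h' := hG.up h hh h' hh' c5 e5 ((hG.reg h).opn c4 hG4 c5 hc5) h8
    exact fo_ext (BSet.ext_bmem_left _) (fo_beq_symm hqe) ((hmem c5 e5 h' hh').2 h9)
  · rw [fo_iInf]
    intro p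
    rw [fo_iInf]
    intro q
    rw [fo_himp]
    refine ⟨ok1, fun c hc hp => ?_⟩
    rw [fo_himp]
    refine ⟨hc.1, fun c' hc' hq => ?_⟩
    rw [fo_iSup]
    refine ⟨hc'.1, fun c2 hc2 => ?_⟩
    have e1 : K.ex c2 c1 := ex_trans ok1 hc2 (ex_trans ok1 hc' hc)
    obtain ⟨c3, hc3, h, hh, hG3, hpe⟩ := subE_cov hG.reg (hp.mono (ex_trans hc.1 hc2 hc'))
    obtain ⟨c4, hc4, h', hh', hG4, hqe⟩ := subE_cov hG.reg (hq.mono (ex_trans hc'.1 hc3 hc2))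
    have e4 : K.ex c4 c1 := ex_trans ok1 hc4 (ex_trans ok1 hc3 e1)
    obtain ⟨c5, hc5, h'', hh'', hG5, hq1, hq2⟩ := hG.dir h hh h' hh' c4 e4 ((hG.reg h).opn c3 hG3 c4 hc4) hG4
    have e5 : K.ex c5 c1 := ex_trans ok1 hc5 e4
    refine ⟨c5, ex_trans hc2.1 hc5 (ex_trans hc2.1 hc4 hc3), E h'', fo_inf.2 ⟨(hmem c5 e5 h'' hh'').2 hG5, fo_inf.2 ⟨?_, ?_⟩⟩⟩
    · exact fo_ext (Kb.ext_App_b R (E h'')) (fo_beq_symm (hpe.mono (ex_trans hc3.1 hc5 hc4))) hq1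
    · exact fo_ext (Kb.ext_App_b R (E h'')) (fo_beq_symm (hqe.mono hc5)) hq2

end Code

end Pool.Agent.Lib.MP_8f49b0_lc.MM
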