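import Pool.Agent.Lib.MP_8f49b0_lc.MM.E.MMB0
import Pool.Agent.Lib.MP_8f49b0_lc.MM.E.MMB1
import Pool.Agent.Lib.MP_8f49b0_lc.MM.M.Main

/-!
# The forcing axiom in the extension (module E-MMB)

`fo_MMax`: let `c0 ≤ c` force the hypotheses; `exists_QD`, `spqc_of_pres`, `exists_DenQ`, `mm2` (it is enough to find `c1 ≤ c0` which forces the conclusion, because this applies to all stronger `c0`: `fo_reg`).
-/

namespace Pool.Agent.Lib.MP_8f49b0_lc.MM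

open Pool.Agent.Lib.MP_4d8715_gt.KR

namespace Code

variable {K : Code}

theorem fo_MMax {c : Pre} (hc : K.Ok c) : Fo c (Kb.MMax (K.ordB w1)) := by
  unfold Kb.MMax
  rw [fo_iInf]
  intro Q
  rw [fo_iInf]
  intro R
  rw [fo_himp]
  refine ⟨hc, fun c1 hc1 h1 => ?_⟩
  rw [fo_himp]
  refine ⟨hc1.1, fun c2 hc2 h2 => ?_⟩
  rw [fo_himp]
  refine ⟨hc2.1, fun c3 hc3 h3 => ?_⟩
  rw [fo_iInf]
  intro D
  rw [fo_himp]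
  refine ⟨hc3.1, fun c4 hc4 h4 => ?_⟩
  rw [fo_himp]
  refine ⟨hc4.1, fun c5 hc5 h5 => ?_⟩
  refine fo_reg hc5.1 fun c0 hc0 => ?_
  have e4 : K.ex c0 c4 := ex_trans hc4.1 hc0 hc5
  have e3 : K.ex c0 c3 := ex_trans hc3.1 e4 hc4
  have e2 : K.ex c0 c2 := ex_trans hc2.1 e3 hc3
  have e1 : K.ex c0 c1 := ex_trans hc1.1 e2 hc2
  obtain ⟨E, hQ⟩ := exists_QD hc0.1 (h1.mono e1) (h2.mono e2)
  have hS := spqc_of_pres hQ (h3.mono e3)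
  obtain ⟨X, hD, hX⟩ := exists_DenQ hQ (h4.mono e4) (h5.mono hc0)
  obtain ⟨d, hd, G, hG⟩ := mm2 hc0.1 hQ.preQ0 hS hD
  refine ⟨d, hd, ?_⟩
  refine fo_iSup.2 ⟨hd.1, fun d' hd' => ⟨d', ex_refl hd'.1, subE K E G, Fo.mono ?_ hd'⟩⟩
  refine fo_inf.2 ⟨fo_Filt hQ hd hG, ?_⟩
  rw [fo_iInf]
  intro a
  rw [fo_iInf]
  intro Y
  rw [fo_himp]
  refine ⟨hd.1, fun d1 hd1 ha => ?_⟩
  rw [fo_himp]
  refine ⟨hd1.1, fun d2 hd2 hY => ?_⟩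
  refine fo_iSup.2 ⟨hd2.1, fun d3 hd3 => ?_⟩
  have k31 : K.ex d3 d1 := ex_trans hd1.1 hd3 hd2
  have k3 : K.ex d3 d := ex_trans hd.1 k31 hd1
  obtain ⟨d4, hd4, i, hai⟩ := (enu_ordB hd.1 w1).cov d3 k3 a (ha.mono k31)
  have k4 : K.ex d4 d := ex_trans hd.1 hd4 k3
  have k42 : K.ex d4 d2 := ex_trans hd2.1 hd4 hd3
  have hY1 : Fo d4 (Kb.App D (K.ordB i.1) Y) :=
    fo_ext (ψ := fun a => Kb.App D a Y) (Kb.ext_App_a D Y) hai (hY.mono k42)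
  have hb : Fo d4 (BSet.beq Y (X i.1)) := (hX i.1 i.2 Y d4 (ex_trans hc0.1 k4 hd)).1 hY1
  obtain ⟨d5, hd5, h, hh, hGh, hDh⟩ := hG.meet i.1 i.2 d4 k4
  have k5 : K.ex d5 d := ex_trans hd.1 hd5 k4
  refine ⟨d5, ex_trans hd3.1 hd5 hd4, E h, fo_inf.2 ⟨?_, ?_⟩⟩
  · exact (hQ.mem_subE hG.reg hd hG.up k5 hh).2 hGh
  · exact fo_ext (ψ := fun y => BSet.bmem (E h) y) (BSet.ext_bmem_right (E h)) (fo_beq_symm (hb.mono hd5)) hDh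

end Code

end Pool.Agent.Lib.MP_8f49b0_lc.MM
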