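import Pool.Agent.Lib.MP_8f49b0_lc.MM.E.StatB
import Pool.Agent.Lib.MP_8f49b0_lc.MM.E.ClubC

/-!
# Posets which preserve stationary sets in the extension (module E-MMB0)

`spqc_of_pres`: instantiate `Kb.PresStat` at `subO S`, `clubB K E C`, `E h0` (`QD.mono`, `fo_Stat`, `fo_ForcesClub`), decide the resulting elements (`Enu`, `enu_ordB`, `fo_mem_subO`), and use `fo_Forces`.
-/

namespace Pool.Agent.Lib.MP_8f49b0_lc.MM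

open Pool.Agent.Lib.MP_4d8715_gt.KR

namespace Code

variable {K : Code} {c0 : Pre} {Q R : BSet (RO (PT K))} {E : O → BSet (RO (PT K))}

theorem spqc_of_pres (hQ : QD K c0 Q R E) (h : Fo c0 (Kb.PresStat (K.ordB w1) Q R)) : K.SPQc c0 (qn K R E) := by
  intro S hS C hC c1 hc1 hstat hdown hdens h0 hh0 hunb hcls
  have hQ1 : QD K c1 Q R E := hQ.mono hc1
  have hP : Fo c1 (Kb.PresStat (K.ordB w1) Q R) := h.mono hc1
  have hok : K.Ok c1 := hc1.1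
  have hrefl : K.ex c1 c1 := ⟨hok, le_refl_of_ok hok⟩
  have hNC : NC K c1 (qn K R E) C := ⟨hC, hdown, hdens⟩
  unfold Kb.PresStat at hP
  have h1 := (fo_iInf.1 ((fo_iInf.1 ((fo_iInf.1 hP) (K.subO S))) (clubB K E C))) (E h0)
  have h2 := (fo_himp.1 h1).2 c1 hrefl (fo_Stat hok hS hstat)
  have h3 := (fo_himp.1 h2).2 c1 hrefl (hQ1.enu.mem ⟨h0, hh0⟩)
  have h4 := (fo_himp.1 h3).2 c1 hrefl (fo_ForcesClub hQ1 hNC hh0 hunb hcls)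
  obtain ⟨c2, hc2, q, h5⟩ := (fo_iSup.1 h4).2 c1 hrefl
  have hrefl2 : K.ex c2 c2 := ⟨hc2.1, le_refl_of_ok hc2.1⟩
  obtain ⟨c3, hc3, d, h6⟩ := (fo_iSup.1 h5).2 c2 hrefl2
  obtain ⟨h7, h8⟩ := fo_inf.1 h6
  obtain ⟨h8, h9⟩ := fo_inf.1 h8
  obtain ⟨h9, h10⟩ := fo_inf.1 h9
  have hc31 : K.ex c3 c1 := ⟨hc3.1, le_trans_of_ok hc3.1 hc2.1 hok hc3.2 hc2.2⟩
  obtain ⟨c4, hc4, ⟨g, hg⟩, h11⟩ := hQ1.enu.cov c3 hc31 q h7
  have hc41 : K.ex c4 c1 := ⟨hc4.1, le_trans_of_ok hc4.1 hc3.1 hok hc4.2 hc31.2⟩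
  have h12 : Fo c4 (BSet.bmem d (K.ordB w1)) := by
    have hs := fo_sub_subO (A := S) hc4.1
    unfold Kb.Sub at hs
    exact (fo_himp.1 (fo_iInf.1 hs d)).2 c4 ⟨hc4.1, le_refl_of_ok hc4.1⟩ (h9.mono hc4)
  obtain ⟨c5, hc5, ⟨δ, hδ⟩, h13⟩ := (enu_ordB hc4.1 w1).cov c4 ⟨hc4.1, le_refl_of_ok hc4.1⟩ d h12
  have hc51 : K.ex c5 c1 := ⟨hc5.1, le_trans_of_ok hc5.1 hc4.1 hok hc5.2 hc41.2⟩
  have h11' := h11.mono hc5
  have h8' := (h8.mono hc4).mono hc5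
  have h9' := (h9.mono hc4).mono hc5
  have h10' := (h10.mono hc4).mono hc5
  refine ⟨c5, hc51, g, hg, ?_, δ, hδ, ?_, ?_⟩
  · exact fo_ext (Kb.ext_App_a R (E h0)) h11' h8'
  · exact (fo_mem_subO hS hδ).1 (fo_ext (BSet.ext_bmem_left (K.subO S)) h13 h9')
  · have h14 := fo_ext (Kb.ext_Forces_p Q R (clubB K E C) d) h11' h10'
    have h15 := fo_ext (Kb.ext_Forces_d Q R (clubB K E C) (E g)) h13 h14
    exact (fo_Forces hQ1 hNC hc51 hg hδ).1 h15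

end Code

end Pool.Agent.Lib.MP_8f49b0_lc.MM
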