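import Pool.Agent.Lib.MP_8f49b0_lc.MM.E.IsoB
import Pool.Agent.Lib.MP_8f49b0_lc.MM.E.MMB
import Pool.Agent.Lib.MP_4d8715_gt.KR.E.RatF
import Pool.Agent.Lib.MP_4d8715_gt.KR.Z.Main
import Pool.Agent.Lib.MP_8f49b0_lc.MM.S.CodeEx

/-!
# The Boolean value of the sentence (module E-MAIN)
-/

namespace Pool.Agent.Lib.MP_8f49b0_lc.MM

open Pool.Agent.Lib.MP_4d8715_gt.KR

namespace Code

variable (K : Code)

instance : Nonempty (PT K) := ⟨⟨⟨∅, ∅, ∅⟩, ok_of_mem_V0 ⟨rfl, rfl, fun _ _ _ _ h => absurd h (Finset.notMem_empty _),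
  fun _ h => absurd h (Finset.notMem_empty _)⟩⟩⟩

theorem bv_MMnotBA : Fml.bv Fml.fMMnotBA (![] : Fin 0 → BSet (RO (PT K))) = ⊤ := by
  rw [Fml.bv_fMMnotBA, eq_top_iff_fo]
  intro c hc
  refine Fo.mono ?_ (ex_refl hc)
  have key : Fo c (Kb.Omega (BSet.omega : BSet (RO (PT K))) ⊓
      (Kb.Rationals (BSet.ratSet (RO (PT K))) (BSet.addB (RO (PT K))) (BSet.mulB (RO (PT K))) (BSet.ltB (RO (PT K))) (BSet.rat 0) (BSet.rat 1) ⊓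
      (Kb.Omega1 BSet.omega (K.ordB w1) ⊓ (Kb.MMax (K.ordB w1) ⊓
      (Kb.BAx BSet.omega (BSet.ratSet (RO (PT K))) (BSet.ltB (RO (PT K))) (K.ordB w1))ᶜ)))) := by
    rw [fo_inf, fo_inf, fo_inf, fo_inf, Kb.Omega_omega, Kb.Rationals_rat, fo_top, fo_compl]
    exact ⟨hc, hc, fo_Omega1 hc, fo_MMax hc, hc, fun c' _ => fo_not_BAx⟩
  refine Fo.of_le key ?_
  · unfold Kb.MMnotBA
    exact le_iSup_of_le BSet.omega (le_iSup_of_le (BSet.ratSet _) (le_iSup_of_le (BSet.addB _)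
      (le_iSup_of_le (BSet.mulB _) (le_iSup_of_le (BSet.ltB _) (le_iSup_of_le (BSet.rat 0)
      (le_iSup_of_le (BSet.rat 1) (le_iSup_of_le (K.ordB w1) le_rfl)))))))

end Code

/-- there is a model of ZFC + MM(ℵ₁) in which Baumgartner's Axiom fails -/
theorem main : ∃ φ : Fml 0,
    (∀ (M : Type 2) (E : M → M → Prop), Fml.Sat E φ ![] ↔ Ms.MMnotBA E) ∧
    ∃ (M : Type 2) (E : M → M → Prop), (∀ ψ ∈ Fml.ZFC, Fml.Sat E ψ ![]) ∧ Fml.Sat E φ ![] := by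
  obtain ⟨K⟩ := exists_code
  obtain ⟨M, E, hZ, hM⟩ := exists_model_ZFC (RO (Code.PT K))
  exact ⟨Fml.fMMnotBA, fun M E => Fml.sat2_fMMnotBA E, M, E, hZ, hM _ (Code.bv_MMnotBA K)⟩

end Pool.Agent.Lib.MP_8f49b0_lc.MM
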