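import Pool.Agent.Lib.MP_8f49b0_lc.MM.E.SeqN
import Pool.Agent.Lib.MP_8f49b0_lc.MM.A.NoIso
import Pool.Agent.Lib.MP_8f49b0_lc.MM.M.SeqA

/-!
# The name of `ω₁` (module E-OM1)

`enu_omega`: `BSet.std_omega`. `fo_Ordl`: `Enu`, `fo_all_mem`, `Kb.ext_*`. `fo_Unc`: let `Fo c' (FunOn f omega)`; `exists_seq` gives `Y : ℕ → BSet`; apply `exists_bdd_name` to
`e n ξ = {d | Fo d (beq (Y n) (ordB ξ))}` (`fo_beq_ordB`); `x = ordB γ`. `fo_Ctb`: the function `n ↦ ordB (en1 ξ n)` for `0 < ξ < w1` (`fo_FunOn_relB` with `ι = ULift ℕ`; `en1_surj`); for `ξ = 0` any function.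
-/

namespace Pool.Agent.Lib.MP_8f49b0_lc.MM

open Pool.Agent.Lib.MP_4d8715_gt.KR

namespace Code

variable {K : Code}

theorem enu_omega {c : Pre} (hc : K.Ok c) : Enu c (BSet.omega : BSet (RO (PT K))) (fun n : ℕ => BSet.nat n) := by
  refine ⟨fun n => ?_, fun c' hc' x hx => ?_⟩
  · rw [BSet.std_omega.mem_self]
    exact fo_top.2 hc
  · rw [BSet.std_omega.mem, fo_iSup] at hx
    obtain ⟨c'', h1, i, h2⟩ := hx.2 c' (ex_refl hx.1)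
    exact ⟨c'', h1, i, h2⟩

private theorem om1_fo_tv {c : Pre} {Q : Prop} : Fo c (BSet.tv (RO (PT K)) Q) ↔ K.Ok c ∧ Q := by
  unfold BSet.tv
  by_cases hQ : Q
  · rw [iSup_pos hQ, fo_top]
    exact ⟨fun h => ⟨h, hQ⟩, fun h => h.1⟩
  · rw [iSup_neg hQ]
    exact ⟨fun h => (fo_bot h).elim, fun h => (hQ h.2).elim⟩

theorem fo_beq_nat {c : Pre} {m n : ℕ} : Fo c (BSet.beq (BSet.nat m : BSet (RO (PT K))) (BSet.nat n)) ↔ K.Ok c ∧ m = n := by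
  rw [BSet.std_omega.inj m n, om1_fo_tv]

private theorem om1_sub {c : Pre} (hc : K.Ok c) {η ξ : O} (h : η ≤ ξ) : Fo c (Kb.Sub (K.ordB η) (K.ordB ξ)) := by
  rw [Kb.Sub_eq]
  unfold BSet.bsub
  refine (fo_all_mem (enu_ordB hc η) (BSet.ext_bmem_left _) (ex_refl hc) hc).2 fun i => ?_
  exact fo_mem_ordB.2 ⟨hc, lt_of_lt_of_le i.2 h⟩

theorem fo_Ordl {c : Pre} (hc : K.Ok c) (ξ : O) : Fo c (Kb.Ordl (K.ordB ξ)) := by
  unfold Kb.Ordl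
  refine fo_inf.2 ⟨?_, ?_⟩
  · refine (fo_all_mem (enu_ordB hc ξ) (Kb.ext_Sub_x _) (ex_refl hc) hc).2 fun i => ?_
    exact om1_sub hc (le_of_lt i.2)
  · refine (fo_all_mem (enu_ordB hc ξ) (ψ := fun y => ⨅ z, BSet.bmem z y ⇨ Kb.Sub z y)
      (BSet.Ext.iInf fun z => (BSet.ext_bmem_right z).himp (Kb.ext_Sub_y z)) (ex_refl hc) hc).2 fun i => ?_
    refine (fo_all_mem (enu_ordB hc i.1) (Kb.ext_Sub_x _) (ex_refl hc) hc).2 fun j => ?_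
    exact om1_sub hc (le_of_lt j.2)

theorem fo_Unc {c : Pre} (hc : K.Ok c) : Fo c (Kb.Uncountable BSet.omega (K.ordB w1)) := by
  unfold Kb.Uncountable
  refine fo_iInf'.2 ⟨hc, fun f => fo_himp.2 ⟨hc, fun c' hc' hf => ?_⟩⟩
  refine fo_iSup.2 ⟨hc'.1, fun c1 hc1 => ?_⟩
  have hf1 := hf.mono hc1
  obtain ⟨Y, hY⟩ := exists_seq hf1 (fun n : ℕ => (BSet.nat n : BSet (RO (PT K)))) (fun n => (enu_omega hc1.1).mem n)
  obtain ⟨c2, hc2, γ, hγ, hb⟩ := exists_bdd_name hc1.1 (fun n ξ => {d | Fo d (BSet.beq (Y n) (K.ordB ξ))})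
    (fun n ξ => reg_fo _) (fun n ξ ξ' d _ h1 h2 =>
      (fo_beq_ordB.1 (fo_beq_trans (fo_beq_symm h1) h2)).2)
  refine ⟨c2, hc2, K.ordB γ, fo_inf.2 ⟨fo_mem_ordB.2 ⟨hc2.1, hγ⟩, ?_⟩⟩
  refine (fo_all_mem (enu_omega hc2.1) (ψ := fun n => (Kb.App f n (K.ordB γ))ᶜ) (Kb.ext_App_a f _).compl
    (ex_refl hc2.1) hc2.1).2 fun n => ?_
  refine fo_compl.2 ⟨hc2.1, fun d hd hApp => ?_⟩
  have h1 : Fo d (BSet.beq (K.ordB γ) (Y n)) := (hY n _ d (ex_trans hc1.1 hd hc2)).1 hApp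
  exact lt_irrefl _ (hb n γ hγ d hd (fo_beq_symm h1))

theorem fo_Ctb {c : Pre} (hc : K.Ok c) {ξ : O} (hξ : ξ < w1) : ¬ Fo c (Kb.Uncountable BSet.omega (K.ordB ξ)) := by
  intro h
  unfold Kb.Uncountable at h
  have hE : Enu c (BSet.omega : BSet (RO (PT K))) (fun n : ULift.{1} ℕ => BSet.nat n.down) := by
    refine ⟨fun n => (enu_omega hc).mem n.down, fun c' hc' x hx => ?_⟩
    obtain ⟨c'', h1, i, h2⟩ := (enu_omega hc).cov c' hc' x hx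
    exact ⟨c'', h1, ⟨i⟩, h2⟩
  have hF : Fo c (Kb.FunOn (K.relB (fun n : ULift.{1} ℕ => BSet.nat n.down) (fun n => K.ordB (en1 ξ n.down))
      (fun _ => ⊤)) BSet.omega) :=
    fo_FunOn_relB hc hE (fun i j c' _ h1 => ULift.ext _ _ (fo_beq_nat.1 h1).2) _
  have h1 := (fo_himp.1 ((fo_iInf'.1 h).2 _)).2 c (ex_refl hc) hF
  have h2 := (fo_ex_mem (enu_ordB hc ξ) (ψ := fun x => ⨅ n, BSet.bmem n BSet.omega ⇨ (Kb.App (K.relB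
      (fun n : ULift.{1} ℕ => BSet.nat n.down) (fun n => K.ordB (en1 ξ n.down)) (fun _ => ⊤)) n x)ᶜ)
      (BSet.Ext.iInf fun n => (BSet.ext_const _).himp (Kb.ext_App_b _ n).compl) (ex_refl hc) hc).1 h1 c (ex_refl hc)
  obtain ⟨c', hc', i, hi⟩ := h2
  obtain ⟨n, hn⟩ := en1_surj hξ i.2
  have h3 := (fo_himp.1 ((fo_iInf'.1 hi).2 (BSet.nat n))).2 c' (ex_refl hc'.1) ((enu_omega hc'.1).mem n)
  refine (fo_compl.1 h3).2 c' (ex_refl hc'.1) ?_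
  refine fo_App_relB.2 ⟨hc'.1, fun d hd => ⟨d, ex_refl hd.1, ⟨n⟩, fo_top.2 hd.1, fo_beq_refl hd.1 _, ?_⟩⟩
  show Fo d (BSet.beq (K.ordB i.1) (K.ordB (en1 ξ n)))
  rw [hn]
  exact fo_beq_refl hd.1 _

theorem fo_Omega1 {c : Pre} (hc : K.Ok c) : Fo c (Kb.Omega1 BSet.omega (K.ordB w1)) := by
  unfold Kb.Omega1
  refine fo_inf.2 ⟨fo_Ordl hc w1, fo_inf.2 ⟨fo_Unc hc, ?_⟩⟩
  refine (fo_all_mem (enu_ordB hc w1) (ψ := fun x => (Kb.Uncountable BSet.omega x)ᶜ)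
    (Kb.ext_Uncountable_X _).compl (ex_refl hc) hc).2 fun i => ?_
  exact fo_compl.2 ⟨hc, fun c' hc' => fo_Ctb hc'.1 i.2⟩

end Code

end Pool.Agent.Lib.MP_8f49b0_lc.MM
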