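import Pool.Agent.Lib.MP_8f49b0_lc.MM.E.Enum
import Pool.Agent.Lib.MP_4d8715_gt.KR.E.Base

/-!
# Standard names of ordinals (module E-ORDB)

`ordB ξ` is the name of the ordinal `ξ`, with the elements `ordB η`, `η < ξ`.
`fo_beq_ordB`: by induction on the maximum of `ξ`, `η`: if `η < ξ` then `Fo c (beq (ordB ξ) (ordB η))` gives (`ordB η` is an element of `ordB ξ`, hence of `ordB η`) some `ζ < η` with
`Fo c' (beq (ordB η) (ordB ζ))`.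
-/

namespace Pool.Agent.Lib.MP_8f49b0_lc.MM

open Pool.Agent.Lib.MP_4d8715_gt.KR

namespace Code

/-- the name of the ordinal `ξ` -/
noncomputable def ordB (K : Code) : O → BSet (RO (PT K)) :=
  WellFounded.fix (C := fun _ => BSet (RO (PT K))) Ordinal.lt_wf
    (fun ξ f => BSet.mk {η : O // η < ξ} (fun η => f η.1 η.2) (fun _ => ⊤))

variable {K : Code}

theorem ordB_eq (ξ : O) : K.ordB ξ = BSet.mk {η : O // η < ξ} (fun η => K.ordB η.1) (fun _ => ⊤) := by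
  unfold ordB
  rw [WellFounded.fix_eq]

private theorem ordB_mem_top {ξ η : O} (h : η < ξ) : BSet.bmem (K.ordB η) (K.ordB ξ) = ⊤ := by
  rw [ordB_eq ξ, BSet.basic_bmem_mk]
  refine top_unique (le_iSup_of_le ⟨η, h⟩ ?_)
  rw [BSet.beq_refl, top_inf_eq]

theorem enu_ordB {c : Pre} (hc : K.Ok c) (ξ : O) : Enu c (K.ordB ξ) (fun η : {η : O // η < ξ} => K.ordB η.1) := by
  refine ⟨fun η => ?_, fun c' hc' x hx => ?_⟩
  · rw [ordB_mem_top η.2]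
    exact fo_top.2 hc
  · rw [ordB_eq ξ, BSet.basic_bmem_mk] at hx
    obtain ⟨c'', h1, η, h2⟩ := (fo_iSup.1 hx).2 c' (ex_refl hx.ok)
    exact ⟨c'', h1, η, (fo_inf.1 h2).2⟩

private theorem ordB_ne (ξ : O) : ∀ η < ξ, ∀ c : Pre, ¬ Fo c (BSet.beq (K.ordB ξ) (K.ordB η)) := by
  induction ξ using WellFoundedLT.induction with
  | ind ξ ih =>
    intro η hη c h
    have h1 : Fo c (BSet.bmem (K.ordB η) (K.ordB ξ)) := (enu_ordB h.ok ξ).mem ⟨η, hη⟩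
    have h2 : Fo c (BSet.bmem (K.ordB η) (K.ordB η)) :=
      fo_ext (ψ := fun y => BSet.bmem (K.ordB η) y) (BSet.ext_bmem_right _) h h1
    obtain ⟨c', -, ζ, h3⟩ := (enu_ordB h.ok η).cov c (ex_refl h.ok) _ h2
    exact ih η hη ζ.1 ζ.2 c' h3

theorem fo_beq_ordB {c : Pre} {ξ η : O} : Fo c (BSet.beq (K.ordB ξ) (K.ordB η)) ↔ K.Ok c ∧ ξ = η := by
  constructor
  · intro h
    refine ⟨h.ok, ?_⟩
    rcases lt_trichotomy ξ η with h1 | h1 | h1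
    · exact absurd (fo_beq_symm h) (ordB_ne η ξ h1 c)
    · exact h1
    · exact absurd h (ordB_ne ξ η h1 c)
  · rintro ⟨hc, rfl⟩
    exact fo_beq_refl hc _

theorem fo_mem_ordB {c : Pre} {ξ η : O} : Fo c (BSet.bmem (K.ordB η) (K.ordB ξ)) ↔ K.Ok c ∧ η < ξ := by
  constructor
  · intro h
    refine ⟨h.ok, ?_⟩
    obtain ⟨c', -, ζ, h2⟩ := (enu_ordB h.ok ξ).cov c (ex_refl h.ok) _ h
    have h3 := (fo_beq_ordB.1 h2).2
    rw [h3]
    exact ζ.2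
  · rintro ⟨hc, h⟩
    exact (enu_ordB hc ξ).mem ⟨η, h⟩

theorem fo_Emp_ordB {c : Pre} {ξ : O} : Fo c (Kb.Emp (K.ordB ξ)) ↔ K.Ok c ∧ ξ = 0 := by
  unfold Kb.Emp
  rw [fo_iInf']
  constructor
  · rintro ⟨hc, h⟩
    refine ⟨hc, ?_⟩
    by_contra h0
    have h1 : Fo c (BSet.bmem (K.ordB 0) (K.ordB ξ)) :=
      fo_mem_ordB.2 ⟨hc, pos_iff_ne_zero.2 h0⟩
    exact (fo_compl.1 (h (K.ordB 0))).2 c (ex_refl hc) h1
  · rintro ⟨hc, rfl⟩
    refine ⟨hc, fun z => fo_compl.2 ⟨hc, fun c' _ hz => ?_⟩⟩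
    obtain ⟨c'', -, ζ, -⟩ := (enu_ordB hz.ok 0).cov c' (ex_refl hz.ok) _ hz
    exact absurd ζ.2 (not_lt.2 zero_le)

/-- subsets of `ω₁` -/
noncomputable def subO (K : Code) (A : O → Set Pre) : BSet (RO (PT K)) :=
  BSet.mk {ξ : O // ξ < w1} (fun ξ => K.ordB ξ.1) (fun ξ => K.ro (A ξ.1))

theorem fo_mem_subO {A : O → Set Pre} (hA : ∀ ξ, K.Reg (A ξ)) {c : Pre} {ξ : O} (hξ : ξ < w1) :
    Fo c (BSet.bmem (K.ordB ξ) (K.subO A)) ↔ c ∈ A ξ := by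
  unfold subO
  rw [BSet.basic_bmem_mk, fo_iSup]
  constructor
  · rintro ⟨hc, h⟩
    refine (hA ξ).reg c hc fun c' hc' => ?_
    obtain ⟨c'', h1, η, h2⟩ := h c' hc'
    obtain ⟨h3, h4⟩ := fo_inf.1 h2
    refine ⟨c'', h1, ?_⟩
    rw [(fo_beq_ordB.1 h4).2]
    exact (fo_ro (hA _)).1 h3
  · intro hc
    have h0 := (hA ξ).ok c hc
    refine ⟨h0, fun c' hc' => ⟨c', ex_refl hc'.1, ⟨ξ, hξ⟩, fo_inf.2 ⟨?_, fo_beq_refl hc'.1 _⟩⟩⟩
    exact (fo_ro (hA _)).2 ((hA ξ).opn c hc c' hc')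

theorem fo_sub_subO {A : O → Set Pre} {c : Pre} (hc : K.Ok c) : Fo c (Kb.Sub (K.subO A) (K.ordB w1)) := by
  have h : Kb.Sub (K.subO A) (K.ordB w1) = ⊤ := by
    unfold Kb.Sub
    refine top_unique (le_iInf fun z => ?_)
    rw [le_himp_iff, top_inf_eq]
    unfold subO
    rw [ordB_eq w1, BSet.basic_bmem_mk, BSet.basic_bmem_mk]
    exact iSup_mono fun j => inf_le_inf_right _ le_top
  rw [h]
  exact fo_top.2 hc

end Code

end Pool.Agent.Lib.MP_8f49b0_lc.MM
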