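import Pool.Agent.Lib.MP_8f49b0_lc.MM.E.SeqN

/-!
# Posets with at most `ℵ₁` elements in the extension (module E-QD)

`QD c0 Q R E`: `c0` forces that `(Q, R)` is a preorder, and that the `E ξ`, `ξ < w1`, are its elements. `exists_QD`: `exists_fo` for `Size1`, `exists_seq`. `fo_App_R`: the relation respects forced equality
(`Kb.ext_App_a`, `Kb.ext_App_b`).
-/

namespace Pool.Agent.Lib.MP_8f49b0_lc.MM

open Pool.Agent.Lib.MP_4d8715_gt.KR

namespace Code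

/-- `c0` forces that `(Q, R)` is a preorder with the elements `E ξ` -/
structure QD (K : Code) (c0 : Pre) (Q R : BSet (RO (PT K))) (E : O → BSet (RO (PT K))) : Prop where
  ok : K.Ok c0
  pre : Fo c0 (Kb.Preord Q R)
  enu : Enu c0 Q (fun ξ : {ξ : O // ξ < w1} => E ξ.1)

/-- the truth value of `E h' ≤ E h` -/
def qn (K : Code) (R : BSet (RO (PT K))) (E : O → BSet (RO (PT K))) (h' h : O) : Set Pre := {c | Fo c (Kb.App R (E h') (E h))}

/-- the name of the set of the elements `E h` with `G h` -/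
noncomputable def subE (K : Code) (E : O → BSet (RO (PT K))) (G : O → Set Pre) : BSet (RO (PT K)) :=
  BSet.mk {ξ : O // ξ < w1} (fun ξ => E ξ.1) (fun ξ => K.ro (G ξ.1))

variable {K : Code} {c0 : Pre} {Q R : BSet (RO (PT K))} {E : O → BSet (RO (PT K))}

theorem QD.mono (h : QD K c0 Q R E) {c1 : Pre} (hc : K.ex c1 c0) : QD K c1 Q R E :=
  ⟨hc.1, h.pre.mono hc, h.enu.mono h.ok hc⟩

private theorem QD_use_all {c : Pre} {ψ : BSet (RO (PT K)) → RO (PT K)} (h : Fo c (⨅ x, ψ x)) (x : BSet (RO (PT K))) :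
    Fo c (ψ x) :=
  fo_iInf.1 h x

private theorem QD_use_imp {c : Pre} {x y : RO (PT K)} (h : Fo c (x ⇨ y)) (hx : Fo c x) : Fo c y :=
  (fo_himp.1 h).2 c (ex_refl h.ok) hx

theorem exists_QD (hc0 : K.Ok c0) (h1 : Fo c0 (Kb.Preord Q R)) (h2 : Fo c0 (Kb.Size1 (K.ordB w1) Q)) :
    ∃ E, QD K c0 Q R E := by
  classical
  have hext : BSet.Ext (fun e : BSet (RO (PT K)) => Kb.FunTo e (K.ordB w1) Q ⊓
      (⨅ p, BSet.bmem p Q ⇨ (⨆ x, BSet.bmem x (K.ordB w1) ⊓ Kb.App e x p))) :=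
    (Kb.ext_FunTo_f _ _).inf (BSet.Ext.iInf fun p => (BSet.ext_const _).himp
      (BSet.Ext.iSup fun x => (BSet.ext_const _).inf (Kb.ext_App_f _ _)))
  obtain ⟨e, he⟩ := exists_fo hext h2
  rw [fo_inf] at he
  obtain ⟨he1, he2⟩ := he
  unfold Kb.FunTo at he1
  rw [fo_inf] at he1
  obtain ⟨he1, he3⟩ := he1
  obtain ⟨Y, hY⟩ := exists_seq he1 (fun ξ : {ξ : O // ξ < w1} => K.ordB ξ.1)
    (fun ξ => fo_mem_ordB.2 ⟨hc0, ξ.2⟩)
  refine ⟨fun ξ => if h : ξ < w1 then Y ⟨ξ, h⟩ else Q, hc0, h1, ?_, ?_⟩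
  · intro i
    have hEi : (if h : i.1 < w1 then Y ⟨i.1, h⟩ else Q) = Y i := dif_pos i.2
    show Fo c0 (BSet.bmem (if h : i.1 < w1 then Y ⟨i.1, h⟩ else Q) Q)
    rw [hEi]
    refine QD_use_imp (QD_use_all (QD_use_all he3 (K.ordB i.1)) (Y i)) ?_
    exact (hY i (Y i) c0 (ex_refl hc0)).2 (fo_beq_refl hc0 _)
  · intro c hc x hx
    have h3 := QD_use_imp (QD_use_all (he2.mono hc) x) hx
    obtain ⟨c1, hc1, x', hx'⟩ := (fo_iSup.1 h3).2 c (ex_refl hc.1)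
    rw [fo_inf] at hx'
    have hc10 : K.ex c1 c0 := ex_trans hc0 hc1 hc
    obtain ⟨c2, hc2, i, hi⟩ := (enu_ordB hc10.1 w1).cov c1 (ex_refl hc10.1) x' hx'.1
    have hc20 : K.ex c2 c0 := ex_trans hc0 hc2 hc10
    refine ⟨c2, ex_trans hc.1 hc2 hc1, i, ?_⟩
    have hEi : (if h : i.1 < w1 then Y ⟨i.1, h⟩ else Q) = Y i := dif_pos i.2
    show Fo c2 (BSet.beq x (if h : i.1 < w1 then Y ⟨i.1, h⟩ else Q))
    rw [hEi]
    refine (hY i x c2 hc20).1 ?_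
    exact fo_ext (Kb.ext_App_a e x) hi (hx'.2.mono hc2)

private theorem QD_refl (h : QD K c0 Q R E) {c : Pre} (hc : K.ex c c0) {h1 : O} (hh1 : h1 < w1) :
    Fo c (Kb.App R (E h1) (E h1)) := by
  have hp := h.pre.mono hc
  unfold Kb.Preord at hp
  rw [fo_inf] at hp
  exact QD_use_imp (QD_use_all hp.1 (E h1)) ((h.enu.mem ⟨h1, hh1⟩).mono hc)

theorem QD.preQ0 (h : QD K c0 Q R E) : K.PreQ0 c0 (qn K R E) := by
  refine ⟨fun h' h1 => reg_fo _, fun h1 hh1 => QD_refl h (ex_refl h.ok) hh1, ?_⟩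
  intro h3 hh3 h2 hh2 h1 hh1 c hc h32 h21
  have hp := h.pre.mono hc
  unfold Kb.Preord at hp
  rw [fo_inf] at hp
  have h4 := QD_use_all (QD_use_all (QD_use_all hp.2 (E h3)) (E h2)) (E h1)
  exact QD_use_imp (QD_use_imp (QD_use_imp (QD_use_imp (QD_use_imp h4 ((h.enu.mem ⟨h3, hh3⟩).mono hc))
    ((h.enu.mem ⟨h2, hh2⟩).mono hc)) ((h.enu.mem ⟨h1, hh1⟩).mono hc)) h32) h21

/-- equal elements are equivalent -/
theorem QD.of_beq (h : QD K c0 Q R E) {c : Pre} (hc : K.ex c c0) {h1 h2 : O} (hh1 : h1 < w1) (hh2 : h2 < w1)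
    (he : Fo c (BSet.beq (E h1) (E h2))) : c ∈ qn K R E h1 h2 ∧ c ∈ qn K R E h2 h1 := by
  have h0 := QD_refl h hc hh1
  exact ⟨fo_ext (Kb.ext_App_b R (E h1)) he h0, fo_ext (Kb.ext_App_a R (E h1)) he h0⟩

end Code

end Pool.Agent.Lib.MP_8f49b0_lc.MM
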