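import Pool.Agent.Lib.MP_8f49b0_lc.MM.E.Om1
import Pool.Agent.Lib.MP_8f49b0_lc.MM.A.Cut2
import Pool.Agent.Lib.MP_8f49b0_lc.MM.A.Cut3
import Pool.Agent.Lib.MP_4d8715_gt.KR.E.Top

/-!
# The names of the real numbers (module E-REALB)

`rA f ξ` is the name of the cut with the truth values `CutA K f ξ q`. `fo_mem_rA`: `n_beq_rat`. `fo_Real`: unfold `Kb.Real`; rational numbers: `enu_ratSet` (`BSet.std_ratSet`), `Kb.App_ltB_rat`; the clauses are `cut_nonempty`, `cut_bdd`,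
`cut_down`, `cut_open`. `fo_LtR_false`, `fo_LtR_true`: `cut_lt`, `cut_gt`. `fo_ne`: `exists_sep`.
-/

namespace Pool.Agent.Lib.MP_8f49b0_lc.MM

open Pool.Agent.Lib.MP_4d8715_gt.KR

namespace Code

/-- the name of the real number with the index `ξ` -/
noncomputable def rA (K : Code) (f : Bool) (ξ : O) : BSet (RO (PT K)) :=
  BSet.mk (ULift ℚ) (fun q => BSet.rat q.down) (fun q => K.ro (CutA K f ξ q.down))

/-- the name of the set of all these real numbers -/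
noncomputable def setA (K : Code) (f : Bool) : BSet (RO (PT K)) :=
  BSet.mk {ξ : O // ξ < w1} (fun ξ => K.rA f ξ.1) (fun _ => ⊤)

variable {K : Code}

theorem enu_ratSet {c : Pre} (hc : K.Ok c) : Enu c (BSet.ratSet (RO (PT K))) (fun q : ℚ => BSet.rat q) := by
  constructor
  · intro q
    rw [BSet.std_ratSet.mem_self q]
    exact fo_top.2 hc
  · intro c' hc' x hx
    rw [BSet.std_ratSet.mem, fo_iSup] at hx
    exact hx.2 c' (ex_refl hc'.1)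

private theorem realB_tv {c : Pre} {P : Prop} : Fo c (BSet.tv (RO (PT K)) P) ↔ K.Ok c ∧ P := by
  unfold BSet.tv
  by_cases hP : P
  · rw [iSup_pos hP, fo_top]
    exact ⟨fun h => ⟨h, hP⟩, fun h => h.1⟩
  · rw [iSup_neg hP]
    exact ⟨fun h => (fo_bot h).elim, fun h => (hP h.2).elim⟩

theorem fo_beq_rat {c : Pre} {q r : ℚ} : Fo c (BSet.beq (BSet.rat q : BSet (RO (PT K))) (BSet.rat r)) ↔ K.Ok c ∧ q = r := by
  rw [BSet.n_beq_rat]
  exact realB_tv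

theorem fo_App_ltB {c : Pre} {q r : ℚ} : Fo c (Kb.App (BSet.ltB (RO (PT K))) (BSet.rat q) (BSet.rat r)) ↔ K.Ok c ∧ q < r := by
  rw [Kb.App_ltB_rat]
  exact realB_tv

private theorem realB_mem_rA (f : Bool) (ξ : O) (q : ℚ) :
    BSet.bmem (BSet.rat q) (K.rA f ξ) = K.ro (CutA K f ξ q) := by
  unfold rA
  rw [BSet.basic_bmem_mk]
  refine le_antisymm (iSup_le fun j => ?_) ?_
  · rw [BSet.n_beq_rat]
    unfold BSet.tv
    by_cases h : q = j.down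
    · rw [iSup_pos h, inf_top_eq, h]
    · rw [iSup_neg h, inf_bot_eq]
      exact bot_le
  · refine le_iSup_of_le (ULift.up q) ?_
    rw [BSet.n_beq_rat]
    unfold BSet.tv
    rw [iSup_pos rfl, inf_top_eq]

theorem fo_mem_rA {c : Pre} {f : Bool} {ξ : O} {q : ℚ} : Fo c (BSet.bmem (BSet.rat q) (K.rA f ξ)) ↔ c ∈ CutA K f ξ q := by
  rw [realB_mem_rA]
  exact fo_ro (reg_CutA f ξ q)

theorem fo_Real {c : Pre} (hc : K.Ok c) (f : Bool) {ξ : O} (hξ : ξ < w1) :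
    Fo c (Kb.Real (BSet.ratSet (RO (PT K))) (BSet.ltB (RO (PT K))) (K.rA f ξ)) := by
  rw [Kb.Real_eq]
  unfold BSet.isReal BSet.cut
  refine fo_inf.2 ⟨fo_inf.2 ⟨fo_inf.2 ⟨fo_inf.2 ⟨?_, ?_⟩, ?_⟩, ?_⟩, ?_⟩
  · unfold BSet.bsub
    have h : ∀ z : BSet (RO (PT K)), BSet.bmem z (K.rA f ξ) ≤ BSet.bmem z (BSet.ratSet (RO (PT K))) := by
      intro z
      rw [BSet.std_ratSet.mem]
      unfold rA
      rw [BSet.basic_bmem_mk]
      exact iSup_le fun j => le_iSup_of_le j.down inf_le_right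
    refine fo_iInf'.2 ⟨hc, fun z => ?_⟩
    rw [himp_eq_top_iff.2 (h z)]
    exact fo_top.2 hc
  · refine fo_iSup.2 ⟨hc, fun c' hc' => ?_⟩
    obtain ⟨c'', h1, q, h2⟩ := cut_nonempty (f := f) hξ hc'.1
    exact ⟨c'', h1, q, fo_mem_rA.2 h2⟩
  · refine fo_iSup.2 ⟨hc, fun c' hc' => ?_⟩
    obtain ⟨c'', h1, q, h2⟩ := cut_bdd (f := f) hξ hc'.1
    refine ⟨c'', h1, q, fo_compl.2 ⟨h1.1, fun c3 h3 h4 => h2 c3 h3 (fo_mem_rA.1 h4)⟩⟩
  · refine fo_iInf'.2 ⟨hc, fun q => fo_iInf'.2 ⟨hc, fun r => fo_iInf'.2 ⟨hc, fun hr => ?_⟩⟩⟩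
    exact fo_himp.2 ⟨hc, fun c' _ h => fo_mem_rA.2 (cut_down hr.le (fo_mem_rA.1 h))⟩
  · refine fo_iInf'.2 ⟨hc, fun q => fo_himp.2 ⟨hc, fun c' hc' h => ?_⟩⟩
    refine fo_iSup.2 ⟨hc'.1, fun c'' hc'' => ?_⟩
    have h1 : c'' ∈ CutA K f ξ q := fo_mem_rA.1 (h.mono hc'')
    obtain ⟨c3, h3, r, hr, h4⟩ := cut_open hξ h1
    refine ⟨c3, h3, r, ?_⟩
    rw [iSup_pos hr]
    exact fo_mem_rA.2 h4

end Code

end Pool.Agent.Lib.MP_8f49b0_lc.MM
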