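import Pool.Agent.Lib.MP_8f49b0_lc.MM.E.RealB

/-!
# The order of the names of the real numbers (module E-REALC)

`fo_LtR_false`, `fo_LtR_true`: `fo_mem_rA` and `cut_lt`, `cut_gt`. `fo_beq_rA`: `exists_sep` and `fo_LtR_false` (`fo_LtR_true`). `fo_LtR_asymm`: extensionality (`BSet.n_ext`, or `Kb`-lemmas on `Sub` and `beq`).
-/

namespace Pool.Agent.Lib.MP_8f49b0_lc.MM

open Pool.Agent.Lib.MP_4d8715_gt.KR

namespace Code

variable {K : Code}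

theorem enu_setA {c : Pre} (hc : K.Ok c) (f : Bool) : Enu c (K.setA f) (fun ξ : {ξ : O // ξ < w1} => K.rA f ξ.1) := by
  constructor
  · intro i
    unfold setA
    rw [BSet.basic_bmem_mk, fo_iSup]
    exact ⟨hc, fun c' hc' => ⟨c', ex_refl hc'.1, i, fo_inf.2 ⟨fo_top.2 hc'.1, fo_beq_refl hc'.1 _⟩⟩⟩
  · intro c' hc' x hx
    unfold setA at hx
    rw [BSet.basic_bmem_mk, fo_iSup] at hx
    obtain ⟨c'', hc'', i, h⟩ := hx.2 c' (ex_refl hc'.1)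
    exact ⟨c'', hc'', i, (fo_inf.1 h).2⟩

private theorem realC_sub {c : Pre} (hc : K.Ok c) {f f' : Bool} {ξ ξ' : O}
    (h : ∀ c', K.ex c' c → ∀ q, c' ∈ CutA K f ξ q → c' ∈ CutA K f' ξ' q) :
    Fo c (Kb.Sub (K.rA f ξ) (K.rA f' ξ')) := by
  unfold Kb.Sub
  rw [fo_iInf]
  intro z
  rw [fo_himp]
  refine ⟨hc, fun c' hc' hz => fo_reg hc'.1 fun c'' hc'' => ?_⟩
  unfold rA at hz
  rw [BSet.basic_bmem_mk, fo_iSup] at hz
  obtain ⟨c3, hc3, q, hq⟩ := hz.2 c'' hc''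
  rw [fo_inf, fo_ro (reg_CutA f ξ q.down)] at hq
  refine ⟨c3, hc3, ?_⟩
  have h1 : c3 ∈ CutA K f' ξ' q.down := h c3 (ex_trans hc hc3 (ex_trans hc hc'' hc')) q.down hq.1
  exact fo_ext (BSet.ext_bmem_left _) (fo_beq_symm hq.2) (fo_mem_rA.2 h1)

private theorem realC_ne {c : Pre} (hc : K.Ok c) {f f' : Bool} {ξ ξ' : O}
    (h : ∃ q, c ∈ CutA K f' ξ' q ∧ ∀ c', K.ex c' c → c' ∉ CutA K f ξ q) :
    Fo c (BSet.beq (K.rA f ξ) (K.rA f' ξ'))ᶜ := by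
  obtain ⟨q, h1, h2⟩ := h
  rw [fo_compl]
  refine ⟨hc, fun c' hc' he => ?_⟩
  have h3 : Fo c' (BSet.bmem (BSet.rat q) (K.rA f' ξ')) := (fo_mem_rA.2 h1).mono hc'
  have h4 : Fo c' (BSet.bmem (BSet.rat q) (K.rA f ξ)) := fo_ext (BSet.ext_bmem_right _) (fo_beq_symm he) h3
  exact h2 c' hc' (fo_mem_rA.1 h4)

theorem fo_LtR_false {c : Pre} (hc : K.Ok c) {ξ ξ' : O} (h : Lt c.u (fun _ : Unit => ξ) (fun _ => ξ')) :
    Fo c (Kb.LtR (K.rA false ξ) (K.rA false ξ')) := by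
  unfold Kb.LtR
  refine fo_inf.2 ⟨realC_sub hc fun c' hc' q hq => ?_, realC_ne hc (cut_lt hc h).2⟩
  exact (cut_lt hc'.1 (Lt.mono h hc'.2.u)).1 q hq

theorem fo_LtR_true {c : Pre} (hc : K.Ok c) {ξ ξ' : O} (h : Lt c.u (fun _ : Unit => ξ) (fun _ => ξ')) :
    Fo c (Kb.LtR (K.rA true ξ') (K.rA true ξ)) := by
  unfold Kb.LtR
  refine fo_inf.2 ⟨realC_sub hc fun c' hc' q hq => ?_, realC_ne hc (cut_gt hc h).2⟩
  exact (cut_gt hc'.1 (Lt.mono h hc'.2.u)).1 q hq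

theorem fo_LtR_asymm {c : Pre} {x y : BSet (RO (PT K))} (h : Fo c (Kb.LtR x y)) (h' : Fo c (Kb.LtR y x)) : False := by
  unfold Kb.LtR at h h'
  rw [fo_inf, fo_compl] at h h'
  have key : Kb.Sub x y ⊓ Kb.Sub y x ≤ BSet.beq x y := by
    rw [BSet.beq_def]
    unfold Kb.Sub
    refine le_inf (le_iInf fun i => ?_) (le_iInf fun i => ?_)
    · refine inf_le_left.trans ((iInf_le _ (x.func i)).trans ?_)
      exact himp_le_himp_right (BSet.val_le_bmem x i)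
    · refine inf_le_right.trans ((iInf_le _ (y.func i)).trans ?_)
      exact himp_le_himp_right (BSet.val_le_bmem y i)
  exact h.2.2 c (ex_refl h.2.1) ((fo_inf.2 ⟨h.1, h'.1⟩).of_le key)

theorem fo_beq_rA {c : Pre} {f : Bool} {ξ ξ' : O} (hξ : ξ < w1) (hξ' : ξ' < w1) :
    Fo c (BSet.beq (K.rA f ξ) (K.rA f ξ')) ↔ K.Ok c ∧ ξ = ξ' := by
  constructor
  · intro h
    refine ⟨h.ok, ?_⟩
    by_contra hne
    obtain ⟨c', hc', h1⟩ := exists_sep hξ hξ' hne h.ok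
    have h2 : Fo c' (BSet.beq (K.rA f ξ) (K.rA f ξ')) := h.mono hc'
    have h3 : Fo c' (Kb.LtR (K.rA f ξ) (K.rA f ξ')) ∨ Fo c' (Kb.LtR (K.rA f ξ') (K.rA f ξ)) := by
      cases f with
      | false =>
        rcases h1 with h1 | h1
        · exact Or.inl (fo_LtR_false hc'.1 h1)
        · exact Or.inr (fo_LtR_false hc'.1 h1)
      | true =>
        rcases h1 with h1 | h1
        · exact Or.inr (fo_LtR_true hc'.1 h1)
        · exact Or.inl (fo_LtR_true hc'.1 h1)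
    unfold Kb.LtR at h3
    rcases h3 with h3 | h3
    · rw [fo_inf, fo_compl] at h3
      exact h3.2.2 c' (ex_refl hc'.1) h2
    · rw [fo_inf, fo_compl] at h3
      exact h3.2.2 c' (ex_refl hc'.1) (fo_beq_symm h2)
  · rintro ⟨h, rfl⟩
    exact fo_beq_refl h _

end Code

end Pool.Agent.Lib.MP_8f49b0_lc.MM
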