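import Pool.Agent.Lib.MP_8f49b0_lc.MM.E.OrdB

/-!
# Names of relations and sequences (module E-SEQN)

`fo_App_relB`: `fo_App`, `BSet.bmem_mk` and `n_beq_opair` (equality of ordered pairs, KR/E). `exists_seq`: by `Kb.FunOn` there is for every `i` a `b` with `⨅ c, iffB (App f (X i) c) (beq c b)` (`exists_fo`). `fo_FunOn_relB`: from
`fo_App_relB` and `hinj`.
-/

namespace Pool.Agent.Lib.MP_8f49b0_lc.MM

open Pool.Agent.Lib.MP_4d8715_gt.KR

namespace Code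

variable {K : Code}

/-! ### pairs and relations -/

theorem fo_App {c : Pre} {f a b : BSet (RO (PT K))} : Fo c (Kb.App f a b) ↔ Fo c (BSet.bmem (BSet.opair a b) f) := by
  rw [Kb.App_eq]

/-- a set of ordered pairs -/
noncomputable def relB (K : Code) {ι : Type 1} (X Y : ι → BSet (RO (PT K))) (b : ι → RO (PT K)) : BSet (RO (PT K)) :=
  BSet.mk ι (fun i => BSet.opair (X i) (Y i)) b

theorem fo_App_relB {ι : Type 1} {X Y : ι → BSet (RO (PT K))} {b : ι → RO (PT K)} {c : Pre} {x y : BSet (RO (PT K))} :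
    Fo c (Kb.App (K.relB X Y b) x y) ↔ K.Ok c ∧ ∀ c', K.ex c' c → ∃ c'', K.ex c'' c' ∧
      ∃ i, Fo c'' (b i) ∧ Fo c'' (BSet.beq x (X i)) ∧ Fo c'' (BSet.beq y (Y i)) := by
  rw [fo_App]
  unfold relB
  rw [BSet.basic_bmem_mk, fo_iSup]
  have h : ∀ (c'' : Pre) (i : ι), Fo c'' (b i ⊓ BSet.beq (BSet.opair x y) (BSet.opair (X i) (Y i))) ↔
      Fo c'' (b i) ∧ Fo c'' (BSet.beq x (X i)) ∧ Fo c'' (BSet.beq y (Y i)) := by
    intro c'' i
    rw [fo_inf, BSet.beq_opair, fo_inf]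
  simp only [h]

/-- a function on an enumerated set is a sequence -/
theorem exists_seq {c : Pre} {f d : BSet (RO (PT K))} (hf : Fo c (Kb.FunOn f d)) {ι : Type*} (X : ι → BSet (RO (PT K)))
    (hX : ∀ i, Fo c (BSet.bmem (X i) d)) :
    ∃ Y : ι → BSet (RO (PT K)), ∀ i y, ∀ c', K.ex c' c → (Fo c' (Kb.App f (X i) y) ↔ Fo c' (BSet.beq y (Y i))) := by
  have h1 := (fo_inf.1 hf).2
  have h2 : ∀ i, ∃ Y, Fo c (⨅ y, iffB (Kb.App f (X i) y) (BSet.beq y Y)) := by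
    intro i
    have h3 := (fo_himp.1 (fo_iInf.1 h1 (X i))).2 c (ex_refl hf.ok) (hX i)
    refine exists_fo (ψ := fun Y => ⨅ y, iffB (Kb.App f (X i) y) (BSet.beq y Y)) ?_ h3
    exact BSet.Ext.iInf fun y => (BSet.ext_const _).iffB (BSet.ext_beq_right y)
  choose Y hY using h2
  refine ⟨Y, fun i y c' hc' => ?_⟩
  exact (fo_iffB.1 (fo_iInf.1 (hY i) y)).2 c' hc' 

/-- sequences are functions -/
theorem fo_FunOn_relB {c : Pre} (hc : K.Ok c) {d : BSet (RO (PT K))} {ι : Type 1} {X : ι → BSet (RO (PT K))}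
    (hX : Enu c d X) (hinj : ∀ i j c', K.ex c' c → Fo c' (BSet.beq (X i) (X j)) → i = j) (Y : ι → BSet (RO (PT K))) :
    Fo c (Kb.FunOn (K.relB X Y (fun _ => ⊤)) d) := by
  unfold Kb.FunOn
  refine fo_inf.2 ⟨?_, ?_⟩
  · refine fo_iInf'.2 ⟨hc, fun p => fo_himp.2 ⟨hc, fun c' hc' hp => ?_⟩⟩
    unfold relB at hp
    rw [BSet.basic_bmem_mk, fo_iSup] at hp
    refine fo_reg hc'.1 fun c1 hc1 => ?_
    obtain ⟨c2, hc2, i, h2⟩ := hp.2 c1 hc1
    refine ⟨c2, hc2, ?_⟩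
    have h3 : Fo c2 (BSet.bmem (X i) d) :=
      (hX.mem i).mono (ex_trans hc hc2 (ex_trans hc hc1 hc'))
    have h4 : Fo c2 (BSet.bmem (X i) d ⊓ Kb.Pair p (X i) (Y i)) := by
      refine fo_inf.2 ⟨h3, ?_⟩
      rw [Kb.Pair_eq]
      exact (fo_inf.1 h2).2
    exact (h4.of_le (le_iSup (fun b => BSet.bmem (X i) d ⊓ Kb.Pair p (X i) b) (Y i))).of_le
      (le_iSup (fun a => ⨆ b, BSet.bmem a d ⊓ Kb.Pair p a b) (X i))
  · refine (fo_all_mem hX (ψ := fun a => ⨆ b, ⨅ y, iffB (Kb.App (K.relB X Y (fun _ => ⊤)) a y)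
      (BSet.beq y b)) ?_ (ex_refl hc) hc).2 fun i => ?_
    · exact BSet.Ext.iSup fun b => BSet.Ext.iInf fun y =>
        (Kb.ext_App_a _ y).iffB (BSet.ext_const _)
    · refine Fo.of_le ?_ (le_iSup (fun b => ⨅ y, iffB (Kb.App (K.relB X Y (fun _ => ⊤)) (X i) y)
        (BSet.beq y b)) (Y i))
      refine fo_iInf'.2 ⟨hc, fun y => fo_iffB.2 ⟨hc, fun c' hc' => ⟨fun h => ?_, fun h => ?_⟩⟩⟩
      · refine fo_reg hc'.1 fun c1 hc1 => ?_
        obtain ⟨c2, hc2, j, -, h3, h4⟩ := (fo_App_relB.1 h).2 c1 hc1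
        have h5 : K.ex c2 c := ex_trans hc hc2 (ex_trans hc hc1 hc')
        rw [hinj i j c2 h5 h3]
        exact ⟨c2, hc2, h4⟩
      · refine fo_App_relB.2 ⟨hc'.1, fun c1 hc1 => ⟨c1, ex_refl hc1.1, i, fo_top.2 hc1.1,
          fo_beq_refl hc1.1 _, h.mono hc1⟩⟩

end Code

end Pool.Agent.Lib.MP_8f49b0_lc.MM
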