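import Pool.Agent.Lib.MP_8f49b0_lc.MM.E.SeqN

/-!
# Stationary sets in the extension (module E-STATB)

`fo_Stat`: let `c ≤ c1` and `Fo c (Kb.Club (ordB w1) C)`; apply `StatC` to `fun δ => {d | Fo d (bmem (ordB δ) C)}` (`reg_fo`): the clauses of `Kb.Club` give the hypotheses (elements of `C` are elements of `ordB w1`, so equal to
some `ordB δ` after extending; `fo_mem_ordB`, `fo_Emp_ordB`).
-/

namespace Pool.Agent.Lib.MP_8f49b0_lc.MM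

open Pool.Agent.Lib.MP_4d8715_gt.KR

namespace Code

variable {K : Code}

theorem fo_Stat {c1 : Pre} (hc1 : K.Ok c1) {S : O → Set Pre} (hS : ∀ δ, K.Reg (S δ)) (h : K.StatC c1 S) :
    Fo c1 (Kb.Stat (K.ordB w1) (K.subO S)) := by
  unfold Kb.Stat
  refine fo_inf.2 ⟨fo_sub_subO hc1, ?_⟩
  rw [fo_iInf]
  intro C
  rw [fo_himp]
  refine ⟨hc1, fun c hc hC => ?_⟩
  unfold Kb.Club at hC
  rw [fo_inf, fo_inf] at hC
  obtain ⟨hC1, hC2, hC3⟩ := hC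
  have okc : K.Ok c := hc.1
  rw [fo_iSup]
  refine ⟨okc, fun c1' hc1' => ?_⟩
  have h1' : K.ex c1' c1 := ex_trans hc1 hc1' hc
  have key := h c1' h1' (fun δ => {d | Fo d (BSet.bmem (K.ordB δ) C)}) (fun δ => reg_fo _) (by
    intro γ hγ c' hc'
    have hcc : K.ex c' c := ex_trans okc hc' hc1'
    have h1 : Fo c' (⨆ d, BSet.bmem d C ⊓ BSet.bmem (K.ordB γ) d) := by
      have h2 := fo_iInf.1 hC2 (K.ordB γ)
      rw [fo_himp] at h2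
      exact h2.2 c' hcc (fo_mem_ordB.2 ⟨hcc.1, hγ⟩)
    rw [fo_iSup] at h1
    obtain ⟨c2, hc2, d, hd⟩ := h1.2 c' (ex_refl hcc.1)
    rw [fo_inf] at hd
    have h3 : Fo c2 (BSet.bmem d (K.ordB w1)) := by
      have h2 := (fo_iInf.1 hC1 d)
      rw [fo_himp] at h2
      exact h2.2 c2 (ex_trans okc hc2 hcc) hd.1
    obtain ⟨c3, hc3, ⟨δ, hδ⟩, hdδ⟩ := (enu_ordB hc2.1 w1).cov c2 (ex_refl hc2.1) d h3
    have h4 : Fo c3 (BSet.bmem (K.ordB δ) C) := fo_ext (BSet.ext_bmem_left C) hdδ (hd.1.mono hc3)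
    have h5 : Fo c3 (BSet.bmem (K.ordB γ) (K.ordB δ)) := fo_ext (BSet.ext_bmem_right _) hdδ (hd.2.mono hc3)
    exact ⟨c3, ex_trans hc'.1 hc3 hc2, δ, hδ, (fo_mem_ordB.1 h5).2, h4⟩) (by
    intro δ hδ hδ0 c' hc' hyp
    have hcc : K.ex c' c := ex_trans okc hc' hc1'
    have h2 := fo_iInf.1 hC3 (K.ordB δ)
    rw [fo_himp] at h2
    have h3 := h2.2 c' hcc (fo_mem_ordB.2 ⟨hcc.1, hδ⟩)
    rw [fo_himp] at h3
    have h4 := h3.2 c' (ex_refl hcc.1) (by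
      rw [fo_compl]
      exact ⟨hcc.1, fun c'' _ hE => hδ0 (fo_Emp_ordB.1 hE).2⟩)
    rw [fo_himp] at h4
    refine h4.2 c' (ex_refl hcc.1) ?_
    have hext : BSet.Ext (fun x : BSet (RO (PT K)) => ⨆ e, BSet.bmem e C ⊓ (BSet.bmem e (K.ordB δ) ⊓ BSet.bmem x e)) :=
      BSet.Ext.iSup fun e => (BSet.ext_const _).inf ((BSet.ext_const _).inf (BSet.ext_bmem_left e))
    have okc' : K.Ok c' := hcc.1
    refine (fo_all_mem (enu_ordB okc' δ) hext (ex_refl okc') okc').2 ?_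
    rintro ⟨γ, hγ⟩
    rw [fo_iSup]
    refine ⟨okc', fun c'' hc'' => ?_⟩
    obtain ⟨d, hd, ε, hε, hγε, hdC⟩ := hyp γ hγ c'' hc''
    refine ⟨d, hd, K.ordB ε, fo_inf.2 ⟨hdC, fo_inf.2 ⟨fo_mem_ordB.2 ⟨hd.1, hε⟩, fo_mem_ordB.2 ⟨hd.1, hγε⟩⟩⟩⟩)
  obtain ⟨c', hc', δ, hδ, hδS, hδC⟩ := key
  exact ⟨c', hc', K.ordB δ, fo_inf.2 ⟨(fo_mem_subO hS hδ).2 hδS, hδC⟩⟩

end Code

end Pool.Agent.Lib.MP_8f49b0_lc.MM
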