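import Pool.Agent.Lib.MP_4d8715_gt.KR.Z.Fml

/-!
# The statement, read in a structure for the language of set theory

`M` is a type and `E : M → M → Prop` a binary relation, read as membership. All definitions below only
quantify over the elements of `M`. They express the usual notions when `(M, E)` is a model of ZFC.
Real numbers are Dedekind cuts of the ordered field of rational numbers: a real number `x` is the set of
all rational numbers `q < x`.
-/

namespace Pool.Agent.Lib.MP_8f49b0_lc.MM

namespace Ms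

variable {M : Type*} (E : M → M → Prop)

/-! ### Basic notions -/

/-- `x ⊆ y` -/
def Sub (x y : M) : Prop := ∀ z, E z x → E z y

/-- `p = {a, b}` -/
def UPair (p a b : M) : Prop := ∀ z, E z p ↔ (z = a ∨ z = b)

/-- `p` is the ordered pair `(a, b) = {{a}, {a, b}}` -/
def Pair (p a b : M) : Prop := ∃ u v, UPair E u a a ∧ UPair E v a b ∧ UPair E p u v

/-- `(a, b) ∈ f` -/
def App (f a b : M) : Prop := ∃ p, Pair E p a b ∧ E p f

/-- `f` is a function with domain `d` -/
def FunOn (f d : M) : Prop :=
  (∀ p, E p f → ∃ a b, E a d ∧ Pair E p a b) ∧ ∀ a, E a d → ∃ b, ∀ c, App E f a c ↔ c = b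

/-- `f` is a function from `d` to `r` -/
def FunTo (f d r : M) : Prop := FunOn E f d ∧ ∀ a b, App E f a b → E b r

/-- `x` is the empty set -/
def Emp (x : M) : Prop := ∀ z, ¬ E z x

/-- `y = x ∪ {x}` -/
def Suc (y x : M) : Prop := ∀ z, E z y ↔ (E z x ∨ z = x)

/-- `w` contains the empty set and is closed under `x ↦ x ∪ {x}` -/
def Ind (w : M) : Prop := (∀ o, Emp E o → E o w) ∧ ∀ x y, E x w → Suc E y x → E y w

/-- `w` is the set of the natural numbers, the least inductive set -/
def Omega (w : M) : Prop := Ind E w ∧ ∀ w', Ind E w' → Sub E w w'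

/-- `X` is uncountable: no function with domain `w` takes all elements of `X` as values -/
def Uncountable (w X : M) : Prop := ∀ f, FunOn E f w → ∃ x, E x X ∧ ∀ n, E n w → ¬ App E f n x

/-- `x` is an ordinal: a transitive set of transitive sets -/
def Ordl (x : M) : Prop := (∀ y, E y x → Sub E y x) ∧ ∀ y, E y x → ∀ z, E z y → Sub E z y

/-- `o` is `ω₁`, the least uncountable ordinal -/
def Omega1 (w o : M) : Prop := Ordl E o ∧ Uncountable E w o ∧ ∀ x, E x o → ¬ Uncountable E w x

/-! ### The forcing axiom -/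

/-- `R` is a preorder on the set `Q`; `(p, q) ∈ R` is read as `p ≤ q` -/
def Preord (Q R : M) : Prop :=
  (∀ p, E p Q → App E R p p) ∧
  ∀ p q r, E p Q → E q Q → E r Q → App E R p q → App E R q r → App E R p r

/-- `Q` is nonempty and has at most as many elements as `o`: some function maps `o` onto `Q` -/
def Size1 (o Q : M) : Prop := ∃ e, FunTo E e o Q ∧ ∀ p, E p Q → ∃ x, E x o ∧ App E e x p

/-- `C` is a closed unbounded subset of `o` -/
def Club (o C : M) : Prop :=
  Sub E C o ∧ (∀ c, E c o → ∃ d, E d C ∧ E c d) ∧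
  ∀ d, E d o → ¬ Emp E d → (∀ c, E c d → ∃ e, E e C ∧ E e d ∧ E c e) → E d C

/-- `S` is a stationary subset of `o` -/
def Stat (o S : M) : Prop := Sub E S o ∧ ∀ C, Club E o C → ∃ d, E d S ∧ E d C

/-- `p` forces that `d` belongs to the set named by `C`. A set `C` of pairs `(s, d)` is used as a name of
the set of all `d` such that `(s, d) ∈ C` for some `s` in the generic filter; so `p` forces this iff below
every `q ≤ p` there is some `r` with `r ≤ s` for some `s` with `(s, d) ∈ C`. -/
def Forces (Q R C p d : M) : Prop :=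
  ∀ q, E q Q → App E R q p → ∃ r s, E r Q ∧ E s Q ∧ App E R r q ∧ App E R r s ∧ App E C s d

/-- `p` forces that (the trace on `o` of) the set named by `C` is closed unbounded in `o` -/
def ForcesClub (o Q R C p : M) : Prop :=
  (∀ q c, E q Q → App E R q p → E c o →
    ∃ r d, E r Q ∧ App E R r q ∧ E d o ∧ E c d ∧ Forces E Q R C r d) ∧
  ∀ q d, E q Q → App E R q p → E d o → ¬ Emp E d →
    (∀ r c, E r Q → App E R r q → E c d →
      ∃ s e, E s Q ∧ App E R s r ∧ E e d ∧ E c e ∧ Forces E Q R C s e) →
    Forces E Q R C q d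

/-- forcing with `(Q, R)` preserves stationary subsets of `o`: if `S` is stationary and `p` forces that `C`
is a name of a closed unbounded set, then some `q ≤ p` forces some `d ∈ S` into it -/
def PresStat (o Q R : M) : Prop :=
  ∀ S C p, Stat E o S → E p Q → ForcesClub E o Q R C p →
    ∃ q d, E q Q ∧ App E R q p ∧ E d S ∧ Forces E Q R C q d

/-- `D` is a dense subset of `(Q, R)` -/
def DenseIn (Q R D : M) : Prop := Sub E D Q ∧ ∀ p, E p Q → ∃ q, E q D ∧ App E R q p

/-- `G` is a filter on `(Q, R)` -/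
def Filt (Q R G : M) : Prop :=
  Sub E G Q ∧ (∃ p, E p G) ∧ (∀ p q, E p G → E q Q → App E R p q → E q G) ∧
  ∀ p q, E p G → E q G → ∃ r, E r G ∧ App E R r p ∧ App E R r q

/-- the axiom MM(ℵ₁) (`o` is `ω₁`): if `(Q, R)` has at most `ℵ₁` elements and preserves stationary subsets
of `ω₁`, and `D` is a family of dense sets indexed by `ω₁`, then there is a filter which meets all of them -/
def MMax (o : M) : Prop :=
  ∀ Q R, Preord E Q R → Size1 E o Q → PresStat E o Q R →
    ∀ D, FunOn E D o → (∀ a X, E a o → App E D a X → DenseIn E Q R X) →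
      ∃ G, Filt E Q R G ∧ ∀ a X, E a o → App E D a X → ∃ p, E p G ∧ E p X

/-! ### The ordered field of rational numbers -/

/-- `((a, b), c) ∈ f` -/
def App2 (f a b c : M) : Prop := ∃ p, Pair E p a b ∧ App E f p c

/-- `f` is a binary operation on `Q` -/
def BinOp (Q f : M) : Prop :=
  ∀ a b, E a Q → E b Q → ∃ c, E c Q ∧ ∀ d, App2 E f a b d ↔ d = c

/-- `o` is neutral for the operation `f` on `Q` -/
def Neutral (Q f o : M) : Prop := E o Q ∧ ∀ a, E a Q → App2 E f a o a

/-- the operation `f` on `Q` is associative and commutative -/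
def AssocComm (Q f : M) : Prop :=
  (∀ a b c, E a Q → E b Q → E c Q → ∀ d e g, App2 E f a b d → App2 E f b c e →
    App2 E f d c g → App2 E f a e g) ∧
  ∀ a b c, E a Q → E b Q → App2 E f a b c → App2 E f b a c

/-- `(Q, add, mul, lt)` is an ordered field with zero `o` and one `i` -/
def OrdField (Q add mul lt o i : M) : Prop :=
  BinOp E Q add ∧ BinOp E Q mul ∧ AssocComm E Q add ∧ AssocComm E Q mul ∧
  Neutral E Q add o ∧ Neutral E Q mul i ∧ o ≠ i ∧
  (∀ a, E a Q → ∃ b, E b Q ∧ App2 E add a b o) ∧
  (∀ a, E a Q → a ≠ o → ∃ b, E b Q ∧ App2 E mul a b i) ∧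
  (∀ a b c, E a Q → E b Q → E c Q → ∀ d e g h, App2 E add b c d → App2 E mul a d e →
    App2 E mul a b g → App2 E mul a c h → App2 E add g h e) ∧
  (∀ a, E a Q → ¬ App E lt a a) ∧
  (∀ a b c, E a Q → E b Q → E c Q → App E lt a b → App E lt b c → App E lt a c) ∧
  (∀ a b, E a Q → E b Q → App E lt a b ∨ a = b ∨ App E lt b a) ∧
  (∀ a b c, E a Q → E b Q → E c Q → App E lt a b → ∀ d e, App2 E add a c d → App2 E add b c e →
    App E lt d e) ∧
  ∀ a b, E a Q → E b Q → App E lt o a → App E lt o b → ∀ c, App2 E mul a b c → App E lt o c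

/-- `K` is a subfield of the field `(Q, add, mul)` with zero `o` and one `i` -/
def Subfield (Q add mul o i K : M) : Prop :=
  Sub E K Q ∧ E o K ∧ E i K ∧
  (∀ a b c, E a K → E b K → App2 E add a b c → E c K) ∧
  (∀ a b, E a K → E b Q → App2 E add a b o → E b K) ∧
  (∀ a b c, E a K → E b K → App2 E mul a b c → E c K) ∧
  ∀ a b, E a K → E b Q → App2 E mul a b i → E b K

/-- `(Q, add, mul, lt)` is the ordered field of the rational numbers (an ordered field without
proper subfields), with zero `o` and one `i` -/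
def Rationals (Q add mul lt o i : M) : Prop :=
  OrdField E Q add mul lt o i ∧ ∀ K, Subfield E Q add mul o i K → Sub E Q K

/-! ### Sets of real numbers and Baumgartner's Axiom -/

/-- `x` is a real number: a nonempty proper initial segment of `Q` without a greatest element -/
def Real (Q lt x : M) : Prop :=
  Sub E x Q ∧ (∃ q, E q x) ∧ (∃ q, E q Q ∧ ¬ E q x) ∧
  (∀ q r, E q x → E r Q → App E lt r q → E r x) ∧ ∀ q, E q x → ∃ r, E r x ∧ App E lt q r

/-- `X` is a set of real numbers -/
def SetOfReals (Q lt X : M) : Prop := ∀ x, E x X → Real E Q lt x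

/-- `x < y` for real numbers -/
def LtR (x y : M) : Prop := Sub E x y ∧ x ≠ y

/-- `|X| = ℵ₁`: the set `X` is uncountable and some function with domain `o = ω₁` takes all elements of `X`
as values -/
def Card1 (w o X : M) : Prop :=
  Uncountable E w X ∧ ∃ e, FunOn E e o ∧ ∀ x, E x X → ∃ c, E c o ∧ App E e c x

/-- `A` is an `ℵ₁`-dense set of real numbers: `|A ∩ (a, b)| = ℵ₁` for all real numbers `a < b` -/
def Dense1 (w Q lt o A : M) : Prop :=
  SetOfReals E Q lt A ∧ ∀ a b, Real E Q lt a → Real E Q lt b → LtR E a b →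
    ∀ X, (∀ x, E x X ↔ E x A ∧ LtR E a x ∧ LtR E x b) → Card1 E w o X

/-- `f` is an isomorphism of the ordered sets `X` and `Y` of real numbers -/
def OrdIso (X Y f : M) : Prop :=
  FunTo E f X Y ∧ (∀ y, E y Y → ∃ x, E x X ∧ App E f x y) ∧
  ∀ x x' y y', App E f x y → App E f x' y' → LtR E x x' → LtR E y y'

/-- Baumgartner's Axiom: any two `ℵ₁`-dense sets of real numbers are isomorphic -/
def BAx (w Q lt o : M) : Prop :=
  ∀ X Y, Dense1 E w Q lt o X → Dense1 E w Q lt o Y → ∃ f, OrdIso E X Y f

/-- MM(ℵ₁) holds and Baumgartner's Axiom fails -/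
def MMnotBA : Prop :=
  ∃ w Q add mul lt z i o, Omega E w ∧ Rationals E Q add mul lt z i ∧ Omega1 E w o ∧
    MMax E o ∧ ¬ BAx E w Q lt o

end Ms

end Pool.Agent.Lib.MP_8f49b0_lc.MM
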