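import Pool.Agent.Lib.MP_8f49b0_lc.MM.E.QD

/-!
# Names of subsets of the poset (module E-SUBE)

`QD.mem_subE`: if `Fo c (bmem (E h1) (subE K E G))` then densely `Fo c' (beq (E h1) (E h))`, `c' ∈ G h` for some `h`, and `QD.of_beq`, `hup` give `c' ∈ G h1`; `G h1` is regular.
-/

namespace Pool.Agent.Lib.MP_8f49b0_lc.MM

open Pool.Agent.Lib.MP_4d8715_gt.KR

namespace Code

variable {K : Code} {c0 : Pre} {Q R : BSet (RO (PT K))} {E : O → BSet (RO (PT K))}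

private theorem SubE_mem_iff {G : O → Set Pre} {c : Pre} {x : BSet (RO (PT K))} :
    Fo c (BSet.bmem x (subE K E G)) ↔ K.Ok c ∧ ∀ c', K.ex c' c → ∃ c'', K.ex c'' c' ∧
      ∃ i : {ξ : O // ξ < w1}, Fo c'' (K.ro (G i.1)) ∧ Fo c'' (BSet.beq x (E i.1)) := by
  have h1 : BSet.bmem x (subE K E G) =
      ⨆ j : {ξ : O // ξ < w1}, K.ro (G j.1) ⊓ BSet.beq x (E j.1) := rfl
  rw [h1, fo_iSup]
  simp only [fo_inf]

/-- the set of the `E h` with `G h`, for upward closed `G` -/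
theorem QD.mem_subE (h : QD K c0 Q R E) {G : O → Set Pre} (hG : ∀ h, K.Reg (G h)) {c1 : Pre} (hc1 : K.ex c1 c0)
    (hup : ∀ h < w1, ∀ h' < w1, ∀ c, K.ex c c1 → c ∈ G h → c ∈ qn K R E h h' → c ∈ G h')
    {c : Pre} (hc : K.ex c c1) {h1 : O} (hh1 : h1 < w1) : Fo c (BSet.bmem (E h1) (subE K E G)) ↔ c ∈ G h1 := by
  rw [SubE_mem_iff]
  constructor
  · rintro ⟨hok, hall⟩
    refine (hG h1).reg c hok fun c' hc' => ?_
    obtain ⟨c'', hc'', i, hi1, hi2⟩ := hall c' hc'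
    refine ⟨c'', hc'', ?_⟩
    have e1 : K.ex c'' c := ex_trans hc.1 hc'' hc'
    have e2 : K.ex c'' c1 := ex_trans hc1.1 e1 hc
    have e3 : K.ex c'' c0 := ex_trans h.ok e2 hc1
    exact hup i.1 i.2 h1 hh1 c'' e2 ((fo_ro (hG i.1)).1 hi1) (h.of_beq e3 hh1 i.2 hi2).2
  · intro hm
    refine ⟨hc.1, fun c' hc' => ⟨c', ex_refl hc'.1, ⟨h1, hh1⟩, ?_, fo_beq_refl hc'.1 _⟩⟩
    exact (fo_ro (hG h1)).2 ((hG h1).opn c hm c' hc')

theorem subE_sub (h : QD K c0 Q R E) (G : O → Set Pre) : Fo c0 (Kb.Sub (subE K E G) Q) := by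
  unfold Kb.Sub
  rw [fo_iInf']
  refine ⟨h.ok, fun z => ?_⟩
  rw [fo_himp]
  refine ⟨h.ok, fun c' hc' hz => ?_⟩
  rw [SubE_mem_iff] at hz
  refine fo_reg hz.1 fun c'' hc'' => ?_
  obtain ⟨d, hd, i, _, hi2⟩ := hz.2 c'' hc''
  refine ⟨d, hd, ?_⟩
  have e1 : K.ex d c' := ex_trans hc'.1 hd hc''
  have e2 : K.ex d c0 := ex_trans h.ok e1 hc'
  exact fo_ext (ψ := fun x => BSet.bmem x Q) (BSet.ext_bmem_left Q) (fo_beq_symm hi2)
    ((h.enu.mem i).mono e2)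

/-- enumeration of the elements of `subE` -/
theorem subE_cov {G : O → Set Pre} (hG : ∀ h, K.Reg (G h)) {c : Pre} {x : BSet (RO (PT K))} (hx : Fo c (BSet.bmem x (subE K E G))) :
    ∃ c', K.ex c' c ∧ ∃ h < w1, c' ∈ G h ∧ Fo c' (BSet.beq x (E h)) := by
  rw [SubE_mem_iff] at hx
  obtain ⟨c', hc', i, hi1, hi2⟩ := hx.2 c (ex_refl hx.1)
  exact ⟨c', hc', i.1, i.2, (fo_ro (hG i.1)).1 hi1, hi2⟩

end Code

end Pool.Agent.Lib.MP_8f49b0_lc.MM
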